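import Pool.Agent.TorusInt.Defs

/-! Module Cfun (doc section 1 (C)): the auxiliary function `C`. -/

set_option autoImplicit false

open scoped ContDiff Topology

namespace Pool.Agent.TorusInt

namespace Cfun

/-- a smooth function equal to `arcsin` on `[-9/10, 9/10]` -/
theorem exists_A : ∃ A : ℝ → ℝ, ContDiff ℝ ∞ A ∧ (∀ s, |s| < 9 / 10 → A s = Real.arcsin s) ∧
    (∀ s, |s| ≤ 1 → |A s| ≤ Real.pi / 2) ∧ (∀ s, |s| ≤ 1 → |A s| < Real.pi / 3 → |s| < 9 / 10) ∧
    A 1 = Real.pi / 2 := by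
  let b : ContDiffBump (0 : ℝ) := ⟨9 / 10, 19 / 20, by norm_num, by norm_num⟩
  have hb : ContDiff ℝ ∞ (b : ℝ → ℝ) := b.contDiff
  have hb1 : ∀ s : ℝ, |s| ≤ 9 / 10 → (b : ℝ → ℝ) s = 1 := fun s hs =>
    b.one_of_mem_closedBall (by simpa [Real.dist_eq] using hs)
  have hb0 : ∀ s : ℝ, 19 / 20 ≤ |s| → (b : ℝ → ℝ) s = 0 := fun s hs =>
    b.zero_of_le_dist (by simpa [Real.dist_eq] using hs)
  have hbn : ∀ s : ℝ, 0 ≤ (b : ℝ → ℝ) s := fun s => b.nonneg
  have hbl : ∀ s : ℝ, (b : ℝ → ℝ) s ≤ 1 := fun s => b.le_one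
  have hpi := Real.pi_pos
  -- concavity: `arcsin s ≤ (π/2) s` on `[0,1]`
  have hcv : ∀ s : ℝ, 0 ≤ s → s ≤ 1 → Real.arcsin s ≤ Real.pi / 2 * s := by
    intro s h0 h1
    have h2 := Real.mul_le_sin (Real.arcsin_nonneg.2 h0) (Real.arcsin_le_pi_div_two s)
    rw [Real.sin_arcsin (by linarith) h1] at h2
    have h3 : 2 / Real.pi * Real.arcsin s ≤ s := h2
    have h4 : Real.arcsin s = Real.pi / 2 * (2 / Real.pi * Real.arcsin s) := by
      field_simp
    rw [h4]
    exact mul_le_mul_of_nonneg_left h3 (by positivity)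
  refine ⟨fun s => (b : ℝ → ℝ) s * Real.arcsin s + (1 - (b : ℝ → ℝ) s) * (Real.pi / 2 * s),
    ?_, ?_, ?_, ?_, ?_⟩
  · rw [contDiff_iff_contDiffAt]
    intro s
    have hlin : ContDiffAt ℝ ∞ (fun s => (1 - (b : ℝ → ℝ) s) * (Real.pi / 2 * s)) s :=
      ((contDiff_const.sub hb).mul (contDiff_const.mul contDiff_id)).contDiffAt
    refine ContDiffAt.add ?_ hlin
    by_cases h : |s| < 1
    · rw [abs_lt] at h
      exact hb.contDiffAt.mul (Real.contDiffAt_arcsin (by linarith) (by linarith))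
    · push Not at h
      have h1 : (fun s => (b : ℝ → ℝ) s * Real.arcsin s) =ᶠ[𝓝 s] fun _ => 0 := by
        have : {t : ℝ | 19 / 20 < |t|} ∈ 𝓝 s :=
          (isOpen_lt continuous_const continuous_abs).mem_nhds
            (show (19 / 20 : ℝ) < |s| by linarith)
        filter_upwards [this] with t ht
        rw [hb0 t (le_of_lt ht), zero_mul]
      exact contDiffAt_const.congr_of_eventuallyEq h1
  · intro s hs
    simp only [hb1 s hs.le]
    ring
  · intro s hs
    have h1 : |Real.arcsin s| ≤ Real.pi / 2 :=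
      abs_le.2 ⟨Real.neg_pi_div_two_le_arcsin s, Real.arcsin_le_pi_div_two s⟩
    have h2 : |Real.pi / 2 * s| ≤ Real.pi / 2 := by
      rw [abs_mul, abs_of_pos (by positivity)]
      nlinarith
    calc |(b : ℝ → ℝ) s * Real.arcsin s + (1 - (b : ℝ → ℝ) s) * (Real.pi / 2 * s)|
        ≤ |(b : ℝ → ℝ) s * Real.arcsin s| + |(1 - (b : ℝ → ℝ) s) * (Real.pi / 2 * s)| :=
          abs_add_le _ _
      _ ≤ (b : ℝ → ℝ) s * (Real.pi / 2) + (1 - (b : ℝ → ℝ) s) * (Real.pi / 2) := by
          rw [abs_mul, abs_mul (1 - (b : ℝ → ℝ) s), abs_of_nonneg (hbn s),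
            abs_of_nonneg (sub_nonneg.2 (hbl s))]
          exact add_le_add (mul_le_mul_of_nonneg_left h1 (hbn s))
            (mul_le_mul_of_nonneg_left h2 (sub_nonneg.2 (hbl s)))
      _ = Real.pi / 2 := by ring
  · intro s hs h
    by_contra hcon
    push Not at hcon
    -- `|A s| ≥ arcsin |s| ≥ π/3`
    have key : ∀ s : ℝ, 9 / 10 ≤ s → s ≤ 1 → Real.pi / 3 ≤
        (b : ℝ → ℝ) s * Real.arcsin s + (1 - (b : ℝ → ℝ) s) * (Real.pi / 2 * s) := by
      intro s h1 h2
      have h3 : Real.pi / 3 ≤ Real.arcsin s := by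
        rw [Real.le_arcsin_iff_sin_le' ⟨by linarith, by linarith⟩, Real.sin_pi_div_three]
        have h4 : Real.sqrt 3 ≤ 18 / 10 := by
          rw [Real.sqrt_le_left (by norm_num)]
          norm_num
        linarith
      have h4 := hcv s (by linarith) h2
      have h5 := hbn s
      have h6 := hbl s
      nlinarith
    have hev : ∀ s : ℝ, (b : ℝ → ℝ) (-s) = (b : ℝ → ℝ) s := fun s => by
      have := b.neg s
      simpa using this
    rcases abs_cases s with ⟨h1, h2⟩ | ⟨h1, h2⟩
    · rw [h1] at hcon hs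
      have h3 := key s hcon hs
      have h4 := le_abs_self ((b : ℝ → ℝ) s * Real.arcsin s +
        (1 - (b : ℝ → ℝ) s) * (Real.pi / 2 * s))
      linarith
    · rw [h1] at hcon hs
      have h3 := key (-s) hcon hs
      rw [hev, Real.arcsin_neg] at h3
      have h4 := neg_abs_le ((b : ℝ → ℝ) s * Real.arcsin s +
        (1 - (b : ℝ → ℝ) s) * (Real.pi / 2 * s))
      nlinarith
  · simp only [hb0 1 (by rw [abs_one]; norm_num)]
    ring

theorem exists_E0 : ∃ e : ℝ, 0 < e ∧ Real.cosh e = 10 ∧ 99 / 100 * 10 ≤ Real.sinh e ∧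
    Real.sinh e ≤ 10 := by
  have h1 : Continuous Real.cosh := Real.continuous_cosh
  have h2 : (10 : ℝ) ∈ Set.Icc (Real.cosh 0) (Real.cosh 10) := by
    constructor
    · rw [Real.cosh_zero]; norm_num
    · have h3 : (10 : ℝ) + 1 ≤ Real.exp 10 := Real.add_one_le_exp 10
      have h5 : (11 : ℝ) ^ 2 ≤ Real.exp 20 := by
        have : Real.exp 20 = Real.exp 10 ^ 2 := by rw [← Real.exp_nat_mul]; norm_num
        rw [this]
        exact pow_le_pow_left₀ (by norm_num) (by linarith) 2
      have h6 : Real.sinh 10 ≤ Real.cosh 10 := (Real.sinh_lt_cosh 10).le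
      have h7 : (10 : ℝ) ≤ Real.sinh 10 := Real.self_le_sinh_iff.2 (by norm_num)
      linarith
  obtain ⟨e, he, hc⟩ := intermediate_value_Icc (by norm_num : (0 : ℝ) ≤ 10) h1.continuousOn h2
  have he0 : 0 < e := by
    rcases he.1.lt_or_eq with h | h
    · exact h
    · rw [← h, Real.cosh_zero] at hc
      norm_num at hc
  have hs : 0 < Real.sinh e := Real.sinh_pos_iff.2 he0
  have h3 : Real.cosh e ^ 2 - Real.sinh e ^ 2 = 1 := Real.cosh_sq_sub_sinh_sq e
  rw [hc] at h3
  refine ⟨e, he0, hc, ?_, ?_⟩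
  · nlinarith
  · nlinarith

end Cfun

open Cfun in
theorem exists_C : ∃ C : ℝ → ℝ, CData C := by
  obtain ⟨A, hA, hA1, hA2, hA3, hA4⟩ := exists_A
  obtain ⟨e, he, hce, hs1, hs2⟩ := exists_E0
  have hpi := Real.pi_pos
  set h : ℝ → ℝ := fun x => 3 / (4 * Real.pi) * A (Real.sin (4 * Real.pi / 3 * x)) with hh
  have hsm : ContDiff ℝ ∞ h := by
    rw [hh]
    exact contDiff_const.mul (hA.comp (Real.contDiff_sin.comp (contDiff_const.mul contDiff_id)))
  have hbd : ∀ x, |h x| ≤ 3 / 8 := by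
    intro x
    have h1 := hA2 _ (Real.abs_sin_le_one (4 * Real.pi / 3 * x))
    rw [hh]
    simp only
    rw [abs_mul, abs_of_pos (by positivity : 0 < 3 / (4 * Real.pi))]
    calc 3 / (4 * Real.pi) * |A (Real.sin (4 * Real.pi / 3 * x))|
        ≤ 3 / (4 * Real.pi) * (Real.pi / 2) := mul_le_mul_of_nonneg_left h1 (by positivity)
      _ = 3 / 8 := by field_simp; norm_num
  have hband : ∀ x, |h x| < 1 / 4 → |Real.sin (4 * Real.pi / 3 * x)| < 9 / 10 := by
    intro x hx
    apply hA3 _ (Real.abs_sin_le_one _)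
    rw [hh] at hx
    simp only at hx
    rw [abs_mul, abs_of_pos (by positivity : 0 < 3 / (4 * Real.pi))] at hx
    have h1 : |A (Real.sin (4 * Real.pi / 3 * x))| =
        4 * Real.pi / 3 * (3 / (4 * Real.pi) * |A (Real.sin (4 * Real.pi / 3 * x))|) := by
      field_simp
    rw [h1]
    calc 4 * Real.pi / 3 * (3 / (4 * Real.pi) * |A (Real.sin (4 * Real.pi / 3 * x))|)
        < 4 * Real.pi / 3 * (1 / 4) := mul_lt_mul_of_pos_left hx (by positivity)
      _ = Real.pi / 3 := by ring
  -- local slope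
  have hslope : ∀ x, |h x| < 1 / 4 → ∃ s : ℝ, s ^ 2 = 1 ∧ ∀ᶠ y in 𝓝 x, HasDerivAt h s y := by
    intro x hx
    have h1 := hband x hx
    have hcont : Continuous fun y : ℝ => |Real.sin (4 * Real.pi / 3 * y)| :=
      (Real.continuous_sin.comp (continuous_const.mul continuous_id)).abs
    have h2 : ∀ᶠ y in 𝓝 x, |Real.sin (4 * Real.pi / 3 * y)| < 9 / 10 :=
      hcont.continuousAt.eventually (gt_mem_nhds h1)
    have hcos : Real.cos (4 * Real.pi / 3 * x) ≠ 0 := by
      intro h3
      have h4 := Real.sin_sq_add_cos_sq (4 * Real.pi / 3 * x)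
      rw [h3] at h4
      have h5 : Real.sin (4 * Real.pi / 3 * x) ^ 2 < 1 := by
        rw [← sq_abs]
        nlinarith [abs_nonneg (Real.sin (4 * Real.pi / 3 * x))]
      linarith
    have hder : ∀ y, |Real.sin (4 * Real.pi / 3 * y)| < 9 / 10 →
        HasDerivAt h (Real.cos (4 * Real.pi / 3 * y) / |Real.cos (4 * Real.pi / 3 * y)|) y := by
      intro y hy
      have h3 : ∀ᶠ t in 𝓝 y, h t = 3 / (4 * Real.pi) *
          Real.arcsin (Real.sin (4 * Real.pi / 3 * t)) := by
        have : ∀ᶠ t in 𝓝 y, |Real.sin (4 * Real.pi / 3 * t)| < 9 / 10 :=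
          hcont.continuousAt.eventually (gt_mem_nhds hy)
        filter_upwards [this] with t ht
        rw [hh]
        simp only
        rw [hA1 _ ht]
      have h4 : HasDerivAt (fun t : ℝ => 4 * Real.pi / 3 * t) (4 * Real.pi / 3) y := by
        simpa using (hasDerivAt_id y).const_mul (4 * Real.pi / 3)
      have h5 := h4.sin
      rw [abs_lt] at hy
      have h6 := (Real.hasDerivAt_arcsin (x := Real.sin (4 * Real.pi / 3 * y))
        (by linarith) (by linarith)).comp y h5
      have h7 := h6.const_mul (3 / (4 * Real.pi))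
      refine (h7.congr_of_eventuallyEq h3).congr_deriv ?_
      have h8 : Real.sqrt (1 - Real.sin (4 * Real.pi / 3 * y) ^ 2) =
          |Real.cos (4 * Real.pi / 3 * y)| := by
        rw [← Real.cos_sq', Real.sqrt_sq_eq_abs]
      rw [h8]
      field_simp
    rcases lt_or_gt_of_ne hcos with hc | hc
    · refine ⟨-1, by norm_num, ?_⟩
      have h3 : ∀ᶠ y in 𝓝 x, Real.cos (4 * Real.pi / 3 * y) < 0 :=
        (Real.continuous_cos.comp (continuous_const.mul continuous_id)).continuousAt.eventually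
          (gt_mem_nhds hc)
      filter_upwards [h2, h3] with y hy hy'
      refine (hder y hy).congr_deriv ?_
      rw [abs_of_neg hy', div_neg, div_self hy'.ne]
    · refine ⟨1, by norm_num, ?_⟩
      have h3 : ∀ᶠ y in 𝓝 x, 0 < Real.cos (4 * Real.pi / 3 * y) :=
        (Real.continuous_cos.comp (continuous_const.mul continuous_id)).continuousAt.eventually
          (lt_mem_nhds hc)
      filter_upwards [h2, h3] with y hy hy'
      refine (hder y hy).congr_deriv ?_
      rw [abs_of_pos hy', div_self hy'.ne']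
  -- value of `cosh (e + t)`
  have hval : ∀ t, Real.cosh (e + t) = 10 * Real.cosh t + Real.sinh e * Real.sinh t := by
    intro t
    rw [Real.cosh_add, hce]
  have hge : ∀ t : ℝ, 1 / 4 ≤ t → 1 + 99 / 100 * t ≤ Real.cosh (e + t) / 10 := by
    intro t ht
    rw [hval]
    have h1 : t ≤ Real.sinh t := Real.self_le_sinh_iff.2 (by linarith)
    have h2 : 1 ≤ Real.cosh t := Real.one_le_cosh t
    have h3 : 99 / 100 * 10 * t ≤ Real.sinh e * Real.sinh t :=
      mul_le_mul hs1 h1 (by linarith) (by linarith)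
    linarith
  have hle : ∀ t : ℝ, 1 / 4 ≤ t → t ≤ 3 / 8 → Real.cosh (e + -t) / 10 ≤ 82 / 100 := by
    intro t ht ht'
    rw [hval, Real.cosh_neg, Real.sinh_neg]
    have h0 : 0 ≤ Real.sinh t := Real.sinh_nonneg_iff.2 (by linarith)
    have h1 : 99 / 100 * 10 * Real.sinh t ≤ Real.sinh e * Real.sinh t :=
      mul_le_mul_of_nonneg_right hs1 h0
    have h2 : Real.cosh t - Real.sinh t = Real.exp (-t) := Real.cosh_sub_sinh t
    have h3 : Real.exp (-t) ≤ 4 / 5 := by
      rw [Real.exp_neg]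
      have h4 : t + 1 ≤ Real.exp t := Real.add_one_le_exp t
      rw [inv_le_comm₀ (Real.exp_pos _) (by norm_num)]
      norm_num
      linarith
    have h5 : Real.sinh t ≤ 8 / 5 := by
      have h6 : Real.sinh t ≤ Real.exp t := by
        rw [Real.sinh_eq]
        have := Real.exp_pos (-t)
        have := Real.exp_pos t
        linarith
      have h7 : Real.exp t ≤ 8 / 5 := by
        have h8 : -t + 1 ≤ Real.exp (-t) := Real.add_one_le_exp (-t)
        rw [Real.exp_neg] at h8
        have h9 : 5 / 8 ≤ (Real.exp t)⁻¹ := by linarith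
        rw [le_inv_comm₀ (by norm_num) (Real.exp_pos _)] at h9
        linarith [h9]
      linarith
    linarith
  have hbb : ∀ x, |Real.cosh (e + h x) / 10 - 1| < 4 / 25 → |h x| < 1 / 4 := by
    intro x hx
    by_contra hcon
    push Not at hcon
    rw [abs_lt] at hx
    rcases abs_cases (h x) with ⟨h1, h2⟩ | ⟨h1, h2⟩
    · rw [h1] at hcon
      have := hge _ hcon
      linarith [hx.2]
    · rw [h1] at hcon
      have h3 := hle _ hcon (by have := hbd x; rw [h1] at this; exact this)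
      rw [neg_neg] at h3
      linarith [hx.1]
  have hlocal : ∀ x, |Real.cosh (e + h x) / 10 - 1| < 4 / 25 →
      ∃ s : ℝ, s ^ 2 = 1 ∧ (∀ᶠ y in 𝓝 x, HasDerivAt (fun x => Real.cosh (e + h x))
        (Real.sinh (e + h y) * s) y) ∧
        HasDerivAt (fun y => Real.sinh (e + h y) * s) (Real.cosh (e + h x) * s * s) x := by
    intro x hx
    obtain ⟨s, hs, hsd⟩ := hslope x (hbb x hx)
    refine ⟨s, hs, ?_, ?_⟩
    · filter_upwards [hsd] with y hy
      exact (hy.const_add e).cosh
    · exact ((hsd.self_of_nhds.const_add e).sinh).mul_const s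
  refine ⟨fun x => Real.cosh (e + h x), ?_, ?_, ?_, ?_, ?_, ?_, ?_⟩
  · exact Real.contDiff_cosh.comp (contDiff_const.add hsm)
  · intro x
    have h1 : h (x + 3 / 2) = h x := by
      rw [hh]
      simp only
      have : 4 * Real.pi / 3 * (x + 3 / 2) = 4 * Real.pi / 3 * x + 2 * Real.pi := by ring
      rw [this, Real.sin_add_two_pi]
    simp only [h1]
  · intro x
    have h1 := hbd x
    rw [hval]
    have h0 : |Real.sinh (h x)| = Real.sinh |h x| := by
      rcases abs_cases (h x) with ⟨h2, h3⟩ | ⟨h2, h3⟩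
      · rw [h2, abs_of_nonneg (Real.sinh_nonneg_iff.2 h3)]
      · rw [h2, Real.sinh_neg, abs_of_neg (Real.sinh_neg_iff.2 h3)]
    have hc : Real.cosh (h x) = Real.cosh |h x| := (Real.cosh_abs _).symm
    have h2 : |Real.sinh e * Real.sinh (h x)| ≤ 10 * Real.sinh |h x| := by
      rw [abs_mul, h0, abs_of_nonneg (by linarith : 0 ≤ Real.sinh e)]
      exact mul_le_mul_of_nonneg_right hs2 (Real.sinh_nonneg_iff.2 (abs_nonneg _))
    rw [abs_le] at h2
    have h3 : Real.cosh |h x| + Real.sinh |h x| = Real.exp |h x| := Real.cosh_add_sinh _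
    have h4 : Real.cosh |h x| - Real.sinh |h x| = Real.exp (-|h x|) := Real.cosh_sub_sinh _
    have h5 : 5 / 8 ≤ Real.exp (-|h x|) := by
      have := Real.add_one_le_exp (-|h x|)
      linarith
    have h6 : Real.exp |h x| ≤ 8 / 5 := by
      have h9 := h5
      rw [Real.exp_neg, le_inv_comm₀ (by norm_num) (Real.exp_pos _)] at h9
      linarith [h9]
    rw [hc, abs_le]
    constructor <;> linarith [h2.1, h2.2]
  · intro x hx
    obtain ⟨s, hs, h1, -⟩ := hlocal x hx
    rw [h1.self_of_nhds.deriv, mul_pow, hs, mul_one]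
    have := Real.cosh_sq_sub_sinh_sq (e + h x)
    linarith
  · intro x hx
    obtain ⟨s, hs, h1, h2⟩ := hlocal x hx
    have h3 : deriv (fun x => Real.cosh (e + h x)) =ᶠ[𝓝 x] fun y => Real.sinh (e + h y) * s := by
      filter_upwards [h1] with y hy
      exact hy.deriv
    rw [h3.deriv_eq, h2.deriv]
    have : Real.cosh (e + h x) * s * s = Real.cosh (e + h x) * s ^ 2 := by ring
    rw [this, hs, mul_one]
  · refine ⟨0, ?_⟩
    have h1 : h 0 = 0 := by
      rw [hh]
      simp only [mul_zero, Real.sin_zero]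
      rw [hA1 0 (by simp), Real.arcsin_zero, mul_zero]
    simp only [h1, add_zero, hce]
  · refine ⟨3 / 8, ?_⟩
    have h1 : h (3 / 8) = 3 / 8 := by
      rw [hh]
      simp only
      have : 4 * Real.pi / 3 * (3 / 8) = Real.pi / 2 := by ring
      rw [this, Real.sin_pi_div_two, hA4]
      field_simp
      norm_num
    simp only [h1]
    have h2 := hge (3 / 8) (by norm_num)
    rw [lt_abs]
    left
    linarith

end Pool.Agent.TorusInt
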