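import Pool.Agent.TorusInt.Defs

/-! Module Conf (doc section 6, first part): isometries with Liouville metrics are affine. -/

set_option autoImplicit false

open scoped ContDiff

namespace Pool.Agent.TorusInt

namespace Conf

/-- an entire function with bounded derivative is affine -/
theorem holo_affine {G : ℂ → ℂ} (hd : Differentiable ℝ G)
    (hCR : ∀ z, fderiv ℝ G z Complex.I = Complex.I • fderiv ℝ G z 1) {M : ℝ}
    (hb : ∀ z, ‖fderiv ℝ G z 1‖ ≤ M) :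
    ∃ α β : ℂ, (∀ z, G z = α * z + β) ∧ ∀ z, fderiv ℝ G z 1 = α := by
  have hG : Differentiable ℂ G := fun z =>
    differentiableAt_complex_iff_differentiableAt_real.mpr ⟨hd z, hCR z⟩
  have hG' : Differentiable ℂ (deriv G) := by
    have h : ContDiff ℂ (1 + 1) G := hG.contDiff
    exact (contDiff_succ_iff_deriv.mp h).2.2.differentiable one_ne_zero
  have hbd : Bornology.IsBounded (Set.range (deriv G)) := by
    rw [isBounded_iff_forall_norm_le]
    refine ⟨M, ?_⟩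
    rintro _ ⟨z, rfl⟩
    rw [complexOfReal_deriv (hd z) (hCR z)]
    exact hb z
  obtain ⟨α, hα⟩ := hG'.exists_const_forall_eq_of_bounded hbd
  have hdiff : Differentiable ℂ (fun z => G z - α * z) :=
    hG.sub (differentiable_id.const_mul α)
  have hz : ∀ z, deriv (fun z => G z - α * z) z = 0 := by
    intro z
    have h1 : HasDerivAt G α z := by
      rw [← hα z]
      exact (hG z).hasDerivAt
    have h2 : HasDerivAt (fun z => G z - α * z) (α - α * 1) z :=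
      h1.sub ((hasDerivAt_id z).const_mul α)
    rw [h2.deriv]
    ring
  refine ⟨α, G 0, fun z => ?_, fun z => ?_⟩
  · have h := is_const_of_deriv_eq_zero hdiff hz z 0
    simp only [mul_zero, sub_zero] at h
    rw [← h]
    ring
  · rw [← complexOfReal_deriv (hd z) (hCR z)]
    exact hα z

/-- values of a periodic function are attained on a compact set -/
theorem exists_compact {Λ : AddSubgroup (ℝ × ℝ)} (hΛ : IsLattice Λ) :
    ∃ K : Set (ℝ × ℝ), IsCompact K ∧ K.Nonempty ∧ ∀ x : ℝ × ℝ, ∃ l ∈ Λ, x + l ∈ K := by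
  obtain ⟨a, b, hab, rfl⟩ := hΛ
  set φ : ℝ × ℝ → ℝ × ℝ := fun s => s.1 • a + s.2 • b with hφ
  have hφc : Continuous φ := by
    rw [hφ]
    fun_prop
  refine ⟨φ '' (Set.Icc 0 1 ×ˢ Set.Icc 0 1), (isCompact_Icc.prod isCompact_Icc).image hφc,
    ⟨φ (0, 0), Set.mem_image_of_mem _ ?_⟩, ?_⟩
  · simp
  · intro x
    set dd := a.1 * b.2 - a.2 * b.1 with hdd
    set s : ℝ := (x.1 * b.2 - x.2 * b.1) / dd with hs
    set t : ℝ := (a.1 * x.2 - a.2 * x.1) / dd with ht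
    have hx : x = s • a + t • b := by
      ext
      · simp only [Prod.fst_add, Prod.smul_fst, smul_eq_mul]
        rw [hs, ht]
        field_simp
        rw [hdd]
        ring
      · simp only [Prod.snd_add, Prod.smul_snd, smul_eq_mul]
        rw [hs, ht]
        field_simp
        rw [hdd]
        ring
    refine ⟨(-⌊s⌋) • a + (-⌊t⌋) • b, ?_, ?_⟩
    · apply AddSubgroup.add_mem
      · exact AddSubgroup.zsmul_mem _ (AddSubgroup.subset_closure (by simp)) _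
      · exact AddSubgroup.zsmul_mem _ (AddSubgroup.subset_closure (by simp)) _
    · refine ⟨(Int.fract s, Int.fract t), ⟨⟨Int.fract_nonneg s, (Int.fract_lt_one s).le⟩,
        ⟨Int.fract_nonneg t, (Int.fract_lt_one t).le⟩⟩, ?_⟩
      rw [hφ]
      simp only
      conv_rhs => rw [hx]
      have e1 : (-⌊s⌋) • a = (-(⌊s⌋ : ℝ)) • a := by
        rw [← Int.cast_neg, Int.cast_smul_eq_zsmul]
      have e2 : (-⌊t⌋) • b = (-(⌊t⌋ : ℝ)) • b := by
        rw [← Int.cast_neg, Int.cast_smul_eq_zsmul]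
      rw [e1, e2, Int.fract, Int.fract]
      module

/-- linear algebra: a similarity of the plane -/
theorem similarity {p1 p2 q1 q2 μ : ℝ}
    (h : ∀ s t : ℝ, (s * p1 + t * q1) ^ 2 + (s * p2 + t * q2) ^ 2 = μ * (s ^ 2 + t ^ 2)) :
    p1 * q1 + p2 * q2 = 0 ∧ p1 ^ 2 + p2 ^ 2 = μ ∧ q1 ^ 2 + q2 ^ 2 = μ ∧
      (p1 * q2 - p2 * q1) ^ 2 = μ ^ 2 := by
  have h10 := h 1 0
  have h01 := h 0 1
  have h11 := h 1 1
  have e1 : p1 ^ 2 + p2 ^ 2 = μ := by linarith [h10]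
  have e2 : q1 ^ 2 + q2 ^ 2 = μ := by linarith [h01]
  have e3 : p1 * q1 + p2 * q2 = 0 := by nlinarith [h11, e1, e2]
  refine ⟨e3, e1, e2, ?_⟩
  have : (p1 * q2 - p2 * q1) ^ 2 = (p1 ^ 2 + p2 ^ 2) * (q1 ^ 2 + q2 ^ 2) -
      (p1 * q1 + p2 * q2) ^ 2 := by ring
  rw [this, e1, e2, e3]
  ring

/-- the affine form of a conformal or anticonformal map with bounded derivative -/
theorem core {Φ : ℝ × ℝ → ℝ × ℝ} (hΦ : Differentiable ℝ Φ) {ε : ℝ} (hε : ε * ε = 1)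
    (hCR : ∀ x, (fderiv ℝ Φ x (0, 1)).1 = -(ε * (fderiv ℝ Φ x (1, 0)).2) ∧
      (fderiv ℝ Φ x (0, 1)).2 = ε * (fderiv ℝ Φ x (1, 0)).1) {M : ℝ}
    (hb : ∀ x, (fderiv ℝ Φ x (1, 0)).1 ^ 2 + (fderiv ℝ Φ x (1, 0)).2 ^ 2 ≤ M) :
    ∃ α β : ℂ, (∀ x y, (Φ (x, y)).1 = α.re * x - α.im * y + β.re ∧
      (Φ (x, y)).2 = ε * (α.im * x + α.re * y + β.im)) ∧
      ∀ x, (fderiv ℝ Φ x (1, 0)).1 ^ 2 + (fderiv ℝ Φ x (1, 0)).2 ^ 2 = α.re ^ 2 + α.im ^ 2 := by
  set c : ℝ × ℝ →L[ℝ] ℂ := (ContinuousLinearMap.fst ℝ ℝ ℝ).smulRight (1 : ℂ) +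
    (ContinuousLinearMap.snd ℝ ℝ ℝ).smulRight ((ε : ℂ) * Complex.I) with hc
  have hcr : ∀ u, (c u).re = u.1 := by
    intro u
    simp [hc]
  have hci : ∀ u, (c u).im = ε * u.2 := by
    intro u
    simp [hc, mul_comm]
  set e : ℂ →L[ℝ] ℝ × ℝ := (Complex.equivRealProdCLM : ℂ →L[ℝ] ℝ × ℝ) with he
  have heq : ∀ z, e z = (z.re, z.im) := fun z => rfl
  have he1 : e 1 = (1, 0) := by rw [heq]; simp
  have heI : e Complex.I = (0, 1) := by rw [heq]; simp
  set G : ℂ → ℂ := fun z => c (Φ (e z)) with hG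
  have hGd : ∀ z, HasFDerivAt G (c.comp ((fderiv ℝ Φ (e z)).comp e)) z := by
    intro z
    have h1 : HasFDerivAt (fun z => Φ (e z)) ((fderiv ℝ Φ (e z)).comp e) z :=
      (hΦ (e z)).hasFDerivAt.comp z e.hasFDerivAt
    exact c.hasFDerivAt.comp z h1
  have hG1 : ∀ z, fderiv ℝ G z 1 = c (fderiv ℝ Φ (e z) (1, 0)) := by
    intro z
    rw [(hGd z).fderiv]
    simp only [ContinuousLinearMap.comp_apply, he1]
  have hGI : ∀ z, fderiv ℝ G z Complex.I = c (fderiv ℝ Φ (e z) (0, 1)) := by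
    intro z
    rw [(hGd z).fderiv]
    simp only [ContinuousLinearMap.comp_apply, heI]
  obtain ⟨α, β, h1, h2⟩ := holo_affine (G := G) (M := Real.sqrt M)
    (fun z => (hGd z).differentiableAt) (by
      intro z
      rw [hG1, hGI]
      obtain ⟨h1, h2⟩ := hCR (e z)
      apply Complex.ext
      · rw [hcr, smul_eq_mul, Complex.mul_re, Complex.I_re, Complex.I_im, hci, h1]
        ring
      · rw [hci, smul_eq_mul, Complex.mul_im, Complex.I_re, Complex.I_im, hcr, h2]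
        linear_combination (fderiv ℝ Φ (e z) (1, 0)).1 * hε) (by
      intro z
      rw [hG1]
      apply Real.le_sqrt_of_sq_le
      rw [Complex.sq_norm, Complex.normSq_apply, hcr, hci]
      refine le_trans (le_of_eq ?_) (hb (e z))
      linear_combination (fderiv ℝ Φ (e z) (1, 0)).2 ^ 2 * hε)
  refine ⟨α, β, fun x y => ?_, fun x => ?_⟩
  · have h3 := h1 ⟨x, y⟩
    have h4 : G ⟨x, y⟩ = c (Φ (x, y)) := rfl
    rw [h4] at h3
    have h5 := congrArg Complex.re h3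
    have h6 := congrArg Complex.im h3
    rw [hcr, Complex.add_re, Complex.mul_re] at h5
    rw [hci, Complex.add_im, Complex.mul_im] at h6
    refine ⟨h5, ?_⟩
    simp only at h6
    have h7 : (Φ (x, y)).2 = ε * (ε * (Φ (x, y)).2) := by
      linear_combination -(Φ (x, y)).2 * hε
    rw [h7, h6]
    ring
  · have h3 := h2 ⟨x.1, x.2⟩
    rw [hG1] at h3
    have h4 : e ⟨x.1, x.2⟩ = x := rfl
    rw [h4] at h3
    rw [← h3, hcr, hci]
    linear_combination -(fderiv ℝ Φ x (1, 0)).2 ^ 2 * hε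

end Conf

open Conf in
theorem liouville_form {Λ : AddSubgroup (ℝ × ℝ)} {f : ℝ × ℝ → ℝ} (hΛ : IsLattice Λ)
    (hf : IsMetric Λ f) (h : LiouvilleType Λ f) :
    ∃ (a b : ℝ) (g₁ g₂ : ℝ → ℝ), (a ≠ 0 ∨ b ≠ 0) ∧ ContDiff ℝ ∞ g₁ ∧ ContDiff ℝ ∞ g₂ ∧
      ∀ x y, f (x, y) = g₁ (a * x + b * y) + g₂ (-b * x + a * y) := by
  obtain ⟨Λ', g₁, g₂, hΛ', hg₁, hg₂, hg, Φ, Ψ, hΦ, hΨ, hΨΦ, hΦΨ, hper, hiso⟩ := h
  set g : ℝ × ℝ → ℝ := fun x => g₁ x.1 + g₂ x.2 with hgdef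
  obtain ⟨hfs, hfp, hfper⟩ := hf
  obtain ⟨hgs, hgp, hgper⟩ := hg
  -- bounds
  obtain ⟨M, hM⟩ : ∃ M : ℝ, ∀ x, f x ≤ M := by
    obtain ⟨K, hK, hKn, hKx⟩ := exists_compact hΛ
    obtain ⟨x0, -, hx0⟩ := hK.exists_isMaxOn hKn hfs.continuous.continuousOn
    refine ⟨f x0, fun x => ?_⟩
    obtain ⟨l, hl, hxl⟩ := hKx x
    rw [← hfper l hl x]
    exact hx0 hxl
  obtain ⟨m, hm0, hm⟩ : ∃ m : ℝ, 0 < m ∧ ∀ x, m ≤ g x := by
    obtain ⟨K, hK, hKn, hKx⟩ := exists_compact hΛ'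
    obtain ⟨x0, -, hx0⟩ := hK.exists_isMinOn hKn hgs.continuous.continuousOn
    refine ⟨g x0, hgp x0, fun x => ?_⟩
    obtain ⟨l, hl, hxl⟩ := hKx x
    rw [← hgper l hl x]
    exact hx0 hxl
  have hM0 : 0 < M := lt_of_lt_of_le (hfp 0) (hM 0)
  -- partial derivatives
  set P : ℝ × ℝ → ℝ × ℝ := fun x => fderiv ℝ Φ x (1, 0) with hP
  set Q : ℝ × ℝ → ℝ × ℝ := fun x => fderiv ℝ Φ x (0, 1) with hQ
  set μ : ℝ × ℝ → ℝ := fun x => f x / g (Φ x) with hμ
  have hμ0 : ∀ x, 0 < μ x := fun x => div_pos (hfp x) (hgp _)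
  have hμM : ∀ x, μ x ≤ M / m := by
    intro x
    rw [hμ]
    exact div_le_div₀ hM0.le (hM x) hm0 (hm _)
  have hlin : ∀ x (s t : ℝ), fderiv ℝ Φ x (s, t) = s • P x + t • Q x := by
    intro x s t
    have : ((s, t) : ℝ × ℝ) = s • ((1, 0) : ℝ × ℝ) + t • ((0, 1) : ℝ × ℝ) := by
      ext <;> simp
    rw [this, map_add, map_smul, map_smul]
  have hsim : ∀ x (s t : ℝ), (s * (P x).1 + t * (Q x).1) ^ 2 +
      (s * (P x).2 + t * (Q x).2) ^ 2 = μ x * (s ^ 2 + t ^ 2) := by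
    intro x s t
    have h1 := hiso x (s, t)
    rw [hlin] at h1
    simp only [nsq, Prod.fst_add, Prod.snd_add, Prod.smul_fst, Prod.smul_snd, smul_eq_mul] at h1
    have hgx : g (Φ x) ≠ 0 := (hgp _).ne'
    rw [hμ]
    simp only
    rw [div_mul_eq_mul_div, eq_div_iff hgx, ← h1]
    ring
  have hPc : Continuous P := (hΦ.continuous_fderiv (by simp)).clm_apply continuous_const
  have hQc : Continuous Q := (hΦ.continuous_fderiv (by simp)).clm_apply continuous_const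
  have hdet : ∀ x, ((P x).1 * (Q x).2 - (P x).2 * (Q x).1) ^ 2 = μ x ^ 2 := fun x =>
    (similarity (hsim x)).2.2.2
  have hdetc : Continuous fun x => (P x).1 * (Q x).2 - (P x).2 * (Q x).1 := by fun_prop
  have hdet0 : ∀ x, (P x).1 * (Q x).2 - (P x).2 * (Q x).1 ≠ 0 := by
    intro x h0
    have := hdet x
    rw [h0] at this
    have h2 := hμ0 x
    nlinarith
  -- constant sign
  have hsign : (∀ x, 0 < (P x).1 * (Q x).2 - (P x).2 * (Q x).1) ∨
      (∀ x, (P x).1 * (Q x).2 - (P x).2 * (Q x).1 < 0) := by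
    by_contra hcon
    push Not at hcon
    obtain ⟨⟨x, hx⟩, ⟨y, hy⟩⟩ := hcon
    have hpre : IsPreconnected (Set.univ : Set (ℝ × ℝ)) := isPreconnected_univ
    have := hpre.intermediate_value (Set.mem_univ x) (Set.mem_univ y) hdetc.continuousOn
    obtain ⟨z, -, hz⟩ := this ⟨hx, hy⟩
    exact hdet0 z hz
  -- Cauchy-Riemann
  have hCR : ∀ x, 0 < (P x).1 * (Q x).2 - (P x).2 * (Q x).1 →
      (Q x).1 = -(P x).2 ∧ (Q x).2 = (P x).1 := by
    intro x hx
    obtain ⟨h1, h2, h3, h4⟩ := similarity (hsim x)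
    have h5 : (P x).1 * (Q x).2 - (P x).2 * (Q x).1 = μ x := by
      have h6 := hμ0 x
      nlinarith [sq_nonneg ((P x).1 * (Q x).2 - (P x).2 * (Q x).1 - μ x)]
    have h7 : ((Q x).1 + (P x).2) ^ 2 + ((Q x).2 - (P x).1) ^ 2 = 0 := by nlinarith
    constructor <;> nlinarith [sq_nonneg ((Q x).1 + (P x).2), sq_nonneg ((Q x).2 - (P x).1)]
  have hCR' : ∀ x, (P x).1 * (Q x).2 - (P x).2 * (Q x).1 < 0 →
      (Q x).1 = (P x).2 ∧ (Q x).2 = -(P x).1 := by
    intro x hx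
    obtain ⟨h1, h2, h3, h4⟩ := similarity (hsim x)
    have h5 : (P x).1 * (Q x).2 - (P x).2 * (Q x).1 = -μ x := by
      have h6 := hμ0 x
      nlinarith [sq_nonneg ((P x).1 * (Q x).2 - (P x).2 * (Q x).1 + μ x)]
    have h7 : ((Q x).1 - (P x).2) ^ 2 + ((Q x).2 + (P x).1) ^ 2 = 0 := by nlinarith
    constructor <;> nlinarith [sq_nonneg ((Q x).1 - (P x).2), sq_nonneg ((Q x).2 + (P x).1)]
  -- the affine form
  obtain ⟨ε, α, β, hε, hform, hnorm⟩ : ∃ (ε : ℝ) (α β : ℂ), ε * ε = 1 ∧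
      (∀ x y, (Φ (x, y)).1 = α.re * x - α.im * y + β.re ∧
        (Φ (x, y)).2 = ε * (α.im * x + α.re * y + β.im)) ∧
      ∀ x, (P x).1 ^ 2 + (P x).2 ^ 2 = α.re ^ 2 + α.im ^ 2 := by
    have hbd : ∀ x, (P x).1 ^ 2 + (P x).2 ^ 2 ≤ M / m := fun x => by
      rw [(similarity (hsim x)).2.1]
      exact hμM x
    rcases hsign with hs | hs
    · obtain ⟨α, β, h1, h2⟩ := core (hΦ.differentiable (by simp)) (ε := 1) (by norm_num)
        (fun x => by
          obtain ⟨h1, h2⟩ := hCR x (hs x)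
          exact ⟨by rw [one_mul]; exact h1, by rw [one_mul]; exact h2⟩) hbd
      exact ⟨1, α, β, by norm_num, h1, h2⟩
    · obtain ⟨α, β, h1, h2⟩ := core (hΦ.differentiable (by simp)) (ε := -1) (by norm_num)
        (fun x => by
          obtain ⟨h1, h2⟩ := hCR' x (hs x)
          refine ⟨?_, ?_⟩
          · rw [neg_one_mul, neg_neg]
            exact h1
          · rw [neg_one_mul]
            exact h2) hbd
      exact ⟨-1, α, β, by norm_num, h1, h2⟩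
  have hα : 0 < α.re ^ 2 + α.im ^ 2 := by
    rw [← hnorm 0, (similarity (hsim 0)).2.1]
    exact hμ0 0
  refine ⟨α.re, -α.im, fun t => (α.re ^ 2 + α.im ^ 2) * g₁ (t + β.re),
    fun t => (α.re ^ 2 + α.im ^ 2) * g₂ (ε * (t + β.im)), ?_, ?_, ?_, ?_⟩
  · by_contra hcon
    push Not at hcon
    obtain ⟨h1, h2⟩ := hcon
    rw [neg_eq_zero] at h2
    rw [h1, h2] at hα
    norm_num at hα
  · exact contDiff_const.mul (hg₁.comp (contDiff_id.add contDiff_const))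
  · exact contDiff_const.mul (hg₂.comp (contDiff_const.mul (contDiff_id.add contDiff_const)))
  · intro x y
    have h1 : f (x, y) = μ (x, y) * g (Φ (x, y)) := by
      rw [hμ]
      simp only
      rw [div_mul_cancel₀ _ (hgp _).ne']
    rw [h1, ← (similarity (hsim (x, y))).2.1, hnorm, hgdef]
    simp only
    obtain ⟨h2, h3⟩ := hform x y
    rw [h2, h3, mul_add]
    congr 3
    · ring
    · ring_nf

end Pool.Agent.TorusInt
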