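import Pool.Agent.TorusInt.Statement

/-!
# Integrable geodesic flows on the two-torus (MP_238ae6_gt): definition of the example
-/

set_option autoImplicit false

open scoped ContDiff

namespace Pool.Agent.TorusInt

/-! ## The example -/

/-- the lattice of the example -/
noncomputable def Λ₀ : AddSubgroup (ℝ × ℝ) :=
  AddSubgroup.closure {((3 / 2 : ℝ), (0 : ℝ)), ((0 : ℝ), 2 * Real.pi)}

/-- conditions on the auxiliary function `C` (equal to `± cosh` up to translation in a band) -/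
structure CData (C : ℝ → ℝ) : Prop where
  smooth : ContDiff ℝ ∞ C
  per : ∀ x, C (x + 3 / 2) = C x
  bound : ∀ x, |C x / 10 - 1| ≤ 3 / 5
  band1 : ∀ x, |C x / 10 - 1| < 4 / 25 → deriv C x ^ 2 = C x ^ 2 - 1
  band2 : ∀ x, |C x / 10 - 1| < 4 / 25 → deriv (deriv C) x = C x
  ex0 : ∃ x, C x = 10
  ex1 : ∃ x, 4 / 25 < |C x / 10 - 1|

/-- conditions on the auxiliary functions `Y` and `kap` -/
structure YData (Y kap : ℝ → ℝ) : Prop where
  smoothY : ContDiff ℝ ∞ Y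
  smoothk : ContDiff ℝ ∞ kap
  kap0 : ∀ t, 1 / 400 ≤ t → kap t = 0
  small : ∀ r, |r - 1| ≤ 1 / 20 → |Y r| ≤ 1 / 20
  out : ∀ r, 1 / 20 ≤ |r - 1| → Y r = r - 1
  ne0 : Y 1 ≠ 0
  ode : ∀ r, 0 < r → deriv Y r * (1 / (1 + Y r) + Y r * kap (Y r ^ 2)) = 1 / r

/-- conditions on the auxiliary function `D` -/
structure DData (kap : ℝ → ℝ) (D : ℝ × ℝ → ℝ) : Prop where
  smooth : ContDiff ℝ ∞ D
  pde : ∀ u p, p * fderiv ℝ D (u, p) (1, 0) - u * fderiv ℝ D (u, p) (0, 1) = -u * kap (u ^ 2)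
  zero : ∀ u p, 1 / 400 ≤ u ^ 2 → D (u, p) = 0

section
variable (C Y kap : ℝ → ℝ) (D : ℝ × ℝ → ℝ)

/-- `ρ = |z|` where `z = (1 + cosh ζ)/10` -/
noncomputable def rho (x : ℝ × ℝ) : ℝ := (C x.1 + Real.cos x.2) / 10

/-- the conformal factor of the example -/
noncomputable def fac (x : ℝ × ℝ) : ℝ :=
  (C x.1 - Real.cos x.2) / 10 * ((1 - Y (rho C x) ^ 2) / rho C x)

/-- `E = |p|²/f`, twice the Hamiltonian -/
noncomputable def En (z : (ℝ × ℝ) × (ℝ × ℝ)) : ℝ := nsq z.2 / fac C Y z.1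

/-- the angular momentum -/
noncomputable def Lz (z : (ℝ × ℝ) × (ℝ × ℝ)) : ℝ :=
  (deriv C z.1.1 * z.2.2 + Real.sin z.1.2 * z.2.1) / (C z.1.1 - Real.cos z.1.2)

/-- the radial momentum -/
noncomputable def Wz (z : (ℝ × ℝ) × (ℝ × ℝ)) : ℝ :=
  (deriv C z.1.1 * z.2.1 - Real.sin z.1.2 * z.2.2) / (C z.1.1 - Real.cos z.1.2)

/-- `cos φ` -/
noncomputable def ca (x : ℝ × ℝ) : ℝ := (1 + C x.1 * Real.cos x.2) / (C x.1 + Real.cos x.2)

/-- `sin φ` -/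
noncomputable def sa (x : ℝ × ℝ) : ℝ := deriv C x.1 * Real.sin x.2 / (C x.1 + Real.cos x.2)

/-- the phase correction -/
noncomputable def Th (z : (ℝ × ℝ) × (ℝ × ℝ)) : ℝ :=
  Lz C z / Real.sqrt (En C Y z) * D (Y (rho C z.1), Wz C z / Real.sqrt (En C Y z))

/-- real part of `B = E - (L² - i L W)/(1 + U)` -/
noncomputable def Br (z : (ℝ × ℝ) × (ℝ × ℝ)) : ℝ :=
  En C Y z - Lz C z ^ 2 / (1 + Y (rho C z.1))

/-- imaginary part of `B` -/
noncomputable def Bi (z : (ℝ × ℝ) × (ℝ × ℝ)) : ℝ :=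
  Lz C z * Wz C z / (1 + Y (rho C z.1))

/-- real part of `e^{iφ} e^{iΘ} B` -/
noncomputable def Zr (z : (ℝ × ℝ) × (ℝ × ℝ)) : ℝ :=
  (ca C z.1 * Real.cos (Th C Y D z) - sa C z.1 * Real.sin (Th C Y D z)) * Br C Y z -
    (sa C z.1 * Real.cos (Th C Y D z) + ca C z.1 * Real.sin (Th C Y D z)) * Bi C Y z

/-- imaginary part of `e^{iφ} e^{iΘ} B` -/
noncomputable def Zi (z : (ℝ × ℝ) × (ℝ × ℝ)) : ℝ :=
  (ca C z.1 * Real.cos (Th C Y D z) - sa C z.1 * Real.sin (Th C Y D z)) * Bi C Y z +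
    (sa C z.1 * Real.cos (Th C Y D z) + ca C z.1 * Real.sin (Th C Y D z)) * Br C Y z

/-- the first integral in the annulus -/
noncomputable def Fin' (z : (ℝ × ℝ) × (ℝ × ℝ)) : ℝ := Lz C z ^ 2 + 1 / 5 * Zr C Y D z

/-- the first integral outside the annulus -/
noncomputable def Fout (z : (ℝ × ℝ) × (ℝ × ℝ)) : ℝ :=
  En C Y z / 100 - z.2.1 ^ 2 + En C Y z * (1 - (1 - C z.1.1 / 10) ^ 2)

open Classical in
/-- the first integral -/
noncomputable def Fint (z : (ℝ × ℝ) × (ℝ × ℝ)) : ℝ :=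
  if |rho C z.1 - 1| < 3 / 50 then Fin' C Y D z else Fout C Y z

/-- the Hamiltonian vector field multiplied by `f` -/
noncomputable def vH (z : (ℝ × ℝ) × (ℝ × ℝ)) : (ℝ × ℝ) × (ℝ × ℝ) :=
  (z.2, (En C Y z / 2 * fderiv ℝ (fac C Y) z.1 (1, 0), En C Y z / 2 * fderiv ℝ (fac C Y) z.1 (0, 1)))

/-- the direction of rotation in the annulus -/
noncomputable def vR (z : (ℝ × ℝ) × (ℝ × ℝ)) : (ℝ × ℝ) × (ℝ × ℝ) :=
  ((Real.sin z.1.2 / (C z.1.1 - Real.cos z.1.2), deriv C z.1.1 / (C z.1.1 - Real.cos z.1.2)),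
    ((z.2.1 * deriv C z.1.1 * Real.sin z.1.2 + z.2.2 * (C z.1.1 * Real.cos z.1.2 - 1)) /
        (C z.1.1 - Real.cos z.1.2) ^ 2,
      (z.2.2 * deriv C z.1.1 * Real.sin z.1.2 - z.2.1 * (C z.1.1 * Real.cos z.1.2 - 1)) /
        (C z.1.1 - Real.cos z.1.2) ^ 2))

end

end Pool.Agent.TorusInt
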