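import Pool.Agent.TorusInt.Defs

/-! Module Dfun (doc section 1 (D)): the auxiliary function `D`. -/

set_option autoImplicit false

open scoped ContDiff

namespace Pool.Agent.TorusInt

namespace Dfun

section Param

variable {E : Type} [NormedAddCommGroup E] [NormedSpace ℝ E] [ProperSpace E]

/-- the integrand of the derivative of a parametric integral -/
noncomputable def dphi {F : Type} [NormedAddCommGroup F] [NormedSpace ℝ F] (φ : E × ℝ → F) :
    E × ℝ → (E →L[ℝ] F) :=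
  fun z => (fderiv ℝ φ z).comp (ContinuousLinearMap.inl ℝ E ℝ)

lemma dphi_contDiff {F : Type} [NormedAddCommGroup F] [NormedSpace ℝ F] {φ : E × ℝ → F}
    (hφ : ContDiff ℝ ∞ φ) : ContDiff ℝ ∞ (dphi φ) := by
  have h1 : ContDiff ℝ ∞ (fderiv ℝ φ) := (contDiff_infty_iff_fderiv.1 hφ).2
  exact h1.clm_comp contDiff_const

lemma hasFDerivAt_param {F : Type} [NormedAddCommGroup F] [NormedSpace ℝ F] [CompleteSpace F]
    {φ : E × ℝ → F} (hφ : ContDiff ℝ ∞ φ) (x : E) :
    HasFDerivAt (fun x : E => ∫ t in (0 : ℝ)..1, φ (x, t))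
      (∫ t in (0 : ℝ)..1, dphi φ (x, t)) x := by
  have hdc : Continuous (dphi φ) := (dphi_contDiff hφ).continuous
  obtain ⟨C, hC⟩ := ((isCompact_closedBall x 1).prod
    (isCompact_Icc (a := (0 : ℝ)) (b := 1))).exists_bound_of_continuousOn hdc.continuousOn
  refine intervalIntegral.hasFDerivAt_integral_of_dominated_of_fderiv_le
    (F := fun y t => φ (y, t)) (F' := fun y t => dphi φ (y, t)) (bound := fun _ => C)
    (Metric.closedBall_mem_nhds x one_pos) ?_ ?_ ?_ ?_ ?_ ?_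
  · refine Filter.Eventually.of_forall fun y => ?_
    exact (hφ.continuous.comp (Continuous.prodMk_right y)).aestronglyMeasurable
  · exact (hφ.continuous.comp (Continuous.prodMk_right x)).intervalIntegrable _ _
  · exact (hdc.comp (Continuous.prodMk_right x)).aestronglyMeasurable
  · refine Filter.Eventually.of_forall fun t ht y hy => ?_
    rw [Set.uIoc_of_le zero_le_one] at ht
    exact hC (y, t) ⟨hy, ht.1.le, ht.2⟩
  · exact intervalIntegrable_const
  · refine Filter.Eventually.of_forall fun t _ y _ => ?_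
    have h1 : HasFDerivAt φ (fderiv ℝ φ (y, t)) (y, t) :=
      (hφ.differentiable (by simp) (y, t)).hasFDerivAt
    have h2 : HasFDerivAt (fun y : E => (y, t)) (ContinuousLinearMap.inl ℝ E ℝ) y :=
      hasFDerivAt_prodMk_left y t
    exact h1.comp y h2

lemma contDiff_param_nat (n : ℕ) : ∀ {F : Type} [NormedAddCommGroup F] [NormedSpace ℝ F]
    [CompleteSpace F] {φ : E × ℝ → F} (_ : ContDiff ℝ ∞ φ),
    ContDiff ℝ n (fun x : E => ∫ t in (0 : ℝ)..1, φ (x, t)) := by
  induction n with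
  | zero =>
    intro F _ _ _ φ hφ
    rw [Nat.cast_zero, contDiff_zero]
    exact intervalIntegral.continuous_parametric_intervalIntegral_of_continuous'
      (f := fun x t => φ (x, t)) hφ.continuous 0 1
  | succ n ih =>
    intro F _ _ _ φ hφ
    rw [Nat.cast_succ, contDiff_succ_iff_hasFDerivAt]
    exact ⟨_, ih (dphi_contDiff hφ), fun x => hasFDerivAt_param hφ x⟩

lemma contDiff_param {F : Type} [NormedAddCommGroup F] [NormedSpace ℝ F]
    [CompleteSpace F] {φ : E × ℝ → F} (hφ : ContDiff ℝ ∞ φ) :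
    ContDiff ℝ ∞ (fun x : E => ∫ t in (0 : ℝ)..1, φ (x, t)) :=
  contDiff_infty.2 fun n => contDiff_param_nat n hφ

end Param

section Kap

variable {kap : ℝ → ℝ}

/-- the integrand -/
noncomputable def phi (kap : ℝ → ℝ) (z : (ℝ × ℝ) × ℝ) : ℝ :=
  kap (z.1.1 ^ 2 + z.1.2 ^ 2 * (1 - z.2 ^ 2))

lemma phi_contDiff (hk : ContDiff ℝ ∞ kap) : ContDiff ℝ ∞ (phi kap) := by
  unfold phi
  fun_prop

lemma dphi_phi (hk : ContDiff ℝ ∞ kap) (u p t a b : ℝ) :
    dphi (phi kap) ((u, p), t) (a, b) =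
      deriv kap (u ^ 2 + p ^ 2 * (1 - t ^ 2)) * (2 * u * a + 2 * p * b * (1 - t ^ 2)) := by
  have h1 : DifferentiableAt ℝ (phi kap) ((u, p), t) :=
    (phi_contDiff hk).differentiable (by simp) _
  -- the derivative along a line
  have h2 : HasDerivAt (fun s : ℝ => phi kap ((u + s * a, p + s * b), t))
      (fderiv ℝ (phi kap) ((u, p), t) ((a, b), 0)) 0 := by
    have h3 : HasDerivAt (fun s : ℝ => (((u + s * a, p + s * b), t) : (ℝ × ℝ) × ℝ))
        ((a, b), 0) 0 := by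
      have e1 : HasDerivAt (fun s : ℝ => u + s * a) a 0 := by
        simpa using ((hasDerivAt_id (0 : ℝ)).mul_const a).const_add u
      have e2 : HasDerivAt (fun s : ℝ => p + s * b) b 0 := by
        simpa using ((hasDerivAt_id (0 : ℝ)).mul_const b).const_add p
      exact (e1.prodMk e2).prodMk (hasDerivAt_const _ _)
    have h4 : HasFDerivAt (phi kap) (fderiv ℝ (phi kap) ((u, p), t))
        (((u + 0 * a, p + 0 * b), t) : (ℝ × ℝ) × ℝ) := by
      simpa using h1.hasFDerivAt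
    exact h4.comp_hasDerivAt (0 : ℝ) h3
  have h5 : HasDerivAt (fun s : ℝ => phi kap ((u + s * a, p + s * b), t))
      (deriv kap (u ^ 2 + p ^ 2 * (1 - t ^ 2)) * (2 * u * a + 2 * p * b * (1 - t ^ 2))) 0 := by
    have e1 : HasDerivAt (fun s : ℝ => u + s * a) a 0 := by
      simpa using ((hasDerivAt_id (0 : ℝ)).mul_const a).const_add u
    have e2 : HasDerivAt (fun s : ℝ => p + s * b) b 0 := by
      simpa using ((hasDerivAt_id (0 : ℝ)).mul_const b).const_add p
    have e3 : HasDerivAt (fun s : ℝ => (u + s * a) ^ 2 + (p + s * b) ^ 2 * (1 - t ^ 2))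
        (2 * u * a + 2 * p * b * (1 - t ^ 2)) 0 := by
      have := (e1.fun_pow 2).fun_add ((e2.fun_pow 2).mul_const (1 - t ^ 2))
      simpa using this
    have e4 : HasDerivAt kap (deriv kap (u ^ 2 + p ^ 2 * (1 - t ^ 2)))
        ((u + 0 * a) ^ 2 + (p + 0 * b) ^ 2 * (1 - t ^ 2)) := by
      have := (hk.differentiable (by simp) (u ^ 2 + p ^ 2 * (1 - t ^ 2))).hasDerivAt
      simpa using this
    exact e4.comp (0 : ℝ) e3
  have h6 := h2.unique h5
  rw [← h6]
  simp [dphi]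

/-- the integral -/
noncomputable def II (kap : ℝ → ℝ) (z : ℝ × ℝ) : ℝ := ∫ t in (0 : ℝ)..1, phi kap (z, t)

lemma II_contDiff (hk : ContDiff ℝ ∞ kap) : ContDiff ℝ ∞ (II kap) :=
  contDiff_param (phi_contDiff hk)

lemma fderiv_II (hk : ContDiff ℝ ∞ kap) (u p a b : ℝ) :
    fderiv ℝ (II kap) (u, p) (a, b) = ∫ t in (0 : ℝ)..1,
      deriv kap (u ^ 2 + p ^ 2 * (1 - t ^ 2)) * (2 * u * a + 2 * p * b * (1 - t ^ 2)) := by
  have h1 := (hasFDerivAt_param (phi_contDiff hk) (u, p)).fderiv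
  have h2 : fderiv ℝ (II kap) (u, p) = ∫ t in (0 : ℝ)..1, dphi (phi kap) ((u, p), t) := h1
  rw [h2, ContinuousLinearMap.intervalIntegral_apply]
  · exact intervalIntegral.integral_congr fun t _ => dphi_phi hk u p t a b
  · exact ((dphi_contDiff (phi_contDiff hk)).continuous.comp
      (Continuous.prodMk_right (u, p))).intervalIntegrable _ _

/-- the function `D` -/
noncomputable def DD (kap : ℝ → ℝ) (z : ℝ × ℝ) : ℝ := z.2 * II kap z

lemma DD_contDiff (hk : ContDiff ℝ ∞ kap) : ContDiff ℝ ∞ (DD kap) :=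
  contDiff_snd.mul (II_contDiff hk)

lemma fderiv_DD (hk : ContDiff ℝ ∞ kap) (u p a b : ℝ) :
    fderiv ℝ (DD kap) (u, p) (a, b) =
      p * fderiv ℝ (II kap) (u, p) (a, b) + b * II kap (u, p) := by
  have h1 : DifferentiableAt ℝ (II kap) (u, p) := (II_contDiff hk).differentiable (by simp) _
  have h2 : HasFDerivAt (DD kap) (((u, p) : ℝ × ℝ).2 • fderiv ℝ (II kap) (u, p) +
      II kap (u, p) • ContinuousLinearMap.snd ℝ ℝ ℝ) (u, p) :=
    (hasFDerivAt_snd (𝕜 := ℝ) (p := ((u, p) : ℝ × ℝ))).mul h1.hasFDerivAt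
  rw [h2.fderiv]
  simp
  ring

/-- integration by parts -/
lemma parts (hk : ContDiff ℝ ∞ kap) (u p : ℝ) :
    ∫ t in (0 : ℝ)..1, 2 * p ^ 2 * t ^ 2 * deriv kap (u ^ 2 + p ^ 2 * (1 - t ^ 2)) =
      II kap (u, p) - kap (u ^ 2) := by
  have hkc : Continuous kap := hk.continuous
  have hk'c : Continuous (deriv kap) := hk.continuous_deriv (by simp)
  have hd : ∀ t : ℝ, HasDerivAt (fun t : ℝ => t * kap (u ^ 2 + p ^ 2 * (1 - t ^ 2)))
      (kap (u ^ 2 + p ^ 2 * (1 - t ^ 2)) -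
        2 * p ^ 2 * t ^ 2 * deriv kap (u ^ 2 + p ^ 2 * (1 - t ^ 2))) t := by
    intro t
    have e1 : HasDerivAt (fun t : ℝ => u ^ 2 + p ^ 2 * (1 - t ^ 2)) (-(2 * p ^ 2 * t)) t := by
      have := (((hasDerivAt_id t).fun_pow 2).const_sub 1).const_mul (p ^ 2) |>.const_add (u ^ 2)
      refine this.congr_deriv ?_
      simp only [id, Nat.cast_ofNat, Nat.add_one_sub_one, pow_one, mul_one]
      ring
    have e2 : HasDerivAt kap (deriv kap (u ^ 2 + p ^ 2 * (1 - t ^ 2)))
        (u ^ 2 + p ^ 2 * (1 - t ^ 2)) := (hk.differentiable (by simp) _).hasDerivAt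
    have e3 := (hasDerivAt_id t).fun_mul (e2.comp t e1)
    refine e3.congr_deriv ?_
    simp only [id, Function.comp]
    ring
  have h1 : ∫ t in (0 : ℝ)..1, (kap (u ^ 2 + p ^ 2 * (1 - t ^ 2)) -
        2 * p ^ 2 * t ^ 2 * deriv kap (u ^ 2 + p ^ 2 * (1 - t ^ 2))) =
      1 * kap (u ^ 2 + p ^ 2 * (1 - 1 ^ 2)) - 0 * kap (u ^ 2 + p ^ 2 * (1 - 0 ^ 2)) := by
    refine intervalIntegral.integral_eq_sub_of_hasDerivAt (fun t _ => hd t) ?_
    exact Continuous.intervalIntegrable (by fun_prop) _ _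
  rw [intervalIntegral.integral_sub (Continuous.intervalIntegrable (by fun_prop) _ _)
    (Continuous.intervalIntegrable (by fun_prop) _ _)] at h1
  have h2 : II kap (u, p) = ∫ t in (0 : ℝ)..1, kap (u ^ 2 + p ^ 2 * (1 - t ^ 2)) := rfl
  rw [h2]
  simp at h1
  linarith

lemma abs_II_le {η : ℝ} (hη : ∀ t, |kap t| ≤ η) (u p : ℝ) : |II kap (u, p)| ≤ η := by
  have h := intervalIntegral.norm_integral_le_of_norm_le_const (a := (0 : ℝ)) (b := 1)
    (f := fun t => phi kap ((u, p), t)) (C := η) (fun t _ => hη _)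
  simpa [II] using h

lemma abs_fderiv_II_le (hk : ContDiff ℝ ∞ kap) {η : ℝ} (hη : ∀ t, |deriv kap t| ≤ η)
    (u p : ℝ) : |fderiv ℝ (II kap) (u, p) (0, 1)| ≤ 2 * |p| * η := by
  rw [fderiv_II hk]
  have h := intervalIntegral.norm_integral_le_of_norm_le_const (a := (0 : ℝ)) (b := 1)
    (f := fun t => deriv kap (u ^ 2 + p ^ 2 * (1 - t ^ 2)) *
      (2 * u * 0 + 2 * p * 1 * (1 - t ^ 2))) (C := 2 * |p| * η) (fun t ht => by
      rw [Set.uIoc_of_le zero_le_one] at ht
      have h0 : 0 ≤ η := (abs_nonneg _).trans (hη 0)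
      have h1 : |1 - t ^ 2| ≤ 1 := by
        rw [abs_le]
        constructor <;> nlinarith [ht.1, ht.2]
      have h2 := hη (u ^ 2 + p ^ 2 * (1 - t ^ 2))
      rw [Real.norm_eq_abs, abs_mul]
      have h3 : |2 * u * 0 + 2 * p * 1 * (1 - t ^ 2)| ≤ 2 * |p| := by
        have : 2 * u * 0 + 2 * p * 1 * (1 - t ^ 2) = 2 * (p * (1 - t ^ 2)) := by ring
        rw [this, abs_mul, abs_mul, abs_two]
        have := mul_le_mul_of_nonneg_left h1 (abs_nonneg p)
        linarith
      calc |deriv kap (u ^ 2 + p ^ 2 * (1 - t ^ 2))| * |2 * u * 0 + 2 * p * 1 * (1 - t ^ 2)|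
          ≤ η * (2 * |p|) := mul_le_mul h2 h3 (abs_nonneg _) h0
        _ = 2 * |p| * η := by ring)
  simpa using h

end Kap

end Dfun

theorem exists_D {kap : ℝ → ℝ} (hk : ContDiff ℝ ∞ kap) (h0 : ∀ t, 1 / 400 ≤ t → kap t = 0) :
    ∃ D : ℝ × ℝ → ℝ, DData kap D ∧
      ∀ η : ℝ, (∀ t, |kap t| ≤ η) → (∀ t, |deriv kap t| ≤ η) → ∀ u p : ℝ, |p| ≤ 1 →
        |D (u, p)| ≤ η ∧ |fderiv ℝ D (u, p) (0, 1)| ≤ 3 * η := by
  refine ⟨Dfun.DD kap, ⟨Dfun.DD_contDiff hk, ?_, ?_⟩, ?_⟩
  · intro u p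
    have hk'c : Continuous (deriv kap) := hk.continuous_deriv (by simp)
    rw [Dfun.fderiv_DD hk, Dfun.fderiv_DD hk, Dfun.fderiv_II hk, Dfun.fderiv_II hk]
    have hp := Dfun.parts hk u p
    have e1 : ∫ t in (0 : ℝ)..1, deriv kap (u ^ 2 + p ^ 2 * (1 - t ^ 2)) *
        (2 * u * 1 + 2 * p * 0 * (1 - t ^ 2)) =
        2 * u * ∫ t in (0 : ℝ)..1, deriv kap (u ^ 2 + p ^ 2 * (1 - t ^ 2)) := by
      rw [← intervalIntegral.integral_const_mul]
      exact intervalIntegral.integral_congr fun t _ => by ring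
    have e2 : ∫ t in (0 : ℝ)..1, deriv kap (u ^ 2 + p ^ 2 * (1 - t ^ 2)) *
        (2 * u * 0 + 2 * p * 1 * (1 - t ^ 2)) =
        2 * p * ∫ t in (0 : ℝ)..1, (1 - t ^ 2) * deriv kap (u ^ 2 + p ^ 2 * (1 - t ^ 2)) := by
      rw [← intervalIntegral.integral_const_mul]
      exact intervalIntegral.integral_congr fun t _ => by ring
    have e3 : ∫ t in (0 : ℝ)..1, 2 * p ^ 2 * t ^ 2 * deriv kap (u ^ 2 + p ^ 2 * (1 - t ^ 2)) =
        2 * p ^ 2 * (∫ t in (0 : ℝ)..1, deriv kap (u ^ 2 + p ^ 2 * (1 - t ^ 2))) -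
        2 * p ^ 2 * ∫ t in (0 : ℝ)..1, (1 - t ^ 2) * deriv kap (u ^ 2 + p ^ 2 * (1 - t ^ 2)) := by
      rw [← intervalIntegral.integral_const_mul, ← intervalIntegral.integral_const_mul,
        ← intervalIntegral.integral_sub (Continuous.intervalIntegrable (by fun_prop) _ _)
        (Continuous.intervalIntegrable (by fun_prop) _ _)]
      exact intervalIntegral.integral_congr fun t _ => by ring
    rw [e1, e2]
    rw [e3] at hp
    linear_combination u * hp
  · intro u p hu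
    have h1 : Dfun.II kap (u, p) = 0 := by
      unfold Dfun.II
      rw [intervalIntegral.integral_congr (g := fun _ => (0 : ℝ))]
      · simp
      · intro t ht
        rw [Set.uIcc_of_le zero_le_one] at ht
        unfold Dfun.phi
        apply h0
        have : 0 ≤ 1 - t ^ 2 := by nlinarith [ht.1, ht.2]
        have := mul_nonneg (sq_nonneg p) this
        simp only
        linarith
    show p * Dfun.II kap (u, p) = 0
    rw [h1, mul_zero]
  · intro η hη hη' u p hp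
    have h0 : 0 ≤ η := (abs_nonneg _).trans (hη 0)
    have h1 := Dfun.abs_II_le hη u p
    have h2 := Dfun.abs_fderiv_II_le hk hη' u p
    have hp0 := abs_nonneg p
    constructor
    · show |p * Dfun.II kap (u, p)| ≤ η
      rw [abs_mul]
      calc |p| * |Dfun.II kap (u, p)| ≤ 1 * η := mul_le_mul hp h1 (abs_nonneg _) zero_le_one
        _ = η := one_mul η
    · rw [Dfun.fderiv_DD hk, one_mul]
      have h3 : |p * fderiv ℝ (Dfun.II kap) (u, p) (0, 1)| ≤ 2 * η := by
        rw [abs_mul]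
        calc |p| * |fderiv ℝ (Dfun.II kap) (u, p) (0, 1)| ≤ 1 * (2 * |p| * η) :=
              mul_le_mul hp h2 (abs_nonneg _) zero_le_one
          _ ≤ 2 * η := by nlinarith
      calc |p * fderiv ℝ (Dfun.II kap) (u, p) (0, 1) + Dfun.II kap (u, p)|
          ≤ |p * fderiv ℝ (Dfun.II kap) (u, p) (0, 1)| + |Dfun.II kap (u, p)| := abs_add_le _ _
        _ ≤ 3 * η := by linarith

end Pool.Agent.TorusInt
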