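import Pool.Agent.TorusInt.RegLevels

/-! The example: integrable, foliated by invariant Lagrangian graphs on a nonempty open set, and not
of Liouville type. -/

set_option autoImplicit false

namespace Pool.Agent.TorusInt

/-- the example -/
theorem exists_example : ∃ f : ℝ × ℝ → ℝ, IsMetric Λ₀ f ∧ GloballyIntegrable Λ₀ f ∧
    GraphFoliated Λ₀ f ∧ ¬ LiouvilleType Λ₀ f := by
  obtain ⟨C, hC⟩ := exists_C
  obtain ⟨Y, kap, hY, hk, hk'⟩ := exists_Y (η := 1 / 100) (by norm_num)
  obtain ⟨D, hD, hDb⟩ := exists_D hY.smoothk hY.kap0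
  refine ⟨fac C Y, fac_isMetric hC hY, globallyIntegrable hC hY hD,
    graphFoliated hC hY hD ?_, not_liouvilleType hC hY⟩
  intro u p hp
  have := hDb _ hk hk' u p hp
  refine ⟨this.1, this.2.trans (by norm_num)⟩

end Pool.Agent.TorusInt
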