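import Pool.Agent.TorusInt.GraphDefs

/-! Module GraphAbs: a criterion for a region to be foliated by invariant Lagrangian graphs. -/

set_option autoImplicit false

open scoped ContDiff

namespace Pool.Agent.TorusInt

namespace GraphAbs

open Real

theorem nsq_pos {p : ℝ × ℝ} (hp : p ≠ 0) : 0 < nsq p := by
  unfold nsq
  by_contra h
  have h1 : p.1 ^ 2 = 0 := by nlinarith [sq_nonneg p.1, sq_nonneg p.2]
  have h2 : p.2 ^ 2 = 0 := by nlinarith [sq_nonneg p.1, sq_nonneg p.2]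
  exact hp (Prod.ext (by simpa using h1) (by simpa using h2))

theorem nsq_cov {f : ℝ × ℝ → ℝ} (hf : ∀ x, 0 < f x) (x : ℝ × ℝ) (t : ℝ) :
    nsq (cov f x t) = f x := by
  have h1 : Real.sqrt (f x) ^ 2 = f x := Real.sq_sqrt (hf x).le
  have h2 := Real.sin_sq_add_cos_sq t
  unfold nsq cov
  simp only
  rw [mul_pow, mul_pow, h1]
  linear_combination (f x) * h2

theorem cov_ne {f : ℝ × ℝ → ℝ} (hf : ∀ x, 0 < f x) (x : ℝ × ℝ) (t : ℝ) : cov f x t ≠ 0 := by
  intro h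
  have h1 := nsq_cov hf x t
  rw [h] at h1
  have h2 := hf x
  unfold nsq at h1
  simp only [Prod.fst_zero, Prod.snd_zero] at h1
  linarith

theorem nsq_smul (s : ℝ) (p : ℝ × ℝ) : nsq (s • p) = s ^ 2 * nsq p := by
  unfold nsq
  simp only [Prod.smul_fst, Prod.smul_snd, smul_eq_mul]
  ring

/-- polar coordinates in the first quadrant -/
theorem polar {f : ℝ × ℝ → ℝ} (hf : ∀ x, 0 < f x) (x p : ℝ × ℝ) (h1 : 0 < p.1) (h2 : 0 < p.2) :
    ∃ t, 0 < t ∧ t < π / 2 ∧ p = Real.sqrt (nsq p / f x) • cov f x t := by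
  let z : ℂ := ⟨p.1, p.2⟩
  have hz1 : ‖z‖ * Real.cos z.arg = p.1 := Complex.norm_mul_cos_arg z
  have hz2 : ‖z‖ * Real.sin z.arg = p.2 := Complex.norm_mul_sin_arg z
  have hn : ‖z‖ = Real.sqrt (nsq p) := by
    rw [Complex.norm_def, Complex.normSq_apply]
    congr 1
    unfold nsq
    simp only [z]
    ring
  have h3 : |z.arg| < π / 2 := Complex.abs_arg_lt_pi_div_two_iff.2 (Or.inl h1)
  have h4 : 0 ≤ z.arg := Complex.arg_nonneg_iff.2 h2.le
  have h5 : z.arg ≠ 0 := by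
    intro h
    rw [h, Real.sin_zero, mul_zero] at hz2
    linarith
  refine ⟨z.arg, lt_of_le_of_ne h4 (Ne.symm h5), (abs_lt.1 h3).2, ?_⟩
  have h6 : Real.sqrt (nsq p / f x) * Real.sqrt (f x) = Real.sqrt (nsq p) := by
    rw [← Real.sqrt_mul' _ (hf x).le, div_mul_cancel₀ _ (hf x).ne']
  refine Prod.ext ?_ ?_
  · simp only [cov, Prod.smul_fst, smul_eq_mul]
    rw [← mul_assoc, h6, ← hn, hz1]
  · simp only [cov, Prod.smul_snd, smul_eq_mul]
    rw [← mul_assoc, h6, ← hn, hz2]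

theorem cov_pos {f : ℝ × ℝ → ℝ} (hf : ∀ x, 0 < f x) (x : ℝ × ℝ) {t : ℝ} (h0 : 0 < t)
    (h1 : t < π / 2) : 0 < (cov f x t).1 ∧ 0 < (cov f x t).2 := by
  have h2 := Real.sqrt_pos.2 (hf x)
  exact ⟨mul_pos h2 (Real.cos_pos_of_mem_Ioo ⟨by linarith [Real.pi_pos], h1⟩),
    mul_pos h2 (Real.sin_pos_of_pos_of_lt_pi h0 (by linarith [Real.pi_pos]))⟩

theorem lt_left {g : ℝ → ℝ} {c x : ℝ} (hc : 0 < c) (h : HasDerivAt g c x) {l : ℝ} (hl : l < x) :
    ∃ y, l < y ∧ y < x ∧ g y < g x := by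
  have h1 : ∀ᶠ y in nhdsWithin x (Set.Iio x), 0 < slope g x y :=
    (h.tendsto_slope.eventually (lt_mem_nhds hc)).filter_mono
      (nhdsWithin_mono _ fun y hy => ne_of_lt hy)
  have h2 : ∀ᶠ y in nhdsWithin x (Set.Iio x), y ∈ Set.Ioo l x := Ioo_mem_nhdsLT hl
  obtain ⟨y, h3, h4⟩ := (h1.and h2).exists
  refine ⟨y, h4.1, h4.2, ?_⟩
  rw [slope_def_field, div_pos_iff] at h3
  rcases h3 with h3 | h3
  · linarith [h4.2, h3.2]
  · linarith [h3.1]

/-- at most one solution -/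
theorem unique_aux {g : ℝ → ℝ} {l : ℝ} (hg : ∀ t, DifferentiableAt ℝ g t)
    (hm : ∀ t, 0 < t → t < π / 2 → g t = l → ∃ c : ℝ, 0 < c ∧ HasDerivAt g c t)
    {t₁ t₂ : ℝ} (h1 : 0 < t₁) (h2 : t₁ < t₂) (h3 : t₂ < π / 2) (e1 : g t₁ = l)
    (e2 : g t₂ = l) : False := by
  have key : ∀ ⦃x : ℝ⦄, x ∈ Set.Icc t₁ t₂ → l ≤ g x := by
    refine image_le_of_deriv_right_lt_deriv_boundary' (f := fun _ => l) (f' := fun _ => 0)
      (B := g) (B' := deriv g) continuousOn_const ?_ e1.ge ?_ ?_ ?_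
    · intro x _
      exact hasDerivWithinAt_const _ _ _
    · intro x _
      exact (hg x).continuousAt.continuousWithinAt
    · intro x _
      exact (hg x).hasDerivAt.hasDerivWithinAt
    · intro x hx he
      obtain ⟨c, hc, hd⟩ := hm x (lt_of_lt_of_le h1 hx.1) (lt_trans hx.2 h3) he.symm
      rw [hd.deriv]
      exact hc
  obtain ⟨c, hc, hd⟩ := hm t₂ (h1.trans h2) h3 e2
  obtain ⟨y, hy1, hy2, hy3⟩ := lt_left hc hd h2
  have := key ⟨hy1.le, hy2.le⟩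
  linarith

theorem unique {g : ℝ → ℝ} {l : ℝ} (hg : ∀ t, DifferentiableAt ℝ g t)
    (hm : ∀ t, 0 < t → t < π / 2 → g t = l → ∃ c : ℝ, 0 < c ∧ HasDerivAt g c t)
    {t₁ t₂ : ℝ} (h1 : 0 < t₁) (h2 : t₁ < π / 2) (h1' : 0 < t₂) (h2' : t₂ < π / 2)
    (e1 : g t₁ = l) (e2 : g t₂ = l) : t₁ = t₂ := by
  rcases lt_trichotomy t₁ t₂ with h | h | h
  · exact (unique_aux hg hm h1 h h2' e1 e2).elim
  · exact h
  · exact (unique_aux hg hm h1' h h2 e2 e1).elim

theorem exists_sol {g : ℝ → ℝ} {a b l : ℝ} (hg : ∀ t, DifferentiableAt ℝ g t)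
    (h0 : g 0 ≤ a) (h1 : b ≤ g (π / 2)) (ha : a < l) (hb : l < b) :
    ∃ t, 0 < t ∧ t < π / 2 ∧ g t = l := by
  have hc : ContinuousOn g (Set.Icc 0 (π / 2)) := fun t _ => (hg t).continuousAt.continuousWithinAt
  obtain ⟨t, ht, he⟩ := intermediate_value_Icc (by positivity : (0 : ℝ) ≤ π / 2) hc
    (⟨by linarith, by linarith⟩ : l ∈ Set.Icc (g 0) (g (π / 2)))
  refine ⟨t, lt_of_le_of_ne ht.1 ?_, lt_of_le_of_ne ht.2 ?_, he⟩
  · rintro rfl
    linarith
  · rintro rfl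
    linarith

theorem contDiff_cov {f : ℝ × ℝ → ℝ} (hf : ContDiff ℝ ∞ f) (hp : ∀ x, 0 < f x) :
    ContDiff ℝ ∞ (fun u : (ℝ × ℝ) × ℝ => cov f u.1 u.2) := by
  have h1 : ContDiff ℝ ∞ (fun u : (ℝ × ℝ) × ℝ => Real.sqrt (f u.1)) :=
    (hf.comp contDiff_fst).sqrt fun u => (hp u.1).ne'
  exact (h1.mul (Real.contDiff_cos.comp contDiff_snd)).prodMk
    (h1.mul (Real.contDiff_sin.comp contDiff_snd))

theorem contDiffAt_F {F : (ℝ × ℝ) × (ℝ × ℝ) → ℝ} (hF : ContDiffOn ℝ ∞ F {z | z.2 ≠ 0})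
    {z : (ℝ × ℝ) × (ℝ × ℝ)} (hz : z.2 ≠ 0) : ContDiffAt ℝ ∞ F z := by
  apply hF.contDiffAt
  have : IsOpen {z : (ℝ × ℝ) × (ℝ × ℝ) | z.2 ≠ 0} := isOpen_ne.preimage continuous_snd
  exact this.mem_nhds hz

theorem contDiff_G {f : ℝ × ℝ → ℝ} (hf : ContDiff ℝ ∞ f) (hp : ∀ x, 0 < f x)
    {F : (ℝ × ℝ) × (ℝ × ℝ) → ℝ} (hF : ContDiffOn ℝ ∞ F {z | z.2 ≠ 0}) :
    ContDiff ℝ ∞ (fun u : (ℝ × ℝ) × ℝ => F (u.1, cov f u.1 u.2)) := by
  rw [contDiff_iff_contDiffAt]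
  intro u
  have h1 : ContDiffAt ℝ ∞ F (u.1, cov f u.1 u.2) := contDiffAt_F hF (cov_ne hp _ _)
  exact ContDiffAt.comp (g := F) (f := fun u : (ℝ × ℝ) × ℝ => (u.1, cov f u.1 u.2)) u h1
    (contDiff_fst.prodMk (contDiff_cov hf hp)).contDiffAt

theorem contDiff_Ham {f : ℝ × ℝ → ℝ} (hf : ContDiff ℝ ∞ f) (hp : ∀ x, 0 < f x) :
    ContDiff ℝ ∞ (Ham f) := by
  unfold Ham nsq
  refine ContDiff.div ?_ ?_ ?_
  · exact ((contDiff_fst.comp contDiff_snd).pow 2).add ((contDiff_snd.comp contDiff_snd).pow 2)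
  · exact contDiff_const.mul (hf.comp contDiff_fst)
  · intro z
    have := hp z.1
    positivity

theorem Ham_fst {f : ℝ × ℝ → ℝ} (hf : ContDiff ℝ ∞ f) (hp : ∀ x, 0 < f x)
    (z : (ℝ × ℝ) × (ℝ × ℝ)) : fderiv ℝ (Ham f) z (0, (1, 0)) = z.2.1 / f z.1 := by
  have h1 : HasFDerivAt (Ham f) (fderiv ℝ (Ham f) z) z :=
    ((contDiff_Ham hf hp).differentiable (by simp) z).hasFDerivAt
  have h2 : HasDerivAt (fun t : ℝ => (z.1, (z.2.1 + t, z.2.2)))
      ((0, (1, 0)) : (ℝ × ℝ) × (ℝ × ℝ)) 0 :=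
    (hasDerivAt_const _ _).prodMk (((hasDerivAt_id _).const_add _).prodMk (hasDerivAt_const _ _))
  have h1' : HasFDerivAt (Ham f) (fderiv ℝ (Ham f) z) (z.1, (z.2.1 + 0, z.2.2)) := by
    simpa using h1
  have h3 := h1'.comp_hasDerivAt (0 : ℝ) h2
  have h4 : HasDerivAt (fun t : ℝ => ((z.2.1 + t) ^ 2 + z.2.2 ^ 2) / (2 * f z.1))
      ((2 * (z.2.1 + 0)) / (2 * f z.1)) 0 := by
    have h5 : HasDerivAt (fun t : ℝ => z.2.1 + t) 1 0 := (hasDerivAt_id _).const_add _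
    have h6 := ((h5.pow 2).add_const (z.2.2 ^ 2)).div_const (2 * f z.1)
    refine h6.congr_deriv ?_
    simp
  have h7 : (Ham f ∘ fun t : ℝ => (z.1, (z.2.1 + t, z.2.2))) =
      fun t : ℝ => ((z.2.1 + t) ^ 2 + z.2.2 ^ 2) / (2 * f z.1) := rfl
  rw [h7] at h3
  rw [h3.unique h4]
  have := (hp z.1).ne'
  field_simp
  ring

theorem Ham_snd {f : ℝ × ℝ → ℝ} (hf : ContDiff ℝ ∞ f) (hp : ∀ x, 0 < f x)
    (z : (ℝ × ℝ) × (ℝ × ℝ)) : fderiv ℝ (Ham f) z (0, (0, 1)) = z.2.2 / f z.1 := by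
  have h1 : HasFDerivAt (Ham f) (fderiv ℝ (Ham f) z) z :=
    ((contDiff_Ham hf hp).differentiable (by simp) z).hasFDerivAt
  have h2 : HasDerivAt (fun t : ℝ => (z.1, (z.2.1, z.2.2 + t)))
      ((0, (0, 1)) : (ℝ × ℝ) × (ℝ × ℝ)) 0 :=
    (hasDerivAt_const _ _).prodMk ((hasDerivAt_const _ _).prodMk ((hasDerivAt_id _).const_add _))
  have h1' : HasFDerivAt (Ham f) (fderiv ℝ (Ham f) z) (z.1, (z.2.1, z.2.2 + 0)) := by
    simpa using h1
  have h3 := h1'.comp_hasDerivAt (0 : ℝ) h2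
  have h4 : HasDerivAt (fun t : ℝ => (z.2.1 ^ 2 + (z.2.2 + t) ^ 2) / (2 * f z.1))
      ((2 * (z.2.2 + 0)) / (2 * f z.1)) 0 := by
    have h5 : HasDerivAt (fun t : ℝ => z.2.2 + t) 1 0 := (hasDerivAt_id _).const_add _
    have h6 := ((h5.pow 2).const_add (z.2.1 ^ 2)).div_const (2 * f z.1)
    refine h6.congr_deriv ?_
    simp
  have h7 : (Ham f ∘ fun t : ℝ => (z.1, (z.2.1, z.2.2 + t))) =
      fun t : ℝ => (z.2.1 ^ 2 + (z.2.2 + t) ^ 2) / (2 * f z.1) := rfl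
  rw [h7] at h3
  rw [h3.unique h4]
  have := (hp z.1).ne'
  field_simp
  ring

/-- expansion of a linear functional -/
theorem expand (L : ((ℝ × ℝ) × (ℝ × ℝ)) →L[ℝ] ℝ) (u v r s : ℝ) :
    L ((u, v), (r, s)) = u * L ((1, 0), 0) + v * L ((0, 1), 0) + r * L (0, (1, 0)) +
      s * L (0, (0, 1)) := by
  have h : (((u, v), (r, s)) : (ℝ × ℝ) × (ℝ × ℝ)) =
      u • ((1, 0), 0) + v • ((0, 1), 0) + r • (0, (1, 0)) + s • (0, (0, 1)) := by
    simp
  rw [h]
  simp only [map_add, map_smul, smul_eq_mul]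

/-- the determinant of the fibre derivatives -/
theorem det_pos {f : ℝ × ℝ → ℝ} (hf : ContDiff ℝ ∞ f) (hp : ∀ x, 0 < f x)
    {F : (ℝ × ℝ) × (ℝ × ℝ) → ℝ} (hF : ContDiffOn ℝ ∞ F {z | z.2 ≠ 0})
    (hhom : ∀ x p (t : ℝ), 0 < t → F (x, t • p) = t ^ 2 * F (x, p))
    {x : ℝ × ℝ} {t c s : ℝ} (hs : 0 < s) (hc : 0 < c)
    (hd : HasDerivAt (fun t : ℝ => F (x, cov f x t)) c t) :
    0 < fderiv ℝ F (x, s • cov f x t) (0, (0, 1)) *
          fderiv ℝ (Ham f) (x, s • cov f x t) (0, (1, 0)) -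
        fderiv ℝ F (x, s • cov f x t) (0, (1, 0)) *
          fderiv ℝ (Ham f) (x, s • cov f x t) (0, (0, 1)) := by
  have hne : (x, s • cov f x t).2 ≠ 0 := smul_ne_zero hs.ne' (cov_ne hp x t)
  have h1 : HasFDerivAt F (fderiv ℝ F (x, s • cov f x t)) (x, s • cov f x t) :=
    ((contDiffAt_F hF hne).differentiableAt (by simp)).hasFDerivAt
  have h2 : HasDerivAt (fun t : ℝ => (x, s • cov f x t))
      (((0, 0), (-(s • cov f x t).2, (s • cov f x t).1)) : (ℝ × ℝ) × (ℝ × ℝ)) t := by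
    have h3 : HasDerivAt (fun t : ℝ => s * (Real.sqrt (f x) * Real.cos t))
        (-(s • cov f x t).2) t := by
      refine (((Real.hasDerivAt_cos t).const_mul (Real.sqrt (f x))).const_mul s).congr_deriv ?_
      simp only [cov, Prod.smul_snd, smul_eq_mul]
      ring
    have h4 : HasDerivAt (fun t : ℝ => s * (Real.sqrt (f x) * Real.sin t))
        ((s • cov f x t).1) t :=
      ((Real.hasDerivAt_sin t).const_mul (Real.sqrt (f x))).const_mul s
    exact (hasDerivAt_const t x).prodMk (h3.prodMk h4)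
  have h5 := h1.comp_hasDerivAt t h2
  have h6 : (F ∘ fun t : ℝ => (x, s • cov f x t)) = fun t => s ^ 2 * F (x, cov f x t) := by
    funext t
    exact hhom x _ s hs
  rw [h6] at h5
  have h7 := h5.unique (hd.const_mul (s ^ 2))
  rw [expand] at h7
  rw [Ham_fst hf hp, Ham_snd hf hp]
  simp only [zero_mul, zero_add] at h7
  have h8 : 0 < s ^ 2 * c := by positivity
  have hfx := hp x
  have h9 : fderiv ℝ F (x, s • cov f x t) (0, (0, 1)) * ((s • cov f x t).1 / f x) -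
      fderiv ℝ F (x, s • cov f x t) (0, (1, 0)) * ((s • cov f x t).2 / f x) = s ^ 2 * c / f x := by
    rw [← h7]
    ring
  simp only
  rw [h9]
  positivity

theorem indep {F H : (ℝ × ℝ) × (ℝ × ℝ) → ℝ} {z : (ℝ × ℝ) × (ℝ × ℝ)}
    (h : fderiv ℝ F z (0, (0, 1)) * fderiv ℝ H z (0, (1, 0)) -
        fderiv ℝ F z (0, (1, 0)) * fderiv ℝ H z (0, (0, 1)) ≠ 0) :
    LinearIndependent ℝ ![fderiv ℝ F z, fderiv ℝ H z] := by
  rw [LinearIndependent.pair_iff]
  intro s t hst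
  have h1 := congrArg (fun L : ((ℝ × ℝ) × (ℝ × ℝ)) →L[ℝ] ℝ => L (0, (1, 0))) hst
  have h2 := congrArg (fun L : ((ℝ × ℝ) × (ℝ × ℝ)) →L[ℝ] ℝ => L (0, (0, 1))) hst
  simp only [add_apply, smul_apply, smul_eq_mul, zero_apply] at h1 h2
  constructor
  · have h3 : s * (fderiv ℝ F z (0, (0, 1)) * fderiv ℝ H z (0, (1, 0)) -
        fderiv ℝ F z (0, (1, 0)) * fderiv ℝ H z (0, (0, 1))) = 0 := by
      linear_combination fderiv ℝ H z (0, (1, 0)) * h2 - fderiv ℝ H z (0, (0, 1)) * h1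
    exact (mul_eq_zero.1 h3).resolve_right h
  · have h3 : t * (fderiv ℝ F z (0, (0, 1)) * fderiv ℝ H z (0, (1, 0)) -
        fderiv ℝ F z (0, (1, 0)) * fderiv ℝ H z (0, (0, 1))) = 0 := by
      linear_combination fderiv ℝ F z (0, (0, 1)) * h1 - fderiv ℝ F z (0, (1, 0)) * h2
    exact (mul_eq_zero.1 h3).resolve_right h

/-- the solution is smooth -/
theorem contDiff_sol {G : (ℝ × ℝ) × ℝ → ℝ} (hG : ContDiff ℝ ∞ G) {l : ℝ}
    (hm : ∀ x t, 0 < t → t < π / 2 → G (x, t) = l →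
      ∃ c : ℝ, 0 < c ∧ HasDerivAt (fun t => G (x, t)) c t)
    {θ : ℝ × ℝ → ℝ} (hθ : ∀ x, 0 < θ x ∧ θ x < π / 2 ∧ G (x, θ x) = l) :
    ContDiff ℝ ∞ θ := by
  rw [contDiff_iff_contDiffAt]
  intro x₀
  have hdiff : ∀ x t, DifferentiableAt ℝ (fun t => G (x, t)) t := fun x t =>
    DifferentiableAt.comp (g := G) (f := fun t : ℝ => (x, t)) t
      (hG.differentiable (by simp) _) ((differentiableAt_const _).prodMk differentiableAt_id)
  obtain ⟨c, hc, hd⟩ := hm x₀ (θ x₀) (hθ x₀).1 (hθ x₀).2.1 (hθ x₀).2.2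
  have cdf : ContDiffAt ℝ ∞ G (x₀, θ x₀) := hG.contDiffAt
  have h1 : fderiv ℝ G (x₀, θ x₀) (0, 1) = c := by
    have h2 : HasFDerivAt G (fderiv ℝ G (x₀, θ x₀)) (x₀, θ x₀) :=
      (hG.differentiable (by simp) _).hasFDerivAt
    have h3 : HasDerivAt (fun t : ℝ => (x₀, t)) ((0, 1) : (ℝ × ℝ) × ℝ) (θ x₀) :=
      (hasDerivAt_const _ _).prodMk (hasDerivAt_id _)
    exact (h2.comp_hasDerivAt _ h3).unique hd
  have if₂ : (fderiv ℝ G (x₀, θ x₀) ∘L .inr ℝ (ℝ × ℝ) ℝ).IsInvertible := by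
    refine ⟨ContinuousLinearEquiv.unitsEquivAut ℝ (Units.mk0 c hc.ne'), ?_⟩
    ext
    simp [h1]
  have e0 := cdf.implicitFunction_apply_self (by simp) if₂
  have e1 := cdf.eventually_apply_implicitFunction (by simp) if₂
  have e2 := cdf.contDiffAt_implicitFunction (by simp) if₂
  set ψ := cdf.implicitFunction (by simp) if₂ with hψ
  simp only at e0 e1 e2
  have hcont : ContinuousAt ψ x₀ := e2.continuousAt
  have e3 : ∀ᶠ x in nhds x₀, 0 < ψ x := by
    apply hcont.eventually_const_lt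
    rw [e0]
    exact (hθ x₀).1
  have e4 : ∀ᶠ x in nhds x₀, ψ x < π / 2 := by
    apply hcont.eventually_lt_const
    rw [e0]
    exact (hθ x₀).2.1
  refine e2.congr_of_eventuallyEq ?_
  filter_upwards [e1, e3, e4] with x g1 g3 g4
  refine unique (g := fun t => G (x, t)) (l := l) (hdiff x) (hm x) (hθ x).1 (hθ x).2.1 g3 g4
    (hθ x).2.2 ?_
  rw [g1]
  exact (hθ x₀).2.2

/-- the graph is Lagrangian -/
theorem closed {F H : (ℝ × ℝ) × (ℝ × ℝ) → ℝ} {α : ℝ × ℝ → ℝ × ℝ} {x : ℝ × ℝ}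
    (hα : DifferentiableAt ℝ α x) (hF : DifferentiableAt ℝ F (x, α x))
    (hH : DifferentiableAt ℝ H (x, α x)) {A B : ℝ} (h1 : ∀ x, F (x, α x) = A)
    (h2 : ∀ x, H (x, α x) = B) (hpb : pb F H (x, α x) = 0)
    (h : fderiv ℝ F (x, α x) (0, (0, 1)) * fderiv ℝ H (x, α x) (0, (1, 0)) -
        fderiv ℝ F (x, α x) (0, (1, 0)) * fderiv ℝ H (x, α x) (0, (0, 1)) ≠ 0) :
    (fderiv ℝ α x (0, 1)).1 = (fderiv ℝ α x (1, 0)).2 := by
  have h3 : HasFDerivAt (fun x => (x, α x))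
      ((ContinuousLinearMap.id ℝ (ℝ × ℝ)).prod (fderiv ℝ α x)) x :=
    (hasFDerivAt_id x).prodMk hα.hasFDerivAt
  have key : ∀ (K : (ℝ × ℝ) × (ℝ × ℝ) → ℝ) (k : ℝ), DifferentiableAt ℝ K (x, α x) →
      (∀ x, K (x, α x) = k) → ∀ v, fderiv ℝ K (x, α x) (v, fderiv ℝ α x v) = 0 := by
    intro K k hK hk v
    have h4 := HasFDerivAt.comp (g := K) (f := fun x => (x, α x)) x hK.hasFDerivAt h3
    have h5 : (K ∘ fun x => (x, α x)) = fun _ => k := funext hk
    rw [h5] at h4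
    have h6 := h4.unique (hasFDerivAt_const k x)
    have h7 := congrArg (fun L : (ℝ × ℝ) →L[ℝ] ℝ => L v) h6
    simpa using h7
  have a1 := key F A hF h1 (1, 0)
  have a2 := key F A hF h1 (0, 1)
  have b1 := key H B hH h2 (1, 0)
  have b2 := key H B hH h2 (0, 1)
  have e1 : fderiv ℝ α x (1, 0) = ((fderiv ℝ α x (1, 0)).1, (fderiv ℝ α x (1, 0)).2) := rfl
  have e2 : fderiv ℝ α x (0, 1) = ((fderiv ℝ α x (0, 1)).1, (fderiv ℝ α x (0, 1)).2) := rfl
  rw [e1, expand] at a1 b1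
  rw [e2, expand] at a2 b2
  unfold pb at hpb
  set Fx := fderiv ℝ F (x, α x) ((1, 0), 0)
  set Fy := fderiv ℝ F (x, α x) ((0, 1), 0)
  set Fp := fderiv ℝ F (x, α x) (0, (1, 0))
  set Fq := fderiv ℝ F (x, α x) (0, (0, 1))
  set Hx := fderiv ℝ H (x, α x) ((1, 0), 0)
  set Hy := fderiv ℝ H (x, α x) ((0, 1), 0)
  set Hp := fderiv ℝ H (x, α x) (0, (1, 0))
  set Hq := fderiv ℝ H (x, α x) (0, (0, 1))
  set u1 := (fderiv ℝ α x (1, 0)).1
  set v1 := (fderiv ℝ α x (1, 0)).2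
  set u2 := (fderiv ℝ α x (0, 1)).1
  set v2 := (fderiv ℝ α x (0, 1)).2
  have h4 : (u2 - v1) * (Fq * Hp - Fp * Hq) = 0 := by
    linear_combination hpb + (-Hp) * a1 + Fp * b1 + (-Hq) * a2 + Fq * b2
  have h5 := (mul_eq_zero.1 h4).resolve_right h
  linarith

/-- conservation along trajectories -/
theorem conserved {f : ℝ × ℝ → ℝ} {F : (ℝ × ℝ) × (ℝ × ℝ) → ℝ} {γ : ℝ → (ℝ × ℝ) × (ℝ × ℝ)}
    {I : Set ℝ} (hI : IsOpen I) (hI' : IsPreconnected I)
    (hγ : IsTrajectory f I γ) (hF : ∀ t ∈ I, DifferentiableAt ℝ F (γ t))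
    (hpb : ∀ t ∈ I, pb F (Ham f) (γ t) = 0) {t t' : ℝ} (ht : t ∈ I) (ht' : t' ∈ I) :
    F (γ t) = F (γ t') := by
  have h1 : ∀ t ∈ I, HasDerivAt (fun t => F (γ t)) 0 t := by
    intro t ht
    have h2 := (hF t ht).hasFDerivAt.comp_hasDerivAt t (hγ t ht)
    rw [expand] at h2
    refine h2.congr_deriv ?_
    have h3 := hpb t ht
    unfold pb at h3
    linear_combination h3
  exact hI.is_const_of_deriv_eq_zero (f := fun t => F (γ t)) hI'
    (fun t ht => (h1 t ht).differentiableAt.differentiableWithinAt)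
    (fun t ht => (h1 t ht).deriv) ht ht'

end GraphAbs

open GraphAbs in
theorem graphFoliated_of {Λ : AddSubgroup (ℝ × ℝ)} {f : ℝ × ℝ → ℝ} (hf : IsMetric Λ f)
    {F : (ℝ × ℝ) × (ℝ × ℝ) → ℝ}
    (hF : ContDiffOn ℝ ∞ F {z | z.2 ≠ 0})
    (hper : ∀ l ∈ Λ, ∀ x p, F (x + l, p) = F (x, p))
    (hpb : ∀ z, z.2 ≠ 0 → pb F (Ham f) z = 0)
    (hhom : ∀ x p (t : ℝ), 0 < t → F (x, t • p) = t ^ 2 * F (x, p))
    {a b : ℝ} (hab : a < b)
    (h0 : ∀ x, F (x, cov f x 0) ≤ a) (h1 : ∀ x, b ≤ F (x, cov f x (Real.pi / 2)))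
    (hmono : ∀ x θ, 0 < θ → θ < Real.pi / 2 → a < F (x, cov f x θ) → F (x, cov f x θ) < b →
      ∃ c : ℝ, 0 < c ∧ HasDerivAt (fun t : ℝ => F (x, cov f x t)) c θ) :
    GraphFoliated Λ f := by
  obtain ⟨hfs, hfp, hfper⟩ := hf
  have hGs := contDiff_G hfs hfp hF
  have hGd : ∀ x t, DifferentiableAt ℝ (fun t => F (x, cov f x t)) t := fun x t =>
    DifferentiableAt.comp (g := fun u : (ℝ × ℝ) × ℝ => F (u.1, cov f u.1 u.2))
      (f := fun t : ℝ => (x, t)) t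
      (hGs.differentiable (by simp) _) ((differentiableAt_const _).prodMk differentiableAt_id)
  have hHs := contDiff_Ham hfs hfp
  have hHd : ∀ z, DifferentiableAt ℝ (Ham f) z := fun z => hHs.differentiable (by simp) z
  have hFd : ∀ z : (ℝ × ℝ) × (ℝ × ℝ), z.2 ≠ 0 → DifferentiableAt ℝ F z := fun z hz =>
    (contDiffAt_F hF hz).differentiableAt (by simp)
  -- values of `F` in polar coordinates
  have hFval : ∀ (x : ℝ × ℝ) (t s : ℝ), 0 < s → F (x, s • cov f x t) = s ^ 2 * F (x, cov f x t) :=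
    fun x t s hs => hhom x _ s hs
  have hEval : ∀ (x : ℝ × ℝ) (t s : ℝ), nsq (s • cov f x t) / f x = s ^ 2 := by
    intro x t s
    rw [nsq_smul, nsq_cov hfp, mul_div_assoc, div_self (hfp x).ne', mul_one]
  have hHam : ∀ z, Ham f z = (nsq z.2 / f z.1) / 2 := by
    intro z
    unfold Ham
    rw [div_div, mul_comm]
  -- the solutions
  have hm' : ∀ l, a < l → l < b → ∀ x t, 0 < t → t < Real.pi / 2 → F (x, cov f x t) = l →
      ∃ c : ℝ, 0 < c ∧ HasDerivAt (fun t => F (x, cov f x t)) c t := by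
    intro l hal hlb x t ht0 ht1 he
    exact hmono x t ht0 ht1 (by rw [he]; exact hal) (by rw [he]; exact hlb)
  have hex : ∀ l, a < l → l < b → ∃ θ : ℝ × ℝ → ℝ,
      ∀ x, 0 < θ x ∧ θ x < Real.pi / 2 ∧ F (x, cov f x (θ x)) = l := by
    intro l hal hlb
    have : ∀ x, ∃ t, 0 < t ∧ t < Real.pi / 2 ∧ F (x, cov f x t) = l := fun x =>
      exists_sol (g := fun t => F (x, cov f x t)) (hGd x) (h0 x) (h1 x) hal hlb
    choose θ hθ using this
    exact ⟨θ, hθ⟩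
  let U : Set ((ℝ × ℝ) × (ℝ × ℝ)) := {z | 0 < z.2.1 ∧ 0 < z.2.2 ∧
    a * (nsq z.2 / f z.1) < F z ∧ F z < b * (nsq z.2 / f z.1)}
  have hUne : ∀ z ∈ U, z.2 ≠ 0 := by
    intro z hz h
    have := hz.1
    rw [h] at this
    simp at this
  -- polar coordinates on `U`
  have hUpol : ∀ z ∈ U, ∃ s t, 0 < s ∧ 0 < t ∧ t < Real.pi / 2 ∧ z = (z.1, s • cov f z.1 t) ∧
      a < F (z.1, cov f z.1 t) ∧ F (z.1, cov f z.1 t) < b ∧ s ^ 2 = nsq z.2 / f z.1 ∧
      s = Real.sqrt (nsq z.2 / f z.1) := by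
    rintro ⟨x, p⟩ ⟨hp1, hp2, h3, h4⟩
    simp only at hp1 hp2 h3 h4
    obtain ⟨t, ht0, ht1, hpe⟩ := polar hfp x p hp1 hp2
    have hne : p ≠ 0 := by
      rintro rfl
      simp at hp1
    have hE : 0 < nsq p / f x := div_pos (nsq_pos hne) (hfp x)
    have hs : 0 < Real.sqrt (nsq p / f x) := Real.sqrt_pos.2 hE
    have hs2 : Real.sqrt (nsq p / f x) ^ 2 = nsq p / f x := Real.sq_sqrt hE.le
    have hFp : F (x, p) = (nsq p / f x) * F (x, cov f x t) := by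
      have h5 := hFval x t _ hs
      rw [← hpe, hs2] at h5
      exact h5
    rw [hFp] at h3 h4
    refine ⟨Real.sqrt (nsq p / f x), t, hs, ht0, ht1, ?_, ?_, ?_, hs2, rfl⟩
    · simp only
      rw [← hpe]
    · rw [mul_comm] at h3
      exact lt_of_mul_lt_mul_left h3 hE.le
    · rw [mul_comm b] at h4
      exact lt_of_mul_lt_mul_left h4 hE.le
  have hUmem : ∀ (x : ℝ × ℝ) (t s : ℝ), 0 < s → 0 < t → t < Real.pi / 2 → a < F (x, cov f x t) →
      F (x, cov f x t) < b → (x, s • cov f x t) ∈ U := by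
    intro x t s hs ht0 ht1 h3 h4
    obtain ⟨h5, h6⟩ := cov_pos hfp x ht0 ht1
    refine ⟨mul_pos hs h5, mul_pos hs h6, ?_, ?_⟩
    · simp only
      rw [hEval, hFval x t s hs, mul_comm]
      exact mul_lt_mul_of_pos_left h3 (by positivity)
    · simp only
      rw [hEval, hFval x t s hs, mul_comm b]
      exact mul_lt_mul_of_pos_left h4 (by positivity)
  have hdet : ∀ z ∈ U, fderiv ℝ F z (0, (0, 1)) * fderiv ℝ (Ham f) z (0, (1, 0)) -
        fderiv ℝ F z (0, (1, 0)) * fderiv ℝ (Ham f) z (0, (0, 1)) ≠ 0 := by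
    intro z hz
    obtain ⟨s, t, hs, ht0, ht1, hze, h3, h4, _, _⟩ := hUpol z hz
    obtain ⟨c, hc, hd⟩ := hmono z.1 t ht0 ht1 h3 h4
    have := det_pos hfs hfp hF hhom hs hc hd
    rw [← hze] at this
    exact this.ne'
  have hUopen : IsOpen U := by
    have hO : IsOpen {z : (ℝ × ℝ) × (ℝ × ℝ) | 0 < z.2.1 ∧ 0 < z.2.2} :=
      (isOpen_lt continuous_const (continuous_fst.comp continuous_snd)).inter
        (isOpen_lt continuous_const (continuous_snd.comp continuous_snd))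
    have hE : Continuous fun z : (ℝ × ℝ) × (ℝ × ℝ) => nsq z.2 / f z.1 := by
      refine Continuous.div ?_ (hfs.continuous.comp continuous_fst) fun z => (hfp z.1).ne'
      unfold nsq
      fun_prop
    have hFc : ContinuousOn F {z : (ℝ × ℝ) × (ℝ × ℝ) | 0 < z.2.1 ∧ 0 < z.2.2} := by
      refine hF.continuousOn.mono ?_
      intro z hz h
      have := hz.1
      rw [h] at this
      simp at this
    have hpair : ContinuousOn (fun z : (ℝ × ℝ) × (ℝ × ℝ) =>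
        ((F z - a * (nsq z.2 / f z.1), b * (nsq z.2 / f z.1) - F z) : ℝ × ℝ))
        {z : (ℝ × ℝ) × (ℝ × ℝ) | 0 < z.2.1 ∧ 0 < z.2.2} :=
      (hFc.sub (continuous_const.mul hE).continuousOn).prodMk
        ((continuous_const.mul hE).continuousOn.sub hFc)
    have h3 := hpair.isOpen_inter_preimage hO
      ((isOpen_Ioi (a := (0 : ℝ))).prod (isOpen_Ioi (a := (0 : ℝ))))
    have h4 : U = {z : (ℝ × ℝ) × (ℝ × ℝ) | 0 < z.2.1 ∧ 0 < z.2.2} ∩
        (fun z : (ℝ × ℝ) × (ℝ × ℝ) =>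
          ((F z - a * (nsq z.2 / f z.1), b * (nsq z.2 / f z.1) - F z) : ℝ × ℝ)) ⁻¹'
          (Set.Ioi (0 : ℝ) ×ˢ Set.Ioi (0 : ℝ)) := by
      ext z
      simp only [U, Set.mem_ofPred_eq, Set.mem_inter_iff, Set.mem_preimage, Set.mem_prod,
        Set.mem_Ioi, sub_pos, and_assoc]
    rw [h4]
    exact h3
  refine ⟨F, U, hUopen, ?_, ?_, ?_, hper, ?_, ?_⟩
  · obtain ⟨θ, hθ⟩ := hex ((a + b) / 2) (by linarith) (by linarith)
    obtain ⟨h3, h4, h5⟩ := hθ 0
    exact ⟨_, hUmem 0 (θ 0) 1 one_pos h3 h4 (by rw [h5]; linarith) (by rw [h5]; linarith)⟩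
  · intro l hl x p
    simp only [U, Set.mem_ofPred_eq, hfper l hl x, hper l hl x p]
  · exact fun z hz => (contDiffAt_F hF (hUne z hz)).contDiffWithinAt
  · exact fun z hz => indep (hdet z hz)
  · intro z hz
    obtain ⟨s, t, hs, ht0, ht1, hze, h3, h4, hs2, _⟩ := hUpol z hz
    obtain ⟨θ, hθ⟩ := hex _ h3 h4
    set l := F (z.1, cov f z.1 t) with hl
    have hθs : ContDiff ℝ ∞ θ := contDiff_sol
      (G := fun u : (ℝ × ℝ) × ℝ => F (u.1, cov f u.1 u.2)) hGs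
      (fun x t h5 h6 h7 => hm' l h3 h4 x t h5 h6 h7) hθ
    have hFz : F z = s ^ 2 * l := by
      rw [hze]
      exact hFval _ _ _ hs
    have hHz : Ham f z = s ^ 2 / 2 := by
      rw [hHam, hs2]
    have hαs : ContDiff ℝ ∞ (fun x => s • cov f x (θ x)) :=
      ContDiff.const_smul s ((contDiff_cov hfs hfp).comp (contDiff_id.prodMk hθs))
    have hαF : ∀ x, F (x, s • cov f x (θ x)) = F z := by
      intro x
      rw [hFval _ _ _ hs, (hθ x).2.2, hFz]
    have hαH : ∀ x, Ham f (x, s • cov f x (θ x)) = Ham f z := by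
      intro x
      rw [hHam]
      simp only
      rw [hEval, hHz]
    have hαU : ∀ x, (x, s • cov f x (θ x)) ∈ U := by
      intro x
      obtain ⟨h5, h6, h7⟩ := hθ x
      exact hUmem x (θ x) s hs h5 h6 (by rw [h7]; exact h3) (by rw [h7]; exact h4)
    have hiff : ∀ w, w ∈ U ∧ F w = F z ∧ Ham f w = Ham f z ↔
        w.2 = (fun x => s • cov f x (θ x)) w.1 := by
      intro w
      constructor
      · rintro ⟨hw, hw1, hw2⟩
        obtain ⟨s', t', hs', ht0', ht1', hwe, h3', h4', hs2', _⟩ := hUpol w hw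
        have e1 : s' ^ 2 = s ^ 2 := by
          rw [hHam, hHz, ← hs2'] at hw2
          linarith
        have e2 : s' = s := by
          rw [pow_left_inj₀ hs'.le hs.le (by norm_num)] at e1
          exact e1
        subst e2
        have e3 : F (w.1, cov f w.1 t') = l := by
          have h5 := hFval w.1 t' s' hs'
          rw [← hwe, hw1, hFz] at h5
          exact (mul_left_cancel₀ (by positivity) h5).symm
        have e4 : t' = θ w.1 := unique (g := fun t => F (w.1, cov f w.1 t)) (l := l)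
          (hGd w.1) (fun t h5 h6 h7 => hm' l h3 h4 w.1 t h5 h6 h7) ht0' ht1' (hθ w.1).1
          (hθ w.1).2.1 e3 (hθ w.1).2.2
        subst e4
        rw [hwe]
      · intro hw
        have hwe : w = (w.1, s • cov f w.1 (θ w.1)) := Prod.ext rfl hw
        rw [hwe]
        exact ⟨hαU _, hαF _, hαH _⟩
    refine ⟨fun x => s • cov f x (θ x), ⟨hαs, ?_, ?_, ?_⟩, hiff⟩
    · intro v hv x
      have e1 : ∀ t, cov f (x + v) t = cov f x t := by
        intro t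
        unfold cov
        rw [hfper v hv x]
      have e2 : θ (x + v) = θ x := by
        refine unique (g := fun t => F (x, cov f x t)) (l := l)
          (hGd x) (fun t h5 h6 h7 => hm' l h3 h4 x t h5 h6 h7) (hθ (x + v)).1
          (hθ (x + v)).2.1 (hθ x).1 (hθ x).2.1 ?_ (hθ x).2.2
        have h5 := (hθ (x + v)).2.2
        rw [e1, hper v hv] at h5
        exact h5
      simp only
      rw [e2, e1]
    · intro x
      have hne : (x, s • cov f x (θ x)).2 ≠ 0 := hUne _ (hαU x)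
      exact closed (F := F) (H := Ham f) (hαs.differentiable (by simp) x) (hFd _ hne) (hHd _)
        hαF hαH (hpb _ hne) (hdet _ (hαU x))
    · intro I γ hI hI' hγ t₀ ht₀I ht₀ t' ht'
      have hHpb : ∀ z, pb (Ham f) (Ham f) z = 0 := by
        intro z
        unfold pb
        ring
      have hHc : ∀ t ∈ I, Ham f (γ t) = Ham f z := by
        intro t ht
        rw [conserved hI hI' hγ (fun t _ => hHd _) (fun t _ => hHpb _) ht ht₀I]
        exact ((hiff (γ t₀)).2 ht₀).2.2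
      have hne : ∀ t ∈ I, (γ t).2 ≠ 0 := by
        intro t ht h
        have h5 := hHc t ht
        rw [hHz] at h5
        unfold Ham nsq at h5
        rw [h] at h5
        simp only [Prod.fst_zero, Prod.snd_zero] at h5
        have h6 : 0 < s ^ 2 / 2 := by positivity
        rw [← h5] at h6
        simp at h6
      have hFc : ∀ t ∈ I, F (γ t) = F z := by
        intro t ht
        rw [conserved hI hI' hγ (fun t ht => hFd _ (hne t ht)) (fun t ht => hpb _ (hne t ht)) ht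
          ht₀I]
        exact ((hiff (γ t₀)).2 ht₀).2.1
      have hγc : ContinuousOn γ I := fun t ht => (hγ t ht).continuousAt.continuousWithinAt
      have hS : ∀ t ∈ I, (γ t).2 = s • cov f (γ t).1 (θ (γ t).1) ↔ γ t ∈ U := by
        intro t ht
        constructor
        · intro h
          exact ((hiff (γ t)).2 h).1
        · intro h
          exact (hiff (γ t)).1 ⟨h, hFc t ht, hHc t ht⟩
      have hop : IsOpen (I ∩ γ ⁻¹' U) := hγc.isOpen_inter_preimage hI hUopen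
      have hsub : I ⊆ I ∩ γ ⁻¹' U := by
        refine hI'.subset_of_closure_inter_subset hop ⟨t₀, ht₀I, ht₀I, (hS t₀ ht₀I).1 ht₀⟩ ?_
        rintro t ⟨ht, htI⟩
        refine ⟨htI, (hS t htI).1 ?_⟩
        have hmem : t ∈ closure ({t : ℝ | t ∈ I ∧ (γ t).2 = s • cov f (γ t).1 (θ (γ t).1)}) := by
          refine closure_mono ?_ ht
          rintro r ⟨hr, hr'⟩
          exact ⟨hr, (hS r hr).2 hr'⟩
        have hc1 : ContinuousAt (fun t => (γ t).2) t :=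
          continuous_snd.continuousAt.comp (hγ t htI).continuousAt
        have hc2 : ContinuousAt (fun t => s • cov f (γ t).1 (θ (γ t).1)) t :=
          ContinuousAt.comp (g := fun x => s • cov f x (θ x)) (f := fun t => (γ t).1)
            hαs.continuous.continuousAt
            (continuous_fst.continuousAt.comp (hγ t htI).continuousAt)
        rw [mem_closure_iff_clusterPt] at hmem
        have hne' : Filter.NeBot (nhdsWithin t
            {t : ℝ | t ∈ I ∧ (γ t).2 = s • cov f (γ t).1 (θ (γ t).1)}) := hmem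
        refine tendsto_nhds_unique (l := nhdsWithin t
            {t : ℝ | t ∈ I ∧ (γ t).2 = s • cov f (γ t).1 (θ (γ t).1)})
          (hc1.tendsto.mono_left nhdsWithin_le_nhds) ?_
        refine (hc2.tendsto.mono_left nhdsWithin_le_nhds).congr' ?_
        filter_upwards [self_mem_nhdsWithin] with r hr
        exact hr.2.symm
      exact (hS t' ht').2 (hsub ht').2

end Pool.Agent.TorusInt
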