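import Pool.Agent.TorusInt.Defs

/-! Auxiliary definition for the modules on invariant Lagrangian graphs. -/

set_option autoImplicit false

namespace Pool.Agent.TorusInt

/-- the covector of square norm `f x` in the direction `θ` -/
noncomputable def cov (f : ℝ × ℝ → ℝ) (x : ℝ × ℝ) (θ : ℝ) : ℝ × ℝ :=
  (Real.sqrt (f x) * Real.cos θ, Real.sqrt (f x) * Real.sin θ)

end Pool.Agent.TorusInt
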