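import Pool.Agent.TorusInt.Defs

/-! Module InnerR (doc section 5): derivatives in the direction of rotation. -/

set_option autoImplicit false
set_option linter.unusedSimpArgs false

open scoped ContDiff

namespace Pool.Agent.TorusInt

variable {C Y kap : ℝ → ℝ} {D : ℝ × ℝ → ℝ}

namespace InnerR

theorem comp_line {g : ℝ → ℝ} {x g' : ℝ} (hg : HasDerivAt g g' x) (a : ℝ) :
    HasDerivAt (fun t : ℝ => g (x + t * a)) (g' * a) 0 := by
  have h1 : HasDerivAt (fun t : ℝ => x + t * a) a 0 := by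
    simpa using ((hasDerivAt_id (0 : ℝ)).mul_const a).const_add x
  have h2 : HasDerivAt g g' (x + 0 * a) := by simpa using hg
  exact h2.comp (0 : ℝ) h1

theorem line (x a : ℝ) : HasDerivAt (fun t : ℝ => x + t * a) a 0 := by
  simpa using ((hasDerivAt_id (0 : ℝ)).mul_const a).const_add x

/-- the values in the band -/
theorem band (hC : CData C) {x : ℝ × ℝ} (hz : |rho C x - 1| < 3 / 50) :
    deriv C x.1 ^ 2 = C x.1 ^ 2 - 1 ∧ deriv (deriv C) x.1 = C x.1 ∧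
      0 < C x.1 - Real.cos x.2 ∧ 0 < C x.1 + Real.cos x.2 ∧ 0 < rho C x := by
  have h1 := Real.cos_le_one x.2
  have h2 := Real.neg_one_le_cos x.2
  have h3 := abs_lt.1 hz
  unfold rho at h3
  have h4 : |C x.1 / 10 - 1| < 4 / 25 := by
    rw [abs_lt]
    constructor <;> linarith [h3.1, h3.2]
  refine ⟨hC.band1 _ h4, hC.band2 _ h4, by linarith [h3.1], by linarith [h3.1], ?_⟩
  unfold rho
  linarith [h3.1]

theorem absY (hY : YData Y kap) {r : ℝ} (hr : |r - 1| < 3 / 50) : |Y r| < 3 / 50 := by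
  rcases le_total (|r - 1|) (1 / 20) with h | h
  · have := hY.small r h
    linarith
  · rw [hY.out r h]
    exact hr

theorem Y_bounds (hY : YData Y kap) {r : ℝ} (hr : |r - 1| < 3 / 50) :
    0 < 1 + Y r ∧ 0 < 1 - Y r ^ 2 := by
  have h := abs_lt.1 (absY hY hr)
  refine ⟨by linarith [h.1], ?_⟩
  nlinarith [h.1, h.2]

theorem hC1 (hC : CData C) (x : ℝ) : HasDerivAt C (deriv C x) x :=
  (hC.smooth.differentiable (by simp)).differentiableAt.hasDerivAt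

theorem hC2 (hC : CData C) (x : ℝ) : HasDerivAt (deriv C) (deriv (deriv C) x) x := by
  have h : ContDiff ℝ ∞ (deriv C) := (contDiff_infty_iff_deriv.1 hC.smooth).2
  exact (h.differentiable (by simp)).differentiableAt.hasDerivAt

/-- the basic derivatives along the direction of rotation -/
theorem basic (hC : CData C) {z : (ℝ × ℝ) × (ℝ × ℝ)} (hz : |rho C z.1 - 1| < 3 / 50) :
    HasDerivAt (fun t : ℝ => C (z + t • vR C z).1.1)
      (deriv C z.1.1 * (Real.sin z.1.2 / (C z.1.1 - Real.cos z.1.2))) 0 ∧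
    HasDerivAt (fun t : ℝ => deriv C (z + t • vR C z).1.1)
      (C z.1.1 * (Real.sin z.1.2 / (C z.1.1 - Real.cos z.1.2))) 0 ∧
    HasDerivAt (fun t : ℝ => Real.cos (z + t • vR C z).1.2)
      (-Real.sin z.1.2 * (deriv C z.1.1 / (C z.1.1 - Real.cos z.1.2))) 0 ∧
    HasDerivAt (fun t : ℝ => Real.sin (z + t • vR C z).1.2)
      (Real.cos z.1.2 * (deriv C z.1.1 / (C z.1.1 - Real.cos z.1.2))) 0 ∧
    HasDerivAt (fun t : ℝ => (z + t • vR C z).2.1)
      ((z.2.1 * deriv C z.1.1 * Real.sin z.1.2 + z.2.2 * (C z.1.1 * Real.cos z.1.2 - 1)) /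
        (C z.1.1 - Real.cos z.1.2) ^ 2) 0 ∧
    HasDerivAt (fun t : ℝ => (z + t • vR C z).2.2)
      ((z.2.2 * deriv C z.1.1 * Real.sin z.1.2 - z.2.1 * (C z.1.1 * Real.cos z.1.2 - 1)) /
        (C z.1.1 - Real.cos z.1.2) ^ 2) 0 := by
  have hb := band hC hz
  refine ⟨comp_line (hC1 hC _) _, ?_, comp_line (Real.hasDerivAt_cos _) _,
    comp_line (Real.hasDerivAt_sin _) _, line _ _, line _ _⟩
  have h := comp_line (hC2 hC z.1.1) (Real.sin z.1.2 / (C z.1.1 - Real.cos z.1.2))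
  rw [hb.2.1] at h
  exact h

theorem zero_smul_add (z v : (ℝ × ℝ) × (ℝ × ℝ)) : z + (0 : ℝ) • v = z := by simp

theorem d_rho (hC : CData C) {z : (ℝ × ℝ) × (ℝ × ℝ)} (hz : |rho C z.1 - 1| < 3 / 50) :
    HasDerivAt (fun t : ℝ => rho C (z + t • vR C z).1) 0 0 := by
  obtain ⟨h1, -, h3, -, -, -⟩ := basic hC hz
  have h := (h1.add h3).div_const 10
  refine h.congr_deriv ?_
  ring

theorem d_den (hC : CData C) {z : (ℝ × ℝ) × (ℝ × ℝ)} (hz : |rho C z.1 - 1| < 3 / 50) :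
    HasDerivAt (fun t : ℝ => C (z + t • vR C z).1.1 - Real.cos (z + t • vR C z).1.2)
      (2 * deriv C z.1.1 * Real.sin z.1.2 / (C z.1.1 - Real.cos z.1.2)) 0 := by
  obtain ⟨h1, -, h3, -, -, -⟩ := basic hC hz
  refine (h1.sub h3).congr_deriv ?_
  ring

theorem d_L (hC : CData C) {z : (ℝ × ℝ) × (ℝ × ℝ)} (hz : |rho C z.1 - 1| < 3 / 50) :
    HasDerivAt (fun t : ℝ => Lz C (z + t • vR C z)) 0 0 := by
  obtain ⟨h1, h2, h3, h4, h5, h6⟩ := basic hC hz
  obtain ⟨b1, -, b3, -, -⟩ := band hC hz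
  have hne : C (z + (0 : ℝ) • vR C z).1.1 - Real.cos (z + (0 : ℝ) • vR C z).1.2 ≠ 0 := by
    rw [zero_smul_add]
    exact b3.ne'
  have h := ((h2.mul h6).add (h4.mul h5)).div (d_den hC hz) hne
  refine h.congr_deriv ?_
  simp only [Pi.add_apply, Pi.mul_apply, Pi.sub_apply, Pi.div_apply, Pi.pow_apply, zero_smul_add]
  have hk := Real.sin_sq_add_cos_sq z.1.2
  set c := C z.1.1
  set c1 := deriv C z.1.1
  set k := Real.cos z.1.2
  set s := Real.sin z.1.2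
  set p := z.2.1
  set q := z.2.2
  have hck : c - k ≠ 0 := b3.ne'
  rw [div_eq_zero_iff]
  left
  field_simp
  have hs : s ^ 2 = 1 - k ^ 2 := by linarith
  ring_nf
  simp only [show c1 ^ 3 = c1 * c1 ^ 2 by ring, show s ^ 3 = s * s ^ 2 by ring, b1, hs]
  ring

theorem d_W (hC : CData C) {z : (ℝ × ℝ) × (ℝ × ℝ)} (hz : |rho C z.1 - 1| < 3 / 50) :
    HasDerivAt (fun t : ℝ => Wz C (z + t • vR C z)) 0 0 := by
  obtain ⟨h1, h2, h3, h4, h5, h6⟩ := basic hC hz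
  obtain ⟨b1, -, b3, -, -⟩ := band hC hz
  have hne : C (z + (0 : ℝ) • vR C z).1.1 - Real.cos (z + (0 : ℝ) • vR C z).1.2 ≠ 0 := by
    rw [zero_smul_add]
    exact b3.ne'
  have h := ((h2.mul h5).sub (h4.mul h6)).div (d_den hC hz) hne
  refine h.congr_deriv ?_
  simp only [Pi.add_apply, Pi.mul_apply, Pi.sub_apply, Pi.div_apply, Pi.pow_apply, zero_smul_add]
  have hk := Real.sin_sq_add_cos_sq z.1.2
  set c := C z.1.1
  set c1 := deriv C z.1.1
  set k := Real.cos z.1.2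
  set s := Real.sin z.1.2
  set p := z.2.1
  set q := z.2.2
  have hck : c - k ≠ 0 := b3.ne'
  rw [div_eq_zero_iff]
  left
  field_simp
  have hs : s ^ 2 = 1 - k ^ 2 := by linarith
  ring_nf
  simp only [show c1 ^ 3 = c1 * c1 ^ 2 by ring, show s ^ 3 = s * s ^ 2 by ring, b1, hs]
  ring

theorem d_U (hC : CData C) (hY : YData Y kap) {z : (ℝ × ℝ) × (ℝ × ℝ)}
    (hz : |rho C z.1 - 1| < 3 / 50) :
    HasDerivAt (fun t : ℝ => Y (rho C (z + t • vR C z).1)) 0 0 := by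
  have h1 : HasDerivAt Y (deriv Y (rho C (z + (0 : ℝ) • vR C z).1))
      (rho C (z + (0 : ℝ) • vR C z).1) :=
    (hY.smoothY.differentiable (by simp)).differentiableAt.hasDerivAt
  have h := h1.comp (0 : ℝ) (d_rho hC hz)
  refine h.congr_deriv ?_
  rw [mul_zero]

theorem d_fac (hC : CData C) (hY : YData Y kap) {z : (ℝ × ℝ) × (ℝ × ℝ)}
    (hz : |rho C z.1 - 1| < 3 / 50) :
    HasDerivAt (fun t : ℝ => fac C Y (z + t • vR C z).1)
      (fac C Y z.1 * (2 * deriv C z.1.1 * Real.sin z.1.2 / (C z.1.1 - Real.cos z.1.2) ^ 2)) 0 := by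
  obtain ⟨-, -, b3, -, b5⟩ := band hC hz
  have hne : rho C (z + (0 : ℝ) • vR C z).1 ≠ 0 := by
    rw [zero_smul_add]
    exact b5.ne'
  have h := ((d_den hC hz).div_const 10).mul
    ((((d_U hC hY hz).pow 2).const_sub 1).div (d_rho hC hz) hne)
  refine h.congr_deriv ?_
  simp only [Pi.add_apply, Pi.mul_apply, Pi.sub_apply, Pi.div_apply, Pi.pow_apply, zero_smul_add]
  unfold fac
  have hck : C z.1.1 - Real.cos z.1.2 ≠ 0 := b3.ne'
  field_simp
  ring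

theorem fac_pos (hC : CData C) (hY : YData Y kap) {x : ℝ × ℝ} (hz : |rho C x - 1| < 3 / 50) :
    0 < fac C Y x := by
  obtain ⟨-, -, b3, -, b5⟩ := band hC hz
  have h2 := (Y_bounds hY hz).2
  unfold fac
  positivity

theorem d_E (hC : CData C) (hY : YData Y kap) {z : (ℝ × ℝ) × (ℝ × ℝ)}
    (hz : |rho C z.1 - 1| < 3 / 50) :
    HasDerivAt (fun t : ℝ => En C Y (z + t • vR C z)) 0 0 := by
  obtain ⟨h1, h2, h3, h4, h5, h6⟩ := basic hC hz
  obtain ⟨b1, -, b3, -, -⟩ := band hC hz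
  have hf := fac_pos hC hY hz
  have hne : fac C Y (z + (0 : ℝ) • vR C z).1 ≠ 0 := by
    rw [zero_smul_add]
    exact hf.ne'
  have h := ((h5.pow 2).add (h6.pow 2)).div (d_fac hC hY hz) hne
  refine h.congr_deriv ?_
  simp only [Pi.add_apply, Pi.mul_apply, Pi.sub_apply, Pi.div_apply, Pi.pow_apply, zero_smul_add]
  have hck : C z.1.1 - Real.cos z.1.2 ≠ 0 := b3.ne'
  rw [div_eq_zero_iff]
  left
  field_simp
  ring

theorem d_ca (hC : CData C) {z : (ℝ × ℝ) × (ℝ × ℝ)} (hz : |rho C z.1 - 1| < 3 / 50) :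
    HasDerivAt (fun t : ℝ => ca C (z + t • vR C z).1) (-sa C z.1) 0 := by
  obtain ⟨h1, h2, h3, h4, h5, h6⟩ := basic hC hz
  obtain ⟨b1, -, b3, b4, -⟩ := band hC hz
  have hne : C (z + (0 : ℝ) • vR C z).1.1 + Real.cos (z + (0 : ℝ) • vR C z).1.2 ≠ 0 := by
    rw [zero_smul_add]
    exact b4.ne'
  have h := ((h1.mul h3).const_add 1).div (h1.add h3) hne
  refine h.congr_deriv ?_
  simp only [Pi.add_apply, Pi.mul_apply, Pi.sub_apply, Pi.div_apply, Pi.pow_apply, zero_smul_add]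
  unfold sa
  have hck : C z.1.1 - Real.cos z.1.2 ≠ 0 := b3.ne'
  have hck' : C z.1.1 + Real.cos z.1.2 ≠ 0 := b4.ne'
  field_simp
  ring

theorem d_sa (hC : CData C) {z : (ℝ × ℝ) × (ℝ × ℝ)} (hz : |rho C z.1 - 1| < 3 / 50) :
    HasDerivAt (fun t : ℝ => sa C (z + t • vR C z).1) (ca C z.1) 0 := by
  obtain ⟨h1, h2, h3, h4, h5, h6⟩ := basic hC hz
  obtain ⟨b1, -, b3, b4, -⟩ := band hC hz
  have hne : C (z + (0 : ℝ) • vR C z).1.1 + Real.cos (z + (0 : ℝ) • vR C z).1.2 ≠ 0 := by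
    rw [zero_smul_add]
    exact b4.ne'
  have h := (h2.mul h4).div (h1.add h3) hne
  refine h.congr_deriv ?_
  simp only [Pi.add_apply, Pi.mul_apply, Pi.sub_apply, Pi.div_apply, Pi.pow_apply, zero_smul_add]
  unfold ca
  have hk := Real.sin_sq_add_cos_sq z.1.2
  set c := C z.1.1
  set c1 := deriv C z.1.1
  set k := Real.cos z.1.2
  set s := Real.sin z.1.2
  have hck : c - k ≠ 0 := b3.ne'
  have hck' : c + k ≠ 0 := b4.ne'
  have hs : s ^ 2 = 1 - k ^ 2 := by linarith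
  field_simp
  ring_nf
  simp only [b1, hs]
  ring

theorem En_pos (hC : CData C) (hY : YData Y kap) {z : (ℝ × ℝ) × (ℝ × ℝ)}
    (hz : |rho C z.1 - 1| < 3 / 50) (hp : z.2 ≠ 0) : 0 < En C Y z := by
  unfold En
  refine div_pos ?_ (fac_pos hC hY hz)
  unfold nsq
  by_contra hcon
  push Not at hcon
  have h1 : z.2.1 ^ 2 = 0 := by nlinarith [sq_nonneg z.2.1, sq_nonneg z.2.2]
  have h2 : z.2.2 ^ 2 = 0 := by nlinarith [sq_nonneg z.2.1, sq_nonneg z.2.2]
  apply hp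
  ext
  · simpa using h1
  · simpa using h2

theorem d_sqrt (hC : CData C) (hY : YData Y kap) {z : (ℝ × ℝ) × (ℝ × ℝ)}
    (hz : |rho C z.1 - 1| < 3 / 50) (hp : z.2 ≠ 0) :
    HasDerivAt (fun t : ℝ => Real.sqrt (En C Y (z + t • vR C z))) 0 0 := by
  have hne : En C Y (z + (0 : ℝ) • vR C z) ≠ 0 := by
    rw [zero_smul_add]
    exact (En_pos hC hY hz hp).ne'
  refine ((d_E hC hY hz).sqrt hne).congr_deriv ?_
  rw [zero_div]

theorem d_Th (hC : CData C) (hY : YData Y kap) (hD : DData kap D) {z : (ℝ × ℝ) × (ℝ × ℝ)}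
    (hz : |rho C z.1 - 1| < 3 / 50) (hp : z.2 ≠ 0) :
    HasDerivAt (fun t : ℝ => Th C Y D (z + t • vR C z)) 0 0 := by
  have hne : Real.sqrt (En C Y (z + (0 : ℝ) • vR C z)) ≠ 0 := by
    rw [zero_smul_add]
    exact (Real.sqrt_pos.2 (En_pos hC hY hz hp)).ne'
  have h1 := (d_L hC hz).div (d_sqrt hC hY hz hp) hne
  have h2 := (d_W hC hz).div (d_sqrt hC hY hz hp) hne
  have h3 : HasDerivAt (fun t : ℝ => ((Y (rho C (z + t • vR C z).1),
      Wz C (z + t • vR C z) / Real.sqrt (En C Y (z + t • vR C z))) : ℝ × ℝ)) (0, 0) 0 := by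
    refine ((d_U hC hY hz).prodMk h2).congr_deriv ?_
    simp
  have h4 : HasFDerivAt D (fderiv ℝ D ((Y (rho C (z + (0 : ℝ) • vR C z).1),
      Wz C (z + (0 : ℝ) • vR C z) / Real.sqrt (En C Y (z + (0 : ℝ) • vR C z))) : ℝ × ℝ))
      ((Y (rho C (z + (0 : ℝ) • vR C z).1),
      Wz C (z + (0 : ℝ) • vR C z) / Real.sqrt (En C Y (z + (0 : ℝ) • vR C z))) : ℝ × ℝ) :=
    (hD.smooth.differentiable (by simp)).differentiableAt.hasFDerivAt
  have h5 := h4.comp_hasDerivAt (0 : ℝ) h3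
  refine (h1.mul h5).congr_deriv ?_
  have e : ((0, 0) : ℝ × ℝ) = 0 := rfl
  rw [e, map_zero]
  simp

theorem d_Br (hC : CData C) (hY : YData Y kap) {z : (ℝ × ℝ) × (ℝ × ℝ)}
    (hz : |rho C z.1 - 1| < 3 / 50) :
    HasDerivAt (fun t : ℝ => Br C Y (z + t • vR C z)) 0 0 := by
  have hne : 1 + Y (rho C (z + (0 : ℝ) • vR C z).1) ≠ 0 := by
    rw [zero_smul_add]
    exact (Y_bounds hY hz).1.ne'
  refine ((d_E hC hY hz).sub
    (((d_L hC hz).pow 2).div ((d_U hC hY hz).const_add 1) hne)).congr_deriv ?_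
  simp

theorem d_Bi (hC : CData C) (hY : YData Y kap) {z : (ℝ × ℝ) × (ℝ × ℝ)}
    (hz : |rho C z.1 - 1| < 3 / 50) :
    HasDerivAt (fun t : ℝ => Bi C Y (z + t • vR C z)) 0 0 := by
  have hne : 1 + Y (rho C (z + (0 : ℝ) • vR C z).1) ≠ 0 := by
    rw [zero_smul_add]
    exact (Y_bounds hY hz).1.ne'
  refine (((d_L hC hz).mul (d_W hC hz)).div ((d_U hC hY hz).const_add 1) hne).congr_deriv ?_
  simp

end InnerR

open InnerR

theorem LW_identity (hC : CData C) (hY : YData Y kap)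
    {z : (ℝ × ℝ) × (ℝ × ℝ)} (hz : |rho C z.1 - 1| < 3 / 50) :
    Lz C z ^ 2 + Wz C z ^ 2 = En C Y z * (1 - Y (rho C z.1) ^ 2) := by
  obtain ⟨b1, -, b3, b4, b5⟩ := band hC hz
  have hU := (Y_bounds hY hz).2
  have hk := Real.sin_sq_add_cos_sq z.1.2
  have e : fac C Y z.1 = (C z.1.1 - Real.cos z.1.2) * (1 - Y (rho C z.1) ^ 2) /
      (C z.1.1 + Real.cos z.1.2) := by
    unfold fac
    have h1 : rho C z.1 = (C z.1.1 + Real.cos z.1.2) / 10 := rfl
    have hck' : C z.1.1 + Real.cos z.1.2 ≠ 0 := b4.ne'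
    rw [h1]
    field_simp
  unfold Lz Wz En nsq
  rw [e]
  set c := C z.1.1
  set c1 := deriv C z.1.1
  set k := Real.cos z.1.2
  set s := Real.sin z.1.2
  set p := z.2.1
  set q := z.2.2
  set V := 1 - Y (rho C z.1) ^ 2
  have hck : c - k ≠ 0 := b3.ne'
  have hck' : c + k ≠ 0 := b4.ne'
  have hV : V ≠ 0 := hU.ne'
  have hs : s ^ 2 = 1 - k ^ 2 := by linarith
  field_simp
  ring_nf
  simp only [b1, hs]
  ring

theorem Z_identity (hC : CData C) (hY : YData Y kap)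
    {z : (ℝ × ℝ) × (ℝ × ℝ)} (hz : |rho C z.1 - 1| < 3 / 50) :
    Zr C Y D z ^ 2 + Zi C Y D z ^ 2 = En C Y z * (En C Y z - Lz C z ^ 2) := by
  obtain ⟨b1, -, b3, b4, b5⟩ := band hC hz
  have hU := (Y_bounds hY hz).1
  have hk := Real.sin_sq_add_cos_sq z.1.2
  have hLW := LW_identity hC hY hz
  have h1 : ca C z.1 ^ 2 + sa C z.1 ^ 2 = 1 := by
    unfold ca sa
    set c := C z.1.1
    set c1 := deriv C z.1.1
    set k := Real.cos z.1.2
    set s := Real.sin z.1.2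
    have hck' : c + k ≠ 0 := b4.ne'
    have hs : s ^ 2 = 1 - k ^ 2 := by linarith
    field_simp
    rw [b1, hs]
    ring
  have h2 := Real.cos_sq_add_sin_sq (Th C Y D z)
  have h3 : Br C Y z ^ 2 + Bi C Y z ^ 2 = En C Y z * (En C Y z - Lz C z ^ 2) := by
    unfold Br Bi
    have hW : Wz C z ^ 2 = En C Y z * (1 - Y (rho C z.1) ^ 2) - Lz C z ^ 2 := by linarith
    set U := Y (rho C z.1)
    set L := Lz C z
    set E := En C Y z
    have hU' : 1 + U ≠ 0 := hU.ne'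
    rw [div_pow, mul_pow, hW]
    field_simp
    ring
  have h4 : Zr C Y D z ^ 2 + Zi C Y D z ^ 2 = (ca C z.1 ^ 2 + sa C z.1 ^ 2) *
      (Real.cos (Th C Y D z) ^ 2 + Real.sin (Th C Y D z) ^ 2) *
      (Br C Y z ^ 2 + Bi C Y z ^ 2) := by
    unfold Zr Zi
    ring
  rw [h4, h1, h2, h3]
  ring

theorem inner_R_L (hC : CData C)
    {z : (ℝ × ℝ) × (ℝ × ℝ)} (hz : |rho C z.1 - 1| < 3 / 50) :
    HasDerivAt (fun t : ℝ => Lz C (z + t • vR C z)) 0 0 := d_L hC hz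

theorem inner_R_En (hC : CData C) (hY : YData Y kap)
    {z : (ℝ × ℝ) × (ℝ × ℝ)} (hz : |rho C z.1 - 1| < 3 / 50) :
    HasDerivAt (fun t : ℝ => En C Y (z + t • vR C z)) 0 0 := d_E hC hY hz

theorem inner_R_Zr (hC : CData C) (hY : YData Y kap) (hD : DData kap D)
    {z : (ℝ × ℝ) × (ℝ × ℝ)} (hz : |rho C z.1 - 1| < 3 / 50) (hp : z.2 ≠ 0) :
    HasDerivAt (fun t : ℝ => Zr C Y D (z + t • vR C z)) (-Zi C Y D z) 0 := by
  have hT := d_Th hC hY hD hz hp
  have hcos := hT.cos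
  have hsin := hT.sin
  have h := (((d_ca hC hz).mul hcos).sub ((d_sa hC hz).mul hsin)).mul (d_Br hC hY hz) |>.sub
    ((((d_sa hC hz).mul hcos).add ((d_ca hC hz).mul hsin)).mul (d_Bi hC hY hz))
  refine h.congr_deriv ?_
  simp only [zero_smul_add]
  unfold Zi
  ring

theorem inner_R_Zi (hC : CData C) (hY : YData Y kap) (hD : DData kap D)
    {z : (ℝ × ℝ) × (ℝ × ℝ)} (hz : |rho C z.1 - 1| < 3 / 50) (hp : z.2 ≠ 0) :
    HasDerivAt (fun t : ℝ => Zi C Y D (z + t • vR C z)) (Zr C Y D z) 0 := by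
  have hT := d_Th hC hY hD hz hp
  have hcos := hT.cos
  have hsin := hT.sin
  have h := (((d_ca hC hz).mul hcos).sub ((d_sa hC hz).mul hsin)).mul (d_Bi hC hY hz) |>.add
    ((((d_sa hC hz).mul hcos).add ((d_ca hC hz).mul hsin)).mul (d_Br hC hY hz))
  refine h.congr_deriv ?_
  simp only [zero_smul_add]
  unfold Zr
  ring

end Pool.Agent.TorusInt
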