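import Pool.Agent.TorusInt.Defs

/-! Module Outer: the region outside the annulus. -/

set_option autoImplicit false

open scoped ContDiff

namespace Pool.Agent.TorusInt

variable {C Y kap : ℝ → ℝ} {D : ℝ × ℝ → ℝ}

namespace Outer

lemma C_bounds (hC : CData C) (x : ℝ) : 4 ≤ C x ∧ C x ≤ 16 := by
  have h := abs_le.mp (hC.bound x)
  constructor
  · linarith [h.1]
  · linarith [h.2]

lemma rho_bounds (hC : CData C) (x : ℝ × ℝ) : 3 / 10 ≤ rho C x ∧ rho C x ≤ 17 / 10 := by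
  have h := C_bounds hC x.1
  have h1 := Real.neg_one_le_cos x.2
  have h2 := Real.cos_le_one x.2
  unfold rho
  constructor
  · linarith [h.1]
  · linarith [h.2]

lemma sub_pos (hC : CData C) (x : ℝ × ℝ) : 0 < C x.1 - Real.cos x.2 := by
  have h := C_bounds hC x.1
  have h2 := Real.cos_le_one x.2
  linarith [h.1]

lemma add_pos (hC : CData C) (x : ℝ × ℝ) : 0 < C x.1 + Real.cos x.2 := by
  have h := C_bounds hC x.1
  have h2 := Real.neg_one_le_cos x.2
  linarith [h.1]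

lemma add_lt (hC : CData C) (x : ℝ × ℝ) : C x.1 + Real.cos x.2 < 20 := by
  have h := C_bounds hC x.1
  have h2 := Real.cos_le_one x.2
  linarith [h.2]

end Outer

/-- outside the annulus the metric has Liouville form -/
theorem fac_outer (hC : CData C) (hY : YData Y kap) {x : ℝ × ℝ} (hx : 1 / 20 ≤ |rho C x - 1|) :
    fac C Y x = (1 - Real.cos x.2 / 10) ^ 2 - (1 - C x.1 / 10) ^ 2 := by
  have h1 := Outer.add_pos hC x
  unfold fac
  rw [hY.out _ hx]
  unfold rho
  field_simp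
  ring

namespace Outer

/-- the product form of the conformal factor -/
lemma fac_prod (hC : CData C) (hY : YData Y kap) {x : ℝ × ℝ} (hx : 1 / 20 ≤ |rho C x - 1|) :
    fac C Y x = (C x.1 - Real.cos x.2) * (20 - C x.1 - Real.cos x.2) / 100 := by
  rw [fac_outer hC hY hx]
  ring

lemma fac_pos (hC : CData C) (hY : YData Y kap) {x : ℝ × ℝ} (hx : 1 / 20 ≤ |rho C x - 1|) :
    0 < fac C Y x := by
  rw [fac_prod hC hY hx]
  have h1 := sub_pos hC x
  have h2 := add_lt hC x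
  have h3 : 0 < 20 - C x.1 - Real.cos x.2 := by linarith
  positivity

lemma alg {c k c1 s p q E : ℝ} (hc1 : c1 ^ 2 = c ^ 2 - 1) (hs : s ^ 2 + k ^ 2 = 1)
    (h1 : c - k ≠ 0) (h2 : c + k ≠ 0) (h3 : 20 - c - k ≠ 0)
    (hE : E = (p ^ 2 + q ^ 2) / ((c - k) * (20 - c - k) / 100)) :
    ((c1 * q + s * p) / (c - k)) ^ 2 + 1 / 5 *
      ((1 + c * k) / (c + k) * (E - ((c1 * q + s * p) / (c - k)) ^ 2 / ((c + k) / 10)) -
        c1 * s / (c + k) * ((c1 * q + s * p) / (c - k) * ((c1 * p - s * q) / (c - k)) /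
          ((c + k) / 10))) =
      E / 100 - p ^ 2 + E * (1 - (1 - c / 10) ^ 2) := by
  have e1 : ((c1 * q + s * p) / (c - k)) ^ 2 + 1 / 5 *
      ((1 + c * k) / (c + k) * (E - ((c1 * q + s * p) / (c - k)) ^ 2 / ((c + k) / 10)) -
        c1 * s / (c + k) * ((c1 * q + s * p) / (c - k) * ((c1 * p - s * q) / (c - k)) /
          ((c + k) / 10))) =
      (c1 ^ 2 * q ^ 2 - s ^ 2 * p ^ 2) / ((c - k) * (c + k)) +
        E * (1 + c * k) / (5 * (c + k)) := by
    have h4 : ((c1 * q + s * p) / (c - k)) ^ 2 * ((c + k) ^ 2 - 2 * (1 + c * k)) -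
        2 * (c1 * s) * ((c1 * q + s * p) / (c - k) * ((c1 * p - s * q) / (c - k))) =
        (c + k) * (c1 ^ 2 * q ^ 2 - s ^ 2 * p ^ 2) / (c - k) := by
      have h5 : (c + k) ^ 2 - 2 * (1 + c * k) = c1 ^ 2 - s ^ 2 := by
        linear_combination (-1) * hc1 + hs
      rw [h5]
      have h6 : c1 ^ 2 + s ^ 2 = (c - k) * (c + k) := by
        linear_combination hc1 + hs
      field_simp
      linear_combination (c1 ^ 2 * q ^ 2 - s ^ 2 * p ^ 2) * h6
    have h7 : ((c1 * q + s * p) / (c - k)) ^ 2 + 1 / 5 *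
      ((1 + c * k) / (c + k) * (E - ((c1 * q + s * p) / (c - k)) ^ 2 / ((c + k) / 10)) -
        c1 * s / (c + k) * ((c1 * q + s * p) / (c - k) * ((c1 * p - s * q) / (c - k)) /
          ((c + k) / 10))) =
        (((c1 * q + s * p) / (c - k)) ^ 2 * ((c + k) ^ 2 - 2 * (1 + c * k)) -
        2 * (c1 * s) * ((c1 * q + s * p) / (c - k) * ((c1 * p - s * q) / (c - k)))) /
          (c + k) ^ 2 + E * (1 + c * k) / (5 * (c + k)) := by
      generalize ((c1 * q + s * p) / (c - k)) = l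
      generalize ((c1 * p - s * q) / (c - k)) = w
      field_simp
      ring
    rw [h7, h4]
    field_simp
  rw [e1, hE]
  have h8 : c1 ^ 2 * q ^ 2 - s ^ 2 * p ^ 2 =
      (c ^ 2 - 1) * (p ^ 2 + q ^ 2) - p ^ 2 * ((c - k) * (c + k)) := by
    linear_combination q ^ 2 * hc1 - p ^ 2 * hs
  rw [h8]
  field_simp
  ring

end Outer

/-- the two formulas agree where both make sense -/
theorem Fin_eq_Fout (hC : CData C) (hY : YData Y kap) (hD : DData kap D)
    {z : (ℝ × ℝ) × (ℝ × ℝ)} (hz : |rho C z.1 - 1| < 3 / 50) (hz' : 1 / 20 ≤ |rho C z.1 - 1|)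
    (hp : z.2 ≠ 0) : Fin' C Y D z = Fout C Y z := by
  have hU : Y (rho C z.1) = rho C z.1 - 1 := hY.out _ hz'
  have hband : |C z.1.1 / 10 - 1| < 4 / 25 := by
    have h1 : C z.1.1 / 10 - 1 = (rho C z.1 - 1) - Real.cos z.1.2 / 10 := by
      unfold rho; ring
    rw [h1]
    refine lt_of_le_of_lt (abs_sub _ _) ?_
    have h2 : |Real.cos z.1.2 / 10| ≤ 1 / 10 := by
      rw [abs_div, abs_of_pos (by norm_num : (0 : ℝ) < 10)]
      have := Real.abs_cos_le_one z.1.2
      linarith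
    linarith
  have hc1 := hC.band1 _ hband
  have hD0 : ∀ w, D (Y (rho C z.1), w) = 0 := by
    intro w
    apply hD.zero
    rw [hU, ← sq_abs]
    have h3 : (1 / 20 : ℝ) ^ 2 ≤ |rho C z.1 - 1| ^ 2 := by
      apply pow_le_pow_left₀ (by norm_num) hz'
    linarith
  have hTh : Th C Y D z = 0 := by
    unfold Th
    rw [hD0, mul_zero]
  have h1U : 1 + Y (rho C z.1) = (C z.1.1 + Real.cos z.1.2) / 10 := by
    rw [hU]; unfold rho; ring
  unfold Fin' Zr Fout Br Bi
  rw [hTh, Real.cos_zero, Real.sin_zero, mul_one, mul_zero, sub_zero, mul_one, mul_zero, add_zero,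
    h1U]
  have hE : En C Y z = (z.2.1 ^ 2 + z.2.2 ^ 2) /
      ((C z.1.1 - Real.cos z.1.2) * (20 - C z.1.1 - Real.cos z.1.2) / 100) := by
    unfold En nsq
    rw [Outer.fac_prod hC hY hz']
  have h2 := Outer.sub_pos hC z.1
  have h3 := Outer.add_pos hC z.1
  have h4 := Outer.add_lt hC z.1
  exact Outer.alg hc1 (Real.sin_sq_add_cos_sq z.1.2) h2.ne' h3.ne' (by linarith) hE

namespace Outer

/-- the derivative of the conformal factor -/
noncomputable def dfac (C : ℝ → ℝ) (x : ℝ × ℝ) (v : ℝ × ℝ) : ℝ :=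
  2 * (1 - Real.cos x.2 / 10) * (Real.sin x.2 / 10) * v.2 +
    2 * (1 - C x.1 / 10) * (deriv C x.1 / 10) * v.1

lemma continuous_rho (hC : CData C) : Continuous (rho C) := by
  unfold rho
  have h1 := hC.smooth.continuous
  fun_prop

lemma eventually_outer (hC : CData C) {x : ℝ × ℝ} (hx : 1 / 20 < |rho C x - 1|) :
    ∀ᶠ y in nhds x, 1 / 20 < |rho C y - 1| := by
  have h1 : Continuous fun y => |rho C y - 1| := ((continuous_rho hC).sub continuous_const).abs
  exact h1.continuousAt.eventually (lt_mem_nhds hx)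

lemma hasDerivAt_C (hC : CData C) (x : ℝ) : HasDerivAt C (deriv C x) x :=
  ((hC.smooth.differentiable (by norm_num)) x).hasDerivAt

lemma hasFDerivAt_fac (hC : CData C) (hY : YData Y kap) {x : ℝ × ℝ}
    (hx : 1 / 20 < |rho C x - 1|) :
    HasFDerivAt (fac C Y)
      ((2 * (1 - Real.cos x.2 / 10) * (Real.sin x.2 / 10)) • ContinuousLinearMap.snd ℝ ℝ ℝ +
        (2 * (1 - C x.1 / 10) * (deriv C x.1 / 10)) • ContinuousLinearMap.fst ℝ ℝ ℝ) x := by
  have h1 : HasFDerivAt (fun y : ℝ × ℝ => (1 - Real.cos y.2 / 10) ^ 2)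
      ((2 * (1 - Real.cos x.2 / 10) * (Real.sin x.2 / 10)) • ContinuousLinearMap.snd ℝ ℝ ℝ)
      x := by
    have h2 : HasDerivAt (fun t : ℝ => (1 - Real.cos t / 10) ^ 2)
        (2 * (1 - Real.cos x.2 / 10) * (Real.sin x.2 / 10)) x.2 := by
      have h3 := (((Real.hasDerivAt_cos x.2).div_const 10).const_sub 1).pow 2
      refine h3.congr_deriv ?_
      simp only [Nat.cast_ofNat, Nat.reduceSub, pow_one]
      ring
    exact h2.comp_hasFDerivAt x hasFDerivAt_snd
  have h4 : HasFDerivAt (fun y : ℝ × ℝ => (1 - C y.1 / 10) ^ 2)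
      ((-(2 * (1 - C x.1 / 10) * (deriv C x.1 / 10))) • ContinuousLinearMap.fst ℝ ℝ ℝ) x := by
    have h2 : HasDerivAt (fun t : ℝ => (1 - C t / 10) ^ 2)
        (-(2 * (1 - C x.1 / 10) * (deriv C x.1 / 10))) x.1 := by
      have h3 := (((hasDerivAt_C hC x.1).div_const 10).const_sub 1).pow 2
      refine h3.congr_deriv ?_
      simp only [Nat.cast_ofNat, Nat.reduceSub, pow_one]
      ring
    exact h2.comp_hasFDerivAt x hasFDerivAt_fst
  have h5 := h1.sub h4
  refine (h5.congr_fderiv ?_).congr_of_eventuallyEq ?_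
  · refine ContinuousLinearMap.ext fun v => ?_
    change (2 * (1 - Real.cos x.2 / 10) * (Real.sin x.2 / 10)) * v.2 -
      (-(2 * (1 - C x.1 / 10) * (deriv C x.1 / 10))) * v.1 =
      (2 * (1 - Real.cos x.2 / 10) * (Real.sin x.2 / 10)) * v.2 +
      (2 * (1 - C x.1 / 10) * (deriv C x.1 / 10)) * v.1
    ring
  · filter_upwards [eventually_outer hC hx] with y hy
    exact fac_outer hC hY hy.le

lemma fderiv_fac (hC : CData C) (hY : YData Y kap) {x : ℝ × ℝ}
    (hx : 1 / 20 < |rho C x - 1|) (v : ℝ × ℝ) : fderiv ℝ (fac C Y) x v = dfac C x v := by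
  rw [(hasFDerivAt_fac hC hY hx).fderiv]
  rfl

lemma path_fac (hC : CData C) (hY : YData Y kap) {x : ℝ × ℝ}
    (hx : 1 / 20 < |rho C x - 1|) (v : ℝ × ℝ) :
    HasDerivAt (fun t : ℝ => fac C Y (x + t • v)) (dfac C x v) 0 := by
  have h1 : HasDerivAt (fun t : ℝ => x + t • v) v 0 := by
    have h2 := ((hasDerivAt_id (0 : ℝ)).smul_const v).const_add x
    refine h2.congr_deriv ?_
    rw [one_smul]
  have h3 : HasFDerivAt (fac C Y)
      ((2 * (1 - Real.cos x.2 / 10) * (Real.sin x.2 / 10)) • ContinuousLinearMap.snd ℝ ℝ ℝ +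
        (2 * (1 - C x.1 / 10) * (deriv C x.1 / 10)) • ContinuousLinearMap.fst ℝ ℝ ℝ)
      (x + (0 : ℝ) • v) := by
    rw [zero_smul, add_zero]
    exact hasFDerivAt_fac hC hY hx
  exact h3.comp_hasDerivAt 0 h1

lemma path_En (hC : CData C) (hY : YData Y kap) {z : (ℝ × ℝ) × (ℝ × ℝ)}
    (hz : 1 / 20 < |rho C z.1 - 1|) (v : (ℝ × ℝ) × (ℝ × ℝ)) :
    HasDerivAt (fun t : ℝ => En C Y (z + t • v))
      (((2 * z.2.1 * v.2.1 + 2 * z.2.2 * v.2.2) * fac C Y z.1 - nsq z.2 * dfac C z.1 v.1) /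
        fac C Y z.1 ^ 2) 0 := by
  have h1 := path_fac hC hY hz v.1
  have hp : HasDerivAt (fun t : ℝ => z.2.1 + t * v.2.1) v.2.1 0 := by
    refine (((hasDerivAt_id (0 : ℝ)).mul_const v.2.1).const_add z.2.1).congr_deriv ?_
    rw [one_mul]
  have hq : HasDerivAt (fun t : ℝ => z.2.2 + t * v.2.2) v.2.2 0 := by
    refine (((hasDerivAt_id (0 : ℝ)).mul_const v.2.2).const_add z.2.2).congr_deriv ?_
    rw [one_mul]
  have h2 : HasDerivAt (fun t : ℝ => nsq (z.2 + t • v.2))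
      (2 * z.2.1 * v.2.1 + 2 * z.2.2 * v.2.2) 0 := by
    refine ((hp.pow 2).add (hq.pow 2)).congr_deriv ?_
    norm_num
  have h3 := h2.div h1 (by
    rw [zero_smul, add_zero]
    exact (fac_pos hC hY hz.le).ne')
  refine h3.congr_deriv ?_
  simp only [zero_smul, add_zero]

lemma path_Fout (hC : CData C) {z : (ℝ × ℝ) × (ℝ × ℝ)} (v : (ℝ × ℝ) × (ℝ × ℝ)) {e : ℝ}
    (he : HasDerivAt (fun t : ℝ => En C Y (z + t • v)) e 0) :
    HasDerivAt (fun t : ℝ => Fout C Y (z + t • v))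
      (e / 100 - 2 * z.2.1 * v.2.1 + (e * (1 - (1 - C z.1.1 / 10) ^ 2) +
        En C Y z * (2 * (1 - C z.1.1 / 10) * (deriv C z.1.1 / 10) * v.1.1))) 0 := by
  have hp : HasDerivAt (fun t : ℝ => z.2.1 + t * v.2.1) v.2.1 0 := by
    refine (((hasDerivAt_id (0 : ℝ)).mul_const v.2.1).const_add z.2.1).congr_deriv ?_
    rw [one_mul]
  have hx : HasDerivAt (fun t : ℝ => z.1.1 + t * v.1.1) v.1.1 0 := by
    refine (((hasDerivAt_id (0 : ℝ)).mul_const v.1.1).const_add z.1.1).congr_deriv ?_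
    rw [one_mul]
  have hCx : HasDerivAt (fun t : ℝ => C (z.1.1 + t * v.1.1)) (deriv C z.1.1 * v.1.1) 0 := by
    have h1 : HasDerivAt C (deriv C z.1.1) (z.1.1 + (0 : ℝ) * v.1.1) := by
      rw [zero_mul, add_zero]
      exact hasDerivAt_C hC _
    exact h1.comp 0 hx
  have hA := (((hCx.div_const 10).const_sub 1).pow 2).const_sub 1
  have h4 := (((he.div_const 100).sub (hp.pow 2)).add (he.mul hA))
  refine h4.congr_deriv ?_
  simp only [zero_smul, add_zero, zero_mul, Pi.pow_apply, Nat.cast_ofNat, Nat.reduceSub, pow_one]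
  ring

end Outer

theorem outer_H (hC : CData C) (hY : YData Y kap)
    {z : (ℝ × ℝ) × (ℝ × ℝ)} (hz : 1 / 20 < |rho C z.1 - 1|) :
    HasDerivAt (fun t : ℝ => Fout C Y (z + t • vH C Y z)) 0 0 := by
  have hf := (Outer.fac_pos hC hY hz.le).ne'
  have h1 := Outer.path_En hC hY hz (vH C Y z)
  have h2 : ((2 * z.2.1 * (vH C Y z).2.1 + 2 * z.2.2 * (vH C Y z).2.2) * fac C Y z.1 -
      nsq z.2 * Outer.dfac C z.1 (vH C Y z).1) / fac C Y z.1 ^ 2 = 0 := by
    unfold vH
    simp only [Outer.fderiv_fac hC hY hz]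
    unfold Outer.dfac En
    simp only
    field_simp
    ring
  rw [h2] at h1
  refine (Outer.path_Fout hC _ h1).congr_deriv ?_
  unfold vH
  simp only [Outer.fderiv_fac hC hY hz]
  unfold Outer.dfac
  simp only
  ring

namespace Outer

lemma differentiableAt_nsq (z : (ℝ × ℝ) × (ℝ × ℝ)) :
    DifferentiableAt ℝ (fun w : (ℝ × ℝ) × (ℝ × ℝ) => nsq w.2) z := by
  unfold nsq
  fun_prop

lemma differentiableAt_facfst (hC : CData C) (hY : YData Y kap) {z : (ℝ × ℝ) × (ℝ × ℝ)}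
    (hz : 1 / 20 < |rho C z.1 - 1|) :
    DifferentiableAt ℝ (fun w : (ℝ × ℝ) × (ℝ × ℝ) => fac C Y w.1) z :=
  (hasFDerivAt_fac hC hY hz).differentiableAt.comp z differentiableAt_fst

lemma differentiableAt_En (hC : CData C) (hY : YData Y kap) {z : (ℝ × ℝ) × (ℝ × ℝ)}
    (hz : 1 / 20 < |rho C z.1 - 1|) : DifferentiableAt ℝ (En C Y) z := by
  have h1 := differentiableAt_nsq z
  have h2 := differentiableAt_facfst hC hY hz
  have h3 := (fac_pos hC hY hz.le).ne'
  change DifferentiableAt ℝ (fun w : (ℝ × ℝ) × (ℝ × ℝ) => nsq w.2 / fac C Y w.1) z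
  simp only [div_eq_mul_inv]
  exact h1.mul (h2.inv h3)

lemma differentiableAt_Ham (hC : CData C) (hY : YData Y kap) {z : (ℝ × ℝ) × (ℝ × ℝ)}
    (hz : 1 / 20 < |rho C z.1 - 1|) : DifferentiableAt ℝ (Ham (fac C Y)) z := by
  have h1 := differentiableAt_nsq z
  have h2 := (differentiableAt_facfst hC hY hz).const_mul 2
  have h3 : 2 * fac C Y z.1 ≠ 0 := mul_ne_zero two_ne_zero (fac_pos hC hY hz.le).ne'
  change DifferentiableAt ℝ (fun w : (ℝ × ℝ) × (ℝ × ℝ) => nsq w.2 / (2 * fac C Y w.1)) z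
  simp only [div_eq_mul_inv]
  exact h1.mul (h2.inv h3)

lemma differentiableAt_Fout (hC : CData C) (hY : YData Y kap) {z : (ℝ × ℝ) × (ℝ × ℝ)}
    (hz : 1 / 20 < |rho C z.1 - 1|) : DifferentiableAt ℝ (Fout C Y) z := by
  have hE := differentiableAt_En hC hY hz
  have h1 : DifferentiableAt ℝ C z.1.1 := (hasDerivAt_C hC _).differentiableAt
  unfold Fout
  generalize En C Y = E at hE ⊢
  fun_prop

/-- the differential of a function in terms of derivatives along lines -/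
lemma fderiv_eq {F : (ℝ × ℝ) × (ℝ × ℝ) → ℝ} {z v : (ℝ × ℝ) × (ℝ × ℝ)} {e : ℝ}
    (hF : DifferentiableAt ℝ F z) (h : HasDerivAt (fun t : ℝ => F (z + t • v)) e 0) :
    fderiv ℝ F z v = e := by
  have h1 : HasDerivAt (fun t : ℝ => z + t • v) v 0 := by
    have h2 := ((hasDerivAt_id (0 : ℝ)).smul_const v).const_add z
    refine h2.congr_deriv ?_
    rw [one_smul]
  have h3 : HasFDerivAt F (fderiv ℝ F z) (z + (0 : ℝ) • v) := by
    rw [zero_smul, add_zero]
    exact hF.hasFDerivAt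
  exact (h3.comp_hasDerivAt 0 h1).unique h

end Outer

theorem outer_indep (hC : CData C) (hY : YData Y kap)
    {z : (ℝ × ℝ) × (ℝ × ℝ)} (hz : 1 / 20 < |rho C z.1 - 1|) (hp : z.2.1 ≠ 0) (hq : z.2.2 ≠ 0) :
    LinearIndependent ℝ ![fderiv ℝ (Fout C Y) z, fderiv ℝ (Ham (fac C Y)) z] := by
  have hf := (Outer.fac_pos hC hY hz.le).ne'
  have hFd := Outer.differentiableAt_Fout hC hY hz
  have hHd := Outer.differentiableAt_Ham hC hY hz
  have hHam : ∀ w, Ham (fac C Y) w = En C Y w / 2 := by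
    intro w
    unfold Ham En
    rw [div_div, mul_comm]
  -- derivatives of the energy
  have hE := fun v => Outer.path_En hC hY hz v
  have hF := fun v => Outer.fderiv_eq hFd (Outer.path_Fout hC v (hE v))
  have hH := fun v => Outer.fderiv_eq hHd (v := v) (by
    have h1 := (hE v).div_const 2
    have h2 : (fun t : ℝ => Ham (fac C Y) (z + t • v)) =
        fun t : ℝ => En C Y (z + t • v) / 2 := by
      funext t
      exact hHam _
    rw [h2]
    exact h1)
  rw [LinearIndependent.pair_iff]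
  intro a b hab
  have h1 : a * fderiv ℝ (Fout C Y) z (0, (1, 0)) + b * fderiv ℝ (Ham (fac C Y)) z (0, (1, 0)) =
      0 := by
    have := congrArg (fun l : ((ℝ × ℝ) × (ℝ × ℝ)) →L[ℝ] ℝ => l (0, (1, 0))) hab
    exact this
  have h2 : a * fderiv ℝ (Fout C Y) z (0, (0, 1)) + b * fderiv ℝ (Ham (fac C Y)) z (0, (0, 1)) =
      0 := by
    have := congrArg (fun l : ((ℝ × ℝ) × (ℝ × ℝ)) →L[ℝ] ℝ => l (0, (0, 1))) hab
    exact this
  rw [hF, hH] at h1 h2
  unfold Outer.dfac at h1 h2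
  simp only [Prod.fst_zero, Prod.snd_zero, mul_one, mul_zero, add_zero, zero_add,
    sub_zero] at h1 h2
  set κ := 1 - (1 - C z.1.1 / 10) ^ 2 with hκ
  set f := fac C Y z.1 with hfdef
  have h3 : a * (z.2.1 * ((2 / f) * (1 / 100 + κ) - 2)) + b * (z.2.1 / f) = 0 := by
    rw [← h1]
    field_simp
    ring
  have h4 : a * (z.2.2 * ((2 / f) * (1 / 100 + κ))) + b * (z.2.2 / f) = 0 := by
    rw [← h2]
    field_simp
  have h5 : a * ((2 / f) * (1 / 100 + κ) - 2) + b / f = 0 := by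
    apply mul_left_cancel₀ hp
    rw [mul_zero, ← h3]
    ring
  have h6 : a * ((2 / f) * (1 / 100 + κ)) + b / f = 0 := by
    apply mul_left_cancel₀ hq
    rw [mul_zero, ← h4]
    ring
  have ha : a = 0 := by linarith
  refine ⟨ha, ?_⟩
  rw [ha, zero_mul, zero_add] at h6
  exact (div_eq_zero_iff.mp h6).resolve_right hf

end Pool.Agent.TorusInt
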