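import Pool.Agent.TorusInt.Defs

/-! Module Smooth: smoothness and periodicity. -/

set_option autoImplicit false

open scoped ContDiff

namespace Pool.Agent.TorusInt

variable {C Y kap : ℝ → ℝ} {D : ℝ × ℝ → ℝ}

theorem isLattice_Λ₀ : IsLattice Λ₀ := by
  refine ⟨((3 / 2 : ℝ), (0 : ℝ)), ((0 : ℝ), 2 * Real.pi), ?_, rfl⟩
  have := Real.pi_pos
  have h : (0 : ℝ) < 3 / 2 * (2 * Real.pi) - 0 * 0 := by linarith
  exact ne_of_gt h

theorem Smooth_C_ge (hC : CData C) (x : ℝ) : 4 ≤ C x := by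
  have := abs_le.1 (hC.bound x)
  linarith [this.1]

theorem Smooth_sub_pos (hC : CData C) (x : ℝ × ℝ) : 0 < C x.1 - Real.cos x.2 := by
  have := Smooth_C_ge hC x.1
  have := Real.cos_le_one x.2
  linarith

theorem Smooth_add_pos (hC : CData C) (x : ℝ × ℝ) : 0 < C x.1 + Real.cos x.2 := by
  have := Smooth_C_ge hC x.1
  have := Real.neg_one_le_cos x.2
  linarith

theorem Smooth_rho_pos (hC : CData C) (x : ℝ × ℝ) : 0 < rho C x := by
  have := Smooth_add_pos hC x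
  unfold rho
  linarith

theorem Smooth_Y_abs (hC : CData C) (hY : YData Y kap) (x : ℝ × ℝ) :
    |Y (rho C x)| ≤ 7 / 10 := by
  by_cases h : 1 / 20 ≤ |rho C x - 1|
  · rw [hY.out _ h]
    have h1 := abs_le.1 (hC.bound x.1)
    have h2 := Real.cos_le_one x.2
    have h3 := Real.neg_one_le_cos x.2
    rw [abs_le]
    unfold rho
    constructor <;> linarith [h1.1, h1.2]
  · have := hY.small (rho C x) (by linarith)
    linarith

theorem Smooth_contDiff_rho (hC : CData C) : ContDiff ℝ ∞ (rho C) := by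
  have h1 : ContDiff ℝ ∞ (fun x : ℝ × ℝ => C x.1) := hC.smooth.comp contDiff_fst
  have h2 : ContDiff ℝ ∞ (fun x : ℝ × ℝ => Real.cos x.2) := Real.contDiff_cos.comp contDiff_snd
  exact (h1.add h2).div_const 10

theorem Smooth_contDiff_fac (hC : CData C) (hY : YData Y kap) : ContDiff ℝ ∞ (fac C Y) := by
  have h1 : ContDiff ℝ ∞ (fun x : ℝ × ℝ => C x.1) := hC.smooth.comp contDiff_fst
  have h2 : ContDiff ℝ ∞ (fun x : ℝ × ℝ => Real.cos x.2) := Real.contDiff_cos.comp contDiff_snd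
  have h3 := Smooth_contDiff_rho hC
  have h4 : ContDiff ℝ ∞ (fun x : ℝ × ℝ => Y (rho C x)) := hY.smoothY.comp h3
  exact ((h1.sub h2).div_const 10).mul
    ((contDiff_const.sub (h4.pow 2)).div h3 (fun x => (Smooth_rho_pos hC x).ne'))

theorem Smooth_fac_pos (hC : CData C) (hY : YData Y kap) (x : ℝ × ℝ) : 0 < fac C Y x := by
  have h1 := Smooth_sub_pos hC x
  have h2 := Smooth_rho_pos hC x
  have h3 := Smooth_Y_abs hC hY x
  have h4 : Y (rho C x) ^ 2 < 1 := by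
    have h5 : Y (rho C x) ^ 2 ≤ (7 / 10) ^ 2 := sq_le_sq' (by linarith [(abs_le.1 h3).1])
      (abs_le.1 h3).2
    linarith
  unfold fac
  have : 0 < 1 - Y (rho C x) ^ 2 := by linarith
  positivity

theorem Smooth_deriv (hC : CData C) : ContDiff ℝ ∞ (deriv C) :=
  (contDiff_infty_iff_deriv.1 hC.smooth).2

theorem Smooth_per (hC : CData C) (l : ℝ × ℝ) (hl : l ∈ Λ₀) (x : ℝ × ℝ) :
    C (x + l).1 = C x.1 ∧ deriv C (x + l).1 = deriv C x.1 ∧
      Real.cos (x + l).2 = Real.cos x.2 ∧ Real.sin (x + l).2 = Real.sin x.2 := by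
  unfold Λ₀ at hl
  rw [AddSubgroup.mem_closure_pair] at hl
  obtain ⟨m, n, rfl⟩ := hl
  have hper : Function.Periodic C (3 / 2) := hC.per
  have hderiv : Function.Periodic (deriv C) (3 / 2) := by
    intro y
    have h : (fun y => C (y + 3 / 2)) = C := funext hC.per
    rw [← deriv_comp_add_const, h]
  have e1 : (x + (m • ((3 / 2 : ℝ), (0 : ℝ)) + n • ((0 : ℝ), 2 * Real.pi))).1
      = x.1 + m * (3 / 2) := by simp
  have e2 : (x + (m • ((3 / 2 : ℝ), (0 : ℝ)) + n • ((0 : ℝ), 2 * Real.pi))).2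
      = x.2 + n * (2 * Real.pi) := by simp
  rw [e1, e2]
  exact ⟨hper.int_mul m x.1, hderiv.int_mul m x.1, Real.cos_add_int_mul_two_pi _ _,
    Real.sin_add_int_mul_two_pi _ _⟩

theorem fac_isMetric (hC : CData C) (hY : YData Y kap) : IsMetric Λ₀ (fac C Y) := by
  refine ⟨Smooth_contDiff_fac hC hY, Smooth_fac_pos hC hY, fun l hl x => ?_⟩
  obtain ⟨h1, -, h3, -⟩ := Smooth_per hC l hl x
  simp only [fac, rho, h1, h3]

theorem contDiffAt_En (hC : CData C) (hY : YData Y kap) (z : (ℝ × ℝ) × (ℝ × ℝ)) :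
    ContDiffAt ℝ ∞ (En C Y) z := by
  have h1 : ContDiff ℝ ∞ (fun z : (ℝ × ℝ) × (ℝ × ℝ) => nsq z.2) := by
    unfold nsq
    fun_prop
  have h2 : ContDiff ℝ ∞ (fun z : (ℝ × ℝ) × (ℝ × ℝ) => fac C Y z.1) :=
    (Smooth_contDiff_fac hC hY).comp contDiff_fst
  exact (h1.div h2 (fun z => (Smooth_fac_pos hC hY z.1).ne')).contDiffAt

theorem Smooth_En_pos (hC : CData C) (hY : YData Y kap) {z : (ℝ × ℝ) × (ℝ × ℝ)}
    (hp : z.2 ≠ 0) : 0 < En C Y z := by
  have h : 0 < nsq z.2 := by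
    unfold nsq
    by_contra hcon
    have h1 : z.2.1 ^ 2 + z.2.2 ^ 2 ≤ 0 := by linarith
    have h2 : z.2.1 = 0 := by nlinarith [sq_nonneg z.2.1, sq_nonneg z.2.2]
    have h3 : z.2.2 = 0 := by nlinarith [sq_nonneg z.2.1, sq_nonneg z.2.2]
    exact hp (Prod.ext h2 h3)
  exact div_pos h (Smooth_fac_pos hC hY z.1)

theorem Smooth_base (hC : CData C) :
    ContDiff ℝ ∞ (fun z : (ℝ × ℝ) × (ℝ × ℝ) => C z.1.1) ∧
    ContDiff ℝ ∞ (fun z : (ℝ × ℝ) × (ℝ × ℝ) => deriv C z.1.1) ∧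
    ContDiff ℝ ∞ (fun z : (ℝ × ℝ) × (ℝ × ℝ) => Real.cos z.1.2) ∧
    ContDiff ℝ ∞ (fun z : (ℝ × ℝ) × (ℝ × ℝ) => Real.sin z.1.2) ∧
    ContDiff ℝ ∞ (fun z : (ℝ × ℝ) × (ℝ × ℝ) => z.2.1) ∧
    ContDiff ℝ ∞ (fun z : (ℝ × ℝ) × (ℝ × ℝ) => z.2.2) :=
  ⟨hC.smooth.comp (contDiff_fst.comp contDiff_fst),
    (Smooth_deriv hC).comp (contDiff_fst.comp contDiff_fst),
    Real.contDiff_cos.comp (contDiff_snd.comp contDiff_fst),
    Real.contDiff_sin.comp (contDiff_snd.comp contDiff_fst),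
    contDiff_fst.comp contDiff_snd, contDiff_snd.comp contDiff_snd⟩

theorem Smooth_Lz (hC : CData C) : ContDiff ℝ ∞ (Lz C) := by
  obtain ⟨h1, h2, h3, h4, h5, h6⟩ := Smooth_base hC
  exact ((h2.mul h6).add (h4.mul h5)).div (h1.sub h3) (fun z => (Smooth_sub_pos hC z.1).ne')

theorem Smooth_Wz (hC : CData C) : ContDiff ℝ ∞ (Wz C) := by
  obtain ⟨h1, h2, h3, h4, h5, h6⟩ := Smooth_base hC
  exact ((h2.mul h5).sub (h4.mul h6)).div (h1.sub h3) (fun z => (Smooth_sub_pos hC z.1).ne')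

theorem Smooth_ca (hC : CData C) :
    ContDiff ℝ ∞ (fun z : (ℝ × ℝ) × (ℝ × ℝ) => ca C z.1) := by
  obtain ⟨h1, h2, h3, h4, h5, h6⟩ := Smooth_base hC
  exact (contDiff_const.add (h1.mul h3)).div (h1.add h3) (fun z => (Smooth_add_pos hC z.1).ne')

theorem Smooth_sa (hC : CData C) :
    ContDiff ℝ ∞ (fun z : (ℝ × ℝ) × (ℝ × ℝ) => sa C z.1) := by
  obtain ⟨h1, h2, h3, h4, h5, h6⟩ := Smooth_base hC
  exact (h2.mul h4).div (h1.add h3) (fun z => (Smooth_add_pos hC z.1).ne')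

theorem Smooth_U (hC : CData C) (hY : YData Y kap) :
    ContDiff ℝ ∞ (fun z : (ℝ × ℝ) × (ℝ × ℝ) => Y (rho C z.1)) :=
  hY.smoothY.comp ((Smooth_contDiff_rho hC).comp contDiff_fst)

theorem Smooth_U_ne (hC : CData C) (hY : YData Y kap) (x : ℝ × ℝ) : 1 + Y (rho C x) ≠ 0 := by
  have := (abs_le.1 (Smooth_Y_abs hC hY x)).1
  have h : 0 < 1 + Y (rho C x) := by linarith
  exact h.ne'

theorem Smooth_Th (hC : CData C) (hY : YData Y kap) (hD : DData kap D)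
    {z : (ℝ × ℝ) × (ℝ × ℝ)} (hp : z.2 ≠ 0) : ContDiffAt ℝ ∞ (Th C Y D) z := by
  have hE := Smooth_En_pos hC hY hp
  have hs : ContDiffAt ℝ ∞ (fun z => Real.sqrt (En C Y z)) z :=
    (contDiffAt_En hC hY z).sqrt hE.ne'
  have hs0 : Real.sqrt (En C Y z) ≠ 0 := (Real.sqrt_pos.2 hE).ne'
  have hL := (Smooth_Lz hC).contDiffAt (x := z)
  have hW := (Smooth_Wz hC).contDiffAt (x := z)
  have hU := (Smooth_U hC hY).contDiffAt (x := z)
  have h1 : ContDiffAt ℝ ∞ (fun z => (Y (rho C z.1), Wz C z / Real.sqrt (En C Y z))) z :=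
    hU.prodMk (hW.div hs hs0)
  have h2 : ContDiffAt ℝ ∞
      (fun z => D (Y (rho C z.1), Wz C z / Real.sqrt (En C Y z))) z :=
    hD.smooth.contDiffAt.comp z h1
  exact (hL.div hs hs0).mul h2

theorem Smooth_Br (hC : CData C) (hY : YData Y kap) (z : (ℝ × ℝ) × (ℝ × ℝ)) :
    ContDiffAt ℝ ∞ (Br C Y) z :=
  (contDiffAt_En hC hY z).sub (((Smooth_Lz hC).contDiffAt.pow 2).div
    (contDiffAt_const.add (Smooth_U hC hY).contDiffAt) (Smooth_U_ne hC hY z.1))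

theorem Smooth_Bi (hC : CData C) (hY : YData Y kap) (z : (ℝ × ℝ) × (ℝ × ℝ)) :
    ContDiffAt ℝ ∞ (Bi C Y) z :=
  (((Smooth_Lz hC).contDiffAt.mul (Smooth_Wz hC).contDiffAt).div
    (contDiffAt_const.add (Smooth_U hC hY).contDiffAt) (Smooth_U_ne hC hY z.1))

theorem contDiffAt_Zr (hC : CData C) (hY : YData Y kap) (hD : DData kap D)
    {z : (ℝ × ℝ) × (ℝ × ℝ)} (hz : |rho C z.1 - 1| < 3 / 50) (hp : z.2 ≠ 0) :
    ContDiffAt ℝ ∞ (Zr C Y D) z := by
  have hT := Smooth_Th hC hY hD hp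
  have hc := Real.contDiff_cos.contDiffAt.comp z hT
  have hs := Real.contDiff_sin.contDiffAt.comp z hT
  have h1 := (Smooth_ca hC).contDiffAt (x := z)
  have h2 := (Smooth_sa hC).contDiffAt (x := z)
  exact (((h1.mul hc).sub (h2.mul hs)).mul (Smooth_Br hC hY z)).sub
    (((h2.mul hc).add (h1.mul hs)).mul (Smooth_Bi hC hY z))

theorem contDiffAt_Zi (hC : CData C) (hY : YData Y kap) (hD : DData kap D)
    {z : (ℝ × ℝ) × (ℝ × ℝ)} (hz : |rho C z.1 - 1| < 3 / 50) (hp : z.2 ≠ 0) :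
    ContDiffAt ℝ ∞ (Zi C Y D) z := by
  have hT := Smooth_Th hC hY hD hp
  have hc := Real.contDiff_cos.contDiffAt.comp z hT
  have hs := Real.contDiff_sin.contDiffAt.comp z hT
  have h1 := (Smooth_ca hC).contDiffAt (x := z)
  have h2 := (Smooth_sa hC).contDiffAt (x := z)
  exact (((h1.mul hc).sub (h2.mul hs)).mul (Smooth_Bi hC hY z)).add
    (((h2.mul hc).add (h1.mul hs)).mul (Smooth_Br hC hY z))

theorem contDiffAt_Fin (hC : CData C) (hY : YData Y kap) (hD : DData kap D)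
    {z : (ℝ × ℝ) × (ℝ × ℝ)} (hz : |rho C z.1 - 1| < 3 / 50) (hp : z.2 ≠ 0) :
    ContDiffAt ℝ ∞ (Fin' C Y D) z :=
  ((Smooth_Lz hC).contDiffAt.pow 2).add (contDiffAt_const.mul (contDiffAt_Zr hC hY hD hz hp))

theorem contDiffAt_Fout (hC : CData C) (hY : YData Y kap) (z : (ℝ × ℝ) × (ℝ × ℝ)) :
    ContDiffAt ℝ ∞ (Fout C Y) z := by
  obtain ⟨h1, h2, h3, h4, h5, h6⟩ := Smooth_base hC
  have hE := contDiffAt_En hC hY z
  exact ((hE.div_const 100).sub (h5.contDiffAt.pow 2)).add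
    (hE.mul (contDiffAt_const.sub ((contDiffAt_const.sub (h1.contDiffAt.div_const 10)).pow 2)))

theorem Fint_periodic (hC : CData C) (l : ℝ × ℝ) (hl : l ∈ Λ₀) (x p : ℝ × ℝ) :
    Fint C Y D (x + l, p) = Fint C Y D (x, p) := by
  obtain ⟨h1, h2, h3, h4⟩ := Smooth_per hC l hl x
  have hr : rho C (x + l) = rho C x := by simp only [rho, h1, h3]
  by_cases h : |rho C x - 1| < 3 / 50
  · have h' : |rho C (x + l) - 1| < 3 / 50 := by rw [hr]; exact h
    have e1 : Fint C Y D (x + l, p) = Fin' C Y D (x + l, p) := if_pos h'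
    have e2 : Fint C Y D (x, p) = Fin' C Y D (x, p) := if_pos h
    rw [e1, e2]
    simp only [Fin', Zr, Th, Br, Bi, ca, sa, Lz, Wz, En, fac, rho, h1, h2, h3, h4]
  · have h' : ¬ |rho C (x + l) - 1| < 3 / 50 := by rw [hr]; exact h
    have e1 : Fint C Y D (x + l, p) = Fout C Y (x + l, p) := if_neg h'
    have e2 : Fint C Y D (x, p) = Fout C Y (x, p) := if_neg h
    rw [e1, e2]
    simp only [Fout, En, fac, rho, h1, h3]

end Pool.Agent.TorusInt
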