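import Pool.Agent.TorusInt.GraphDefs
import Pool.Agent.TorusInt.Smooth
import Pool.Agent.TorusInt.InnerR
import Pool.Agent.TorusInt.Outer

/-! Module GraphIneq: the first integral of the example is monotone on the relevant part of the
first quadrant of each fibre. -/

set_option autoImplicit false

open scoped ContDiff

namespace Pool.Agent.TorusInt

variable {C Y kap : ℝ → ℝ} {D : ℝ × ℝ → ℝ}

namespace GraphIneq

/-- the angular momentum along the circle of covectors -/
noncomputable def gL (C : ℝ → ℝ) (x : ℝ × ℝ) (r t : ℝ) : ℝ :=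
  (deriv C x.1 * (r * Real.sin t) + Real.sin x.2 * (r * Real.cos t)) / (C x.1 - Real.cos x.2)

/-- the radial momentum along the circle of covectors -/
noncomputable def gW (C : ℝ → ℝ) (x : ℝ × ℝ) (r t : ℝ) : ℝ :=
  (deriv C x.1 * (r * Real.cos t) - Real.sin x.2 * (r * Real.sin t)) / (C x.1 - Real.cos x.2)

theorem En_cov (hC : CData C) (hY : YData Y kap) (x : ℝ × ℝ) (t : ℝ) :
    En C Y (x, cov (fac C Y) x t) = 1 := by
  have hf := Smooth_fac_pos hC hY x
  have hs : Real.sqrt (fac C Y x) ^ 2 = fac C Y x := Real.sq_sqrt hf.le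
  unfold En nsq cov
  simp only
  rw [mul_pow, mul_pow, hs, ← mul_add, Real.cos_sq_add_sin_sq, mul_one, div_self hf.ne']

theorem cov_ne (hC : CData C) (hY : YData Y kap) (x : ℝ × ℝ) (t : ℝ) :
    cov (fac C Y) x t ≠ 0 := by
  intro h
  have h1 := En_cov hC hY x t
  rw [h] at h1
  simp [En, nsq] at h1

theorem hasDerivAt_gL (x : ℝ × ℝ) (r t : ℝ) :
    HasDerivAt (gL C x r) (gW C x r t) t := by
  have h1 : HasDerivAt (fun t => (deriv C x.1 * (r * Real.sin t) + Real.sin x.2 * (r * Real.cos t))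
      / (C x.1 - Real.cos x.2))
      ((deriv C x.1 * (r * Real.cos t) + Real.sin x.2 * (r * -Real.sin t))
      / (C x.1 - Real.cos x.2)) t :=
    ((((Real.hasDerivAt_sin t).const_mul r).const_mul _).add
      (((Real.hasDerivAt_cos t).const_mul r).const_mul _)).div_const _
  have h2 : HasDerivAt (gL C x r) _ t := h1
  refine h2.congr_deriv ?_
  unfold gW
  ring

theorem hasDerivAt_gW (x : ℝ × ℝ) (r t : ℝ) :
    HasDerivAt (gW C x r) (-gL C x r t) t := by
  have h1 : HasDerivAt (fun t => (deriv C x.1 * (r * Real.cos t) - Real.sin x.2 * (r * Real.sin t))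
      / (C x.1 - Real.cos x.2))
      ((deriv C x.1 * (r * -Real.sin t) - Real.sin x.2 * (r * Real.cos t))
      / (C x.1 - Real.cos x.2)) t :=
    ((((Real.hasDerivAt_cos t).const_mul r).const_mul _).sub
      (((Real.hasDerivAt_sin t).const_mul r).const_mul _)).div_const _
  have h2 : HasDerivAt (gW C x r) _ t := h1
  refine h2.congr_deriv ?_
  unfold gL
  ring

theorem Th_cov (hC : CData C) (hY : YData Y kap) (x : ℝ × ℝ) (t : ℝ) :
    Th C Y D (x, cov (fac C Y) x t) = gL C x (Real.sqrt (fac C Y x)) t *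
      D (Y (rho C x), gW C x (Real.sqrt (fac C Y x)) t) := by
  unfold Th
  rw [En_cov hC hY]
  simp [Lz, Wz, gL, gW, cov]

theorem Br_cov (hC : CData C) (hY : YData Y kap) (x : ℝ × ℝ) (t : ℝ) :
    Br C Y (x, cov (fac C Y) x t)
      = 1 - gL C x (Real.sqrt (fac C Y x)) t ^ 2 / (1 + Y (rho C x)) := by
  unfold Br
  rw [En_cov hC hY]
  simp [Lz, gL, cov]

theorem Bi_cov (x : ℝ × ℝ) (t : ℝ) :
    Bi C Y (x, cov (fac C Y) x t)
      = gL C x (Real.sqrt (fac C Y x)) t * gW C x (Real.sqrt (fac C Y x)) t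
        / (1 + Y (rho C x)) := by
  simp [Bi, Lz, Wz, gL, gW, cov]

theorem c_bounds (hC : CData C) {x : ℝ × ℝ} (hx : |rho C x - 1| < 3 / 50) :
    42 / 5 < C x.1 ∧ |C x.1 / 10 - 1| < 4 / 25 := by
  have h1 := abs_lt.1 hx
  have h2 := Real.cos_le_one x.2
  have h3 := Real.neg_one_le_cos x.2
  unfold rho at h1
  refine ⟨by linarith [h1.1], abs_lt.2 ⟨by linarith [h1.1], by linarith [h1.2]⟩⟩

theorem U_bound (hY : YData Y kap) {x : ℝ × ℝ} (hx : |rho C x - 1| < 3 / 50) :
    |Y (rho C x)| ≤ 3 / 50 := by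
  by_cases h : 1 / 20 ≤ |rho C x - 1|
  · rw [hY.out _ h]
    exact hx.le
  · have := hY.small (rho C x) (by linarith)
    linarith

theorem ca_sa (hC : CData C) {x : ℝ × ℝ} (hx : |rho C x - 1| < 3 / 50) :
    ca C x ^ 2 + sa C x ^ 2 = 1 := by
  have h1 := hC.band1 x.1 (c_bounds hC hx).2
  have h2 := Smooth_add_pos hC x
  have h3 : Real.sin x.2 ^ 2 = 1 - Real.cos x.2 ^ 2 := by
    have := Real.sin_sq_add_cos_sq x.2
    linarith
  unfold ca sa
  rw [div_pow, div_pow, ← add_div, mul_pow, h1, h3, div_eq_one_iff_eq (by positivity)]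
  ring

/-- the small term in the angular and the radial momentum -/
theorem small_term (hC : CData C) (hY : YData Y kap) {x : ℝ × ℝ} (hx : |rho C x - 1| < 3 / 50)
    (v : ℝ) (hv : v ^ 2 ≤ 1) :
    (Real.sin x.2 * (Real.sqrt (fac C Y x) * v) / (C x.1 - Real.cos x.2)) ^ 2 ≤ 3 / 200 := by
  obtain ⟨hc, -⟩ := c_bounds hC hx
  have hm := Smooth_sub_pos hC x
  have hp := Smooth_add_pos hC x
  have hf := Smooth_fac_pos hC hY x
  have hk1 := Real.cos_le_one x.2
  have hk2 := Real.neg_one_le_cos x.2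
  have hs : Real.sqrt (fac C Y x) ^ 2 = fac C Y x := Real.sq_sqrt hf.le
  have hfe : fac C Y x = (C x.1 - Real.cos x.2) * (1 - Y (rho C x) ^ 2)
      / (C x.1 + Real.cos x.2) := by
    unfold fac
    have : rho C x = (C x.1 + Real.cos x.2) / 10 := rfl
    rw [this]
    field_simp
  have hfb : fac C Y x * (C x.1 + Real.cos x.2) ≤ C x.1 - Real.cos x.2 := by
    rw [hfe, div_mul_cancel₀ _ hp.ne']
    nlinarith [sq_nonneg (Y (rho C x))]
  have hsin : Real.sin x.2 ^ 2 ≤ 1 := Real.sin_sq_le_one x.2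
  rw [div_pow, mul_pow, mul_pow, hs, div_le_iff₀ (by positivity)]
  have h1 : Real.sin x.2 ^ 2 * (fac C Y x * v ^ 2) ≤ fac C Y x := by
    have h2 : fac C Y x * v ^ 2 ≤ fac C Y x := by nlinarith
    have h3 : 0 ≤ fac C Y x * v ^ 2 := by positivity
    nlinarith
  refine h1.trans ?_
  -- `f (c+k) ≤ c-k` and `1 ≤ 3/200 (c-k)(c+k)`
  have h4 : 1 ≤ 3 / 200 * (C x.1 - Real.cos x.2) * (C x.1 + Real.cos x.2) := by
    nlinarith
  have h5 : fac C Y x ≤ fac C Y x * (3 / 200 * (C x.1 - Real.cos x.2) * (C x.1 + Real.cos x.2)) :=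
    le_mul_of_one_le_right hf.le h4
  calc fac C Y x ≤ fac C Y x * (3 / 200 * (C x.1 - Real.cos x.2) * (C x.1 + Real.cos x.2)) := h5
    _ = 3 / 200 * (C x.1 - Real.cos x.2) * (fac C Y x * (C x.1 + Real.cos x.2)) := by ring
    _ ≤ 3 / 200 * (C x.1 - Real.cos x.2) * (C x.1 - Real.cos x.2) :=
        mul_le_mul_of_nonneg_left hfb (by positivity)
    _ = 3 / 200 * (C x.1 - Real.cos x.2) ^ 2 := by ring

theorem LW_cov (hC : CData C) (hY : YData Y kap) {x : ℝ × ℝ} (hx : |rho C x - 1| < 3 / 50)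
    (t : ℝ) : gL C x (Real.sqrt (fac C Y x)) t ^ 2 + gW C x (Real.sqrt (fac C Y x)) t ^ 2
      = 1 - Y (rho C x) ^ 2 := by
  have h := LW_identity hC hY (z := (x, cov (fac C Y) x t)) hx
  rw [En_cov hC hY, one_mul] at h
  exact h

theorem Z_cov (hC : CData C) (hY : YData Y kap) {x : ℝ × ℝ} (hx : |rho C x - 1| < 3 / 50)
    (t : ℝ) : Zr C Y D (x, cov (fac C Y) x t) ^ 2 + Zi C Y D (x, cov (fac C Y) x t) ^ 2
      = 1 - gL C x (Real.sqrt (fac C Y x)) t ^ 2 := by
  have h := Z_identity (D := D) hC hY (z := (x, cov (fac C Y) x t)) hx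
  rw [En_cov hC hY, one_mul] at h
  exact h

theorem Fint_inner {x : ℝ × ℝ} (hx : |rho C x - 1| < 3 / 50) (p : ℝ × ℝ) :
    Fint C Y D (x, p) = Fin' C Y D (x, p) := if_pos hx

theorem Fint_outer {x : ℝ × ℝ} (hx : ¬ |rho C x - 1| < 3 / 50) (p : ℝ × ℝ) :
    Fint C Y D (x, p) = Fout C Y (x, p) := if_neg hx

theorem Fin_cov (x : ℝ × ℝ) (t : ℝ) :
    Fin' C Y D (x, cov (fac C Y) x t) = gL C x (Real.sqrt (fac C Y x)) t ^ 2
      + 1 / 5 * Zr C Y D (x, cov (fac C Y) x t) := by
  unfold Fin'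
  rfl

theorem Fin_near (hC : CData C) (hY : YData Y kap) {x : ℝ × ℝ} (hx : |rho C x - 1| < 3 / 50)
    (t : ℝ) : |Fint C Y D (x, cov (fac C Y) x t) - gL C x (Real.sqrt (fac C Y x)) t ^ 2|
      ≤ 1 / 5 := by
  have h := Z_cov (D := D) hC hY hx t
  have h1 : Zr C Y D (x, cov (fac C Y) x t) ^ 2 ≤ 1 := by
    nlinarith [sq_nonneg (Zi C Y D (x, cov (fac C Y) x t)),
      sq_nonneg (gL C x (Real.sqrt (fac C Y x)) t)]
  have h2 : |Zr C Y D (x, cov (fac C Y) x t)| ≤ 1 := abs_le_one_iff_mul_self_le_one.2 (by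
    nlinarith)
  rw [Fint_inner hx, Fin_cov, add_sub_cancel_left, abs_mul, abs_of_pos (by norm_num)]
  linarith

theorem Fout_cov (hC : CData C) (hY : YData Y kap) {x : ℝ × ℝ} (t : ℝ) :
    Fout C Y (x, cov (fac C Y) x t)
      = 1 / 100 - fac C Y x * Real.cos t ^ 2 + (1 - (1 - C x.1 / 10) ^ 2) := by
  have hf := Smooth_fac_pos hC hY x
  have hs : Real.sqrt (fac C Y x) ^ 2 = fac C Y x := Real.sq_sqrt hf.le
  unfold Fout
  rw [En_cov hC hY]
  have h : (x, cov (fac C Y) x t).2.1 ^ 2 = fac C Y x * Real.cos t ^ 2 := by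
    simp only [cov]
    rw [mul_pow, hs]
  rw [h]
  ring

theorem outer_bound {x : ℝ × ℝ} (hx : ¬ |rho C x - 1| < 3 / 50) : 1 / 20 ≤ |rho C x - 1| := by
  have := not_lt.1 hx
  linarith

/-- the numerical bound for the derivative of `Zr` -/
theorem num_bound {a b c s L W U d e Z : ℝ} (hab : a ^ 2 + b ^ 2 = 1) (hcs : c ^ 2 + s ^ 2 = 1)
    (hLW : L ^ 2 + W ^ 2 = 1 - U ^ 2) (hU : |U| ≤ 3 / 50) (hd : |d| ≤ 1 / 100)
    (he : |e| ≤ 3 / 100) (hZ : |Z| ≤ 1) :
    |-(W * d - L ^ 2 * e) * Z + ((a * c - b * s) * (-(2 * L * W) / (1 + U))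
      - (b * c + a * s) * ((W ^ 2 - L ^ 2) / (1 + U)))| ≤ 11 / 10 := by
  have hU' := abs_le.1 hU
  have hU1 : 0 < 1 + U := by linarith [hU'.1]
  have hW2 : W ^ 2 ≤ 1 := by nlinarith [sq_nonneg L, sq_nonneg U]
  have hL2 : L ^ 2 ≤ 1 := by nlinarith [sq_nonneg W, sq_nonneg U]
  have hW : |W| ≤ 1 := abs_le_one_iff_mul_self_le_one.2 (by nlinarith)
  have h1 : |W * d - L ^ 2 * e| ≤ 1 / 25 := by
    have e1 : |W * d| ≤ 1 * (1 / 100) := by
      rw [abs_mul]
      exact mul_le_mul hW hd (abs_nonneg _) zero_le_one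
    have e2 : |L ^ 2 * e| ≤ 1 * (3 / 100) := by
      rw [abs_mul, abs_of_nonneg (sq_nonneg L)]
      exact mul_le_mul hL2 he (abs_nonneg _) zero_le_one
    have e3 := abs_sub (W * d) (L ^ 2 * e)
    linarith
  have h2 : |-(W * d - L ^ 2 * e) * Z| ≤ 1 / 25 := by
    rw [abs_mul, abs_neg]
    calc |W * d - L ^ 2 * e| * |Z| ≤ 1 / 25 * 1 :=
          mul_le_mul h1 hZ (abs_nonneg _) (by norm_num)
      _ = 1 / 25 := by norm_num
  set X : ℝ := -(2 * L * W) / (1 + U) with hX
  set V : ℝ := (W ^ 2 - L ^ 2) / (1 + U) with hV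
  have h3 : X ^ 2 + V ^ 2 = (1 - U) ^ 2 := by
    rw [hX, hV, div_pow, div_pow, ← add_div, div_eq_iff (by positivity)]
    have : (-(2 * L * W)) ^ 2 + (W ^ 2 - L ^ 2) ^ 2 = (L ^ 2 + W ^ 2) ^ 2 := by ring
    rw [this, hLW]
    ring
  have h4 : (a * c - b * s) ^ 2 + (b * c + a * s) ^ 2 = 1 := by
    have : (a * c - b * s) ^ 2 + (b * c + a * s) ^ 2 = (a ^ 2 + b ^ 2) * (c ^ 2 + s ^ 2) := by ring
    rw [this, hab, hcs, one_mul]
  have h5 : ((a * c - b * s) * X - (b * c + a * s) * V) ^ 2 ≤ (1 - U) ^ 2 := by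
    have e1 : ((a * c - b * s) * X - (b * c + a * s) * V) ^ 2
        + ((a * c - b * s) * V + (b * c + a * s) * X) ^ 2
        = ((a * c - b * s) ^ 2 + (b * c + a * s) ^ 2) * (X ^ 2 + V ^ 2) := by ring
    rw [h4, h3, one_mul] at e1
    nlinarith [sq_nonneg ((a * c - b * s) * V + (b * c + a * s) * X)]
  have h6 : |(a * c - b * s) * X - (b * c + a * s) * V| ≤ 1 - U :=
    abs_le_of_sq_le_sq h5 (by linarith [hU'.2])
  have h7 := abs_add_le (-(W * d - L ^ 2 * e) * Z) ((a * c - b * s) * X - (b * c + a * s) * V)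
  linarith [hU'.1]

/-- sign and size of the main term -/
theorem num_main {L W U A B a b : ℝ} (hLW : L ^ 2 + W ^ 2 = 1 - U ^ 2) (hU : |U| ≤ 3 / 50)
    (h1 : 1 / 4 < L ^ 2) (h2 : L ^ 2 < 3 / 4) (hA : L = A + a) (hB : W = B - b)
    (hAB : 0 ≤ A * B) (ha : a ^ 2 ≤ 3 / 200) (hb : b ^ 2 ≤ 3 / 200) :
    21 / 50 ≤ L * W := by
  have hU2 : U ^ 2 ≤ 9 / 2500 := by
    have := sq_le_sq' (abs_le.1 hU).1 (abs_le.1 hU).2
    linarith
  have hW2 : 6 / 25 < W ^ 2 := by linarith
  have hprod : 9 / 50 < L ^ 2 * W ^ 2 := by nlinarith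
  have hLW0 : 0 < L * W := by
    by_contra hcon
    push Not at hcon
    have ha' : |a| ≤ 1 / 8 := abs_le_of_sq_le_sq (by linarith) (by norm_num)
    have hb' : |b| ≤ 1 / 8 := abs_le_of_sq_le_sq (by linarith) (by norm_num)
    have ha1 := abs_le.1 ha'
    have hb1 := abs_le.1 hb'
    have hL' : 1 / 2 < |L| := by
      have : (1 / 2 : ℝ) ^ 2 < |L| ^ 2 := by rw [sq_abs]; linarith
      exact lt_of_pow_lt_pow_left₀ 2 (abs_nonneg _) this
    have hW' : 12 / 25 < |W| := by
      have : (12 / 25 : ℝ) ^ 2 < |W| ^ 2 := by rw [sq_abs]; linarith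
      exact lt_of_pow_lt_pow_left₀ 2 (abs_nonneg _) this
    rcases lt_abs.1 hL' with hL | hL <;> rcases lt_abs.1 hW' with hW | hW
    · nlinarith
    · have e1 : 0 < A := by linarith [ha1.2]
      have e2 : B < 0 := by linarith [hb1.1]
      nlinarith
    · have e1 : A < 0 := by linarith [ha1.1]
      have e2 : 0 < B := by linarith [hb1.2]
      nlinarith
    · nlinarith
  by_contra hcon
  push Not at hcon
  nlinarith

end GraphIneq

open GraphIneq

theorem graph_zero (hC : CData C) (hY : YData Y kap) (hD : DData kap D) (x : ℝ × ℝ) :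
    Fint C Y D (x, cov (fac C Y) x 0) ≤ 9 / 20 := by
  by_cases hx : |rho C x - 1| < 3 / 50
  · have h1 := (abs_le.1 (Fin_near (D := D) hC hY hx 0)).2
    have h2 := small_term hC hY hx 1 (by norm_num)
    have h3 : gL C x (Real.sqrt (fac C Y x)) 0
        = Real.sin x.2 * (Real.sqrt (fac C Y x) * 1) / (C x.1 - Real.cos x.2) := by
      simp [gL]
    rw [← h3] at h2
    linarith
  · rw [Fint_outer hx, Fout_cov hC hY, fac_outer hC hY (outer_bound hx)]
    have h2 := Real.cos_le_one x.2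
    simp only [Real.cos_zero]
    nlinarith

theorem graph_one (hC : CData C) (hY : YData Y kap) (hD : DData kap D) (x : ℝ × ℝ) :
    11 / 20 ≤ Fint C Y D (x, cov (fac C Y) x (Real.pi / 2)) := by
  by_cases hx : |rho C x - 1| < 3 / 50
  · have h1 := (abs_le.1 (Fin_near (D := D) hC hY hx (Real.pi / 2))).1
    have h2 := small_term hC hY hx 1 (by norm_num)
    have h3 : gW C x (Real.sqrt (fac C Y x)) (Real.pi / 2)
        = -(Real.sin x.2 * (Real.sqrt (fac C Y x) * 1) / (C x.1 - Real.cos x.2)) := by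
      simp [gW, neg_div]
    have h4 := LW_cov hC hY hx (Real.pi / 2)
    rw [h3, neg_sq] at h4
    have hU2 : Y (rho C x) ^ 2 ≤ 9 / 2500 := by
      have hU := U_bound hY hx
      have := sq_le_sq' (abs_le.1 hU).1 (abs_le.1 hU).2
      linarith
    linarith
  · rw [Fint_outer hx, Fout_cov hC hY]
    have h := abs_le.1 (hC.bound x.1)
    simp only [Real.cos_pi_div_two]
    nlinarith [h.1, h.2]

theorem graph_mono (hC : CData C) (hY : YData Y kap) (hD : DData kap D)
    (hb : ∀ u p : ℝ, |p| ≤ 1 → |D (u, p)| ≤ 1 / 100 ∧ |fderiv ℝ D (u, p) (0, 1)| ≤ 3 / 100)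
    (x : ℝ × ℝ) (θ : ℝ) (h0 : 0 < θ) (h1 : θ < Real.pi / 2)
    (ha : 9 / 20 < Fint C Y D (x, cov (fac C Y) x θ))
    (hb' : Fint C Y D (x, cov (fac C Y) x θ) < 11 / 20) :
    ∃ c : ℝ, 0 < c ∧ HasDerivAt (fun t : ℝ => Fint C Y D (x, cov (fac C Y) x t)) c θ := by
  have hcos : 0 < Real.cos θ := Real.cos_pos_of_mem_Ioo ⟨by linarith, h1⟩
  have hsin : 0 < Real.sin θ := Real.sin_pos_of_pos_of_lt_pi h0 (by linarith [Real.pi_pos])
  have hf := Smooth_fac_pos hC hY x
  by_cases hx : |rho C x - 1| < 3 / 50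
  · set r := Real.sqrt (fac C Y x) with hr
    have hr0 : 0 < r := Real.sqrt_pos.2 hf
    set U := Y (rho C x) with hU
    have hL := hasDerivAt_gL (C := C) x r θ
    have hW := hasDerivAt_gW (C := C) x r θ
    have hD' : HasDerivAt (fun t => D (U, gW C x r t))
        (-gL C x r θ * fderiv ℝ D (U, gW C x r θ) (0, 1)) θ := by
      have e1 : HasDerivAt (fun t => (U, gW C x r t)) ((0 : ℝ), -gL C x r θ) θ :=
        (hasDerivAt_const θ U).prodMk hW
      have e2 : HasFDerivAt D (fderiv ℝ D (U, gW C x r θ)) (U, gW C x r θ) :=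
        (hD.smooth.differentiable (by simp) _).hasFDerivAt
      have e3 := e2.comp_hasDerivAt θ e1
      have e4 : ((0 : ℝ), -gL C x r θ) = (-gL C x r θ) • ((0 : ℝ), (1 : ℝ)) := by simp
      rw [e4, map_smul, smul_eq_mul] at e3
      exact e3
    have hT := hL.mul hD'
    have hTc := hT.cos
    have hTs := hT.sin
    have hBr : HasDerivAt (fun t => 1 - gL C x r t ^ 2 / (1 + U))
        (-(2 * gL C x r θ * gW C x r θ) / (1 + U)) θ := by
      have h : HasDerivAt (fun t => 1 - gL C x r t ^ 2 / (1 + U)) _ θ :=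
        ((hL.pow 2).div_const (1 + U)).const_sub 1
      refine h.congr_deriv ?_
      simp only [Nat.cast_ofNat, Nat.add_one_sub_one, pow_one]
      ring
    have hBi : HasDerivAt (fun t => gL C x r t * gW C x r t / (1 + U))
        ((gW C x r θ ^ 2 - gL C x r θ ^ 2) / (1 + U)) θ := by
      have h : HasDerivAt (fun t => gL C x r t * gW C x r t / (1 + U)) _ θ :=
        (hL.mul hW).div_const (1 + U)
      refine h.congr_deriv ?_
      ring
    have hZ := (((hTc.const_mul (ca C x)).sub (hTs.const_mul (sa C x))).mul hBr).sub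
      (((hTc.const_mul (sa C x)).add (hTs.const_mul (ca C x))).mul hBi)
    have hG := (hL.pow 2).add (hZ.const_mul (1 / 5))
    have hfun : (fun t : ℝ => Fint C Y D (x, cov (fac C Y) x t)) = fun t =>
        gL C x r t ^ 2 + 1 / 5 *
          ((ca C x * Real.cos (gL C x r t * D (U, gW C x r t))
            - sa C x * Real.sin (gL C x r t * D (U, gW C x r t)))
            * (1 - gL C x r t ^ 2 / (1 + U))
          - (sa C x * Real.cos (gL C x r t * D (U, gW C x r t))
            + ca C x * Real.sin (gL C x r t * D (U, gW C x r t)))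
            * (gL C x r t * gW C x r t / (1 + U))) := by
      funext t
      rw [Fint_inner hx, Fin_cov]
      unfold Zr
      rw [Th_cov hC hY, Br_cov hC hY, Bi_cov]
    rw [hfun]
    refine ⟨_, ?_, hG⟩
    -- the inequality
    have hLW := LW_cov hC hY hx θ
    rw [← hr, ← hU] at hLW
    have hUb := U_bound hY hx
    rw [← hU] at hUb
    have hnear := Fin_near (D := D) hC hY hx θ
    rw [← hr] at hnear
    have hn := abs_le.1 hnear
    have hLl : 1 / 4 < gL C x r θ ^ 2 := by linarith [hn.2]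
    have hLu : gL C x r θ ^ 2 < 3 / 4 := by linarith [hn.1]
    have hm := Smooth_sub_pos hC x
    have hmain : 21 / 50 ≤ gL C x r θ * gW C x r θ := by
      refine num_main (A := deriv C x.1 * (r * Real.sin θ) / (C x.1 - Real.cos x.2))
        (B := deriv C x.1 * (r * Real.cos θ) / (C x.1 - Real.cos x.2))
        (a := Real.sin x.2 * (r * Real.cos θ) / (C x.1 - Real.cos x.2))
        (b := Real.sin x.2 * (r * Real.sin θ) / (C x.1 - Real.cos x.2))
        hLW hUb hLl hLu ?_ ?_ ?_ ?_ ?_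
      · unfold gL
        ring
      · unfold gW
        ring
      · have : deriv C x.1 * (r * Real.sin θ) / (C x.1 - Real.cos x.2)
            * (deriv C x.1 * (r * Real.cos θ) / (C x.1 - Real.cos x.2))
            = (deriv C x.1 / (C x.1 - Real.cos x.2)) ^ 2 * (r * Real.sin θ) * (r * Real.cos θ) := by
          ring
        rw [this]
        positivity
      · exact small_term hC hY hx (Real.cos θ) (by
          have := Real.sin_sq_add_cos_sq θ
          nlinarith [sq_nonneg (Real.sin θ)])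
      · exact small_term hC hY hx (Real.sin θ) (by
          have := Real.sin_sq_add_cos_sq θ
          nlinarith [sq_nonneg (Real.cos θ)])
    -- the bound on the correction
    have hWb : |gW C x r θ| ≤ 1 := abs_le_one_iff_mul_self_le_one.2 (by
      nlinarith [sq_nonneg (gL C x r θ), sq_nonneg U])
    obtain ⟨hd, he⟩ := hb U (gW C x r θ) hWb
    have hZc := Z_cov (D := D) hC hY hx θ
    rw [← hr] at hZc
    have hZi : |Zi C Y D (x, cov (fac C Y) x θ)| ≤ 1 := abs_le_one_iff_mul_self_le_one.2 (by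
      nlinarith [sq_nonneg (Zr C Y D (x, cov (fac C Y) x θ)), sq_nonneg (gL C x r θ)])
    have hZie : Zi C Y D (x, cov (fac C Y) x θ)
        = (ca C x * Real.cos (gL C x r θ * D (U, gW C x r θ))
            - sa C x * Real.sin (gL C x r θ * D (U, gW C x r θ)))
            * (gL C x r θ * gW C x r θ / (1 + U))
          + (sa C x * Real.cos (gL C x r θ * D (U, gW C x r θ))
            + ca C x * Real.sin (gL C x r θ * D (U, gW C x r θ)))
            * (1 - gL C x r θ ^ 2 / (1 + U)) := by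
      unfold Zi
      rw [Th_cov hC hY, Br_cov hC hY, Bi_cov]
    have hnb := num_bound (a := ca C x) (b := sa C x)
      (c := Real.cos (gL C x r θ * D (U, gW C x r θ)))
      (s := Real.sin (gL C x r θ * D (U, gW C x r θ))) (L := gL C x r θ) (W := gW C x r θ)
      (U := U) (d := D (U, gW C x r θ)) (e := fderiv ℝ D (U, gW C x r θ) (0, 1))
      (Z := Zi C Y D (x, cov (fac C Y) x θ)) (ca_sa hC hx) (Real.cos_sq_add_sin_sq _) hLW hUb
      hd he hZi
    have hnb' := (abs_le.1 hnb).1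
    rw [hZie] at hnb'
    norm_num at hnb' ⊢
    linarith
  · have hfun : (fun t : ℝ => Fint C Y D (x, cov (fac C Y) x t)) = fun t =>
        1 / 100 - fac C Y x * Real.cos t ^ 2 + (1 - (1 - C x.1 / 10) ^ 2) := by
      funext t
      rw [Fint_outer hx, Fout_cov hC hY]
    rw [hfun]
    refine ⟨2 * fac C Y x * Real.cos θ * Real.sin θ, by positivity, ?_⟩
    have h2 : HasDerivAt (fun t : ℝ =>
        1 / 100 - fac C Y x * Real.cos t ^ 2 + (1 - (1 - C x.1 / 10) ^ 2)) _ θ :=
      ((((Real.hasDerivAt_cos θ).pow 2).const_mul (fac C Y x)).const_sub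
        (1 / 100)).add_const (1 - (1 - C x.1 / 10) ^ 2)
    refine h2.congr_deriv ?_
    norm_num
    ring

end Pool.Agent.TorusInt
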