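import Pool.Agent.TorusInt.Defs

/-! Module InnerH (doc section 4): the first integral is constant along the flow in the annulus. -/

set_option autoImplicit false

open scoped ContDiff

namespace Pool.Agent.TorusInt

variable {C Y kap : ℝ → ℝ} {D : ℝ × ℝ → ℝ}

namespace InnerH

lemma ld {f : ℝ → ℝ} {a b f' : ℝ} (h : HasDerivAt f f' a) :
    HasDerivAt (fun t : ℝ => f (a + t * b)) (f' * b) 0 := by
  have h1 : HasDerivAt (fun t : ℝ => a + t * b) b 0 := by
    simpa using ((hasDerivAt_id (0 : ℝ)).mul_const b).const_add a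
  have h2 : HasDerivAt f f' (a + 0 * b) := by simpa using h
  exact h2.comp (0 : ℝ) h1

/-- The abstract computation. -/
lemma core {D : ℝ × ℝ → ℝ} (hD : ContDiff ℝ ∞ D) {L W E U ca sa : ℝ → ℝ} {μ g κ : ℝ}
    (hL : HasDerivAt L 0 0) (hE : HasDerivAt E 0 0) (hU : HasDerivAt U (μ * W 0 / g) 0)
    (hW : HasDerivAt W (-(μ * E 0 * U 0 / g)) 0) (hca : HasDerivAt ca (-(μ * L 0 * sa 0)) 0)
    (hsa : HasDerivAt sa (μ * L 0 * ca 0) 0) (hg : g = 1 / (1 + U 0) + U 0 * κ) (hg0 : g ≠ 0)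
    (hU0 : 1 + U 0 ≠ 0) (hE0 : 0 < E 0)
    (hpde : (W 0 / Real.sqrt (E 0)) * fderiv ℝ D (U 0, W 0 / Real.sqrt (E 0)) (1, 0) -
      U 0 * fderiv ℝ D (U 0, W 0 / Real.sqrt (E 0)) (0, 1) = -U 0 * κ)
    (hrel : L 0 ^ 2 + W 0 ^ 2 = E 0 * (1 - U 0 ^ 2)) :
    HasDerivAt (fun t => L t ^ 2 + 1 / 5 *
      ((ca t * Real.cos (L t / Real.sqrt (E t) * D (U t, W t / Real.sqrt (E t))) -
          sa t * Real.sin (L t / Real.sqrt (E t) * D (U t, W t / Real.sqrt (E t)))) *
        (E t - L t ^ 2 / (1 + U t)) -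
       (sa t * Real.cos (L t / Real.sqrt (E t) * D (U t, W t / Real.sqrt (E t))) +
          ca t * Real.sin (L t / Real.sqrt (E t) * D (U t, W t / Real.sqrt (E t)))) *
        (L t * W t / (1 + U t)))) 0 0 := by
  have hs0 : Real.sqrt (E 0) ≠ 0 := (Real.sqrt_pos.mpr hE0).ne'
  have hss : Real.sqrt (E 0) * Real.sqrt (E 0) = E 0 := Real.mul_self_sqrt hE0.le
  have hsq : HasDerivAt (fun t => Real.sqrt (E t)) 0 0 := by
    have := hE.sqrt hE0.ne'
    simpa using this
  have hP : HasDerivAt (fun t => W t / Real.sqrt (E t))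
      (-(μ * E 0 * U 0 / g) / Real.sqrt (E 0)) 0 := by
    have := hW.div hsq hs0
    refine this.congr_deriv ?_
    field_simp
    ring
  have hLs : HasDerivAt (fun t => L t / Real.sqrt (E t)) 0 0 := by
    have := hL.div hsq hs0
    refine this.congr_deriv ?_
    simp
  have hDf : HasFDerivAt D (fderiv ℝ D (U 0, W 0 / Real.sqrt (E 0)))
      (U 0, W 0 / Real.sqrt (E 0)) :=
    ((hD.differentiable (by simp)) _).hasFDerivAt
  have hDt : HasDerivAt (fun t => D (U t, W t / Real.sqrt (E t)))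
      (fderiv ℝ D (U 0, W 0 / Real.sqrt (E 0))
        (μ * W 0 / g, -(μ * E 0 * U 0 / g) / Real.sqrt (E 0))) 0 :=
    hDf.comp_hasDerivAt (0 : ℝ) (hU.prodMk hP)
  have hval : fderiv ℝ D (U 0, W 0 / Real.sqrt (E 0))
        (μ * W 0 / g, -(μ * E 0 * U 0 / g) / Real.sqrt (E 0)) =
      μ * Real.sqrt (E 0) / g * (-U 0 * κ) := by
    have h1 : ((μ * W 0 / g, -(μ * E 0 * U 0 / g) / Real.sqrt (E 0)) : ℝ × ℝ) =
        (μ * W 0 / g) • ((1 : ℝ), (0 : ℝ)) +
          (-(μ * E 0 * U 0 / g) / Real.sqrt (E 0)) • ((0 : ℝ), (1 : ℝ)) := by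
      ext <;> simp
    rw [h1, map_add, map_smul, map_smul, smul_eq_mul, smul_eq_mul, ← hpde]
    generalize fderiv ℝ D (U 0, W 0 / Real.sqrt (E 0)) (1, 0) = A
    generalize fderiv ℝ D (U 0, W 0 / Real.sqrt (E 0)) (0, 1) = B
    clear hDt hP hLs hsq hDf hpde h1
    generalize Real.sqrt (E 0) = w at *
    rw [← hss]
    field_simp
    ring
  rw [hval] at hDt
  set Θ : ℝ → ℝ := fun t => L t / Real.sqrt (E t) * D (U t, W t / Real.sqrt (E t)) with hΘ
  have hΘd : HasDerivAt Θ (-(μ * L 0 / g) * (U 0 * κ)) 0 := by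
    have := hLs.mul hDt
    refine this.congr_deriv ?_
    field_simp
    ring
  set X : ℝ → ℝ := fun t => ca t * Real.cos (Θ t) - sa t * Real.sin (Θ t) with hX
  set Z : ℝ → ℝ := fun t => sa t * Real.cos (Θ t) + ca t * Real.sin (Θ t) with hZ
  have hXd : HasDerivAt X (-(μ * L 0 - μ * L 0 / g * (U 0 * κ)) * Z 0) 0 := by
    have := (hca.mul hΘd.cos).sub (hsa.mul hΘd.sin)
    refine this.congr_deriv ?_
    simp only [hZ]
    ring
  have hZd : HasDerivAt Z ((μ * L 0 - μ * L 0 / g * (U 0 * κ)) * X 0) 0 := by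
    have := (hsa.mul hΘd.cos).add (hca.mul hΘd.sin)
    refine this.congr_deriv ?_
    simp only [hX]
    ring
  have hω : μ * L 0 - μ * L 0 / g * (U 0 * κ) = μ * L 0 / ((1 + U 0) * g) := by
    have h1 : U 0 * κ = g - 1 / (1 + U 0) := by rw [hg]; ring
    rw [h1]
    field_simp
    ring
  rw [hω] at hXd hZd
  have hU1 : HasDerivAt (fun t => 1 + U t) (μ * W 0 / g) 0 := hU.const_add 1
  have hBr : HasDerivAt (fun t => E t - L t ^ 2 / (1 + U t))
      (L 0 ^ 2 * (μ * W 0) / (g * (1 + U 0) ^ 2)) 0 := by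
    have := hE.sub ((hL.pow 2).div hU1 hU0)
    refine this.congr_deriv ?_
    simp only [Pi.pow_apply]
    field_simp
    ring
  have hBi : HasDerivAt (fun t => L t * W t / (1 + U t))
      (-(L 0 * μ * E 0 * U 0 / (g * (1 + U 0))) - L 0 * μ * W 0 ^ 2 / (g * (1 + U 0) ^ 2)) 0 := by
    have := (hL.mul hW).div hU1 hU0
    refine this.congr_deriv ?_
    simp only [Pi.mul_apply]
    field_simp
    ring
  have hfin := (hL.pow 2).add (((hXd.mul hBr).sub (hZd.mul hBi)).const_mul (1 / 5))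
  refine hfin.congr_deriv ?_
  have hW2 : W 0 ^ 2 = E 0 * (1 - U 0 ^ 2) - L 0 ^ 2 := by linarith
  field_simp
  rw [hW2]
  ring

/-- The derivative of the conformal factor along a line. -/
lemma fac_line (hC : CData C) (hY : ContDiff ℝ ∞ Y) {ξ η : ℝ} (hρ : C ξ + Real.cos η ≠ 0)
    (a b : ℝ) :
    HasDerivAt (fun t : ℝ => fac C Y (ξ + t * a, η + t * b))
      ((deriv C ξ * a + Real.sin η * b) / (C ξ + Real.cos η) * (1 - Y (rho C (ξ, η)) ^ 2) +
        (C ξ - Real.cos η) / (C ξ + Real.cos η) *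
          (-(2 * Y (rho C (ξ, η)) * (deriv Y (rho C (ξ, η)) *
              ((deriv C ξ * a - Real.sin η * b) / 10))) -
            (1 - Y (rho C (ξ, η)) ^ 2) * ((deriv C ξ * a - Real.sin η * b) /
              (C ξ + Real.cos η)))) 0 := by
  have hc : HasDerivAt (fun t : ℝ => C (ξ + t * a)) (deriv C ξ * a) 0 :=
    ld ((hC.smooth.differentiable (by simp)) _).hasDerivAt
  have hk : HasDerivAt (fun t : ℝ => Real.cos (η + t * b)) (-Real.sin η * b) 0 :=
    ld (Real.hasDerivAt_cos η)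
  have hr : HasDerivAt (fun t : ℝ => (C (ξ + t * a) + Real.cos (η + t * b)) / 10)
      ((deriv C ξ * a + -Real.sin η * b) / 10) 0 := (hc.add hk).div_const 10
  have hU : HasDerivAt (fun t : ℝ => Y ((C (ξ + t * a) + Real.cos (η + t * b)) / 10))
      (deriv Y ((C ξ + Real.cos η) / 10) * ((deriv C ξ * a + -Real.sin η * b) / 10)) 0 := by
    have h1 : HasDerivAt Y (deriv Y ((C ξ + Real.cos η) / 10))
        ((C (ξ + 0 * a) + Real.cos (η + 0 * b)) / 10) := by
      rw [zero_mul, zero_mul, add_zero, add_zero]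
      exact ((hY.differentiable (by simp)) _).hasDerivAt
    exact h1.comp (0 : ℝ) hr
  have h0 : (C (ξ + 0 * a) + Real.cos (η + 0 * b)) / 10 ≠ 0 := by
    rw [zero_mul, zero_mul, add_zero, add_zero]
    exact div_ne_zero hρ (by norm_num)
  have h2 := ((hc.sub hk).div_const 10).mul (((hU.pow 2).const_sub 1).div hr h0)
  simp only [fac, rho]
  refine h2.congr_deriv ?_
  simp only [zero_mul, add_zero, Pi.sub_apply, Pi.pow_apply, Pi.div_apply]
  field_simp
  ring

lemma fac_diff (hC : CData C) (hY : ContDiff ℝ ∞ Y) {ξ η : ℝ} (hρ : C ξ + Real.cos η ≠ 0) :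
    DifferentiableAt ℝ (fac C Y) (ξ, η) := by
  have h1 : Differentiable ℝ C := hC.smooth.differentiable (by simp)
  have h2 : Differentiable ℝ Y := hY.differentiable (by simp)
  have h3 : DifferentiableAt ℝ (fun x : ℝ × ℝ => C x.1) (ξ, η) :=
    (h1 _).comp (ξ, η) differentiableAt_fst
  have h4 : DifferentiableAt ℝ (fun x : ℝ × ℝ => Real.cos x.2) (ξ, η) :=
    (Real.differentiable_cos _).comp (ξ, η) differentiableAt_snd
  have h5 : DifferentiableAt ℝ (rho C) (ξ, η) := by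
    have : rho C = fun x : ℝ × ℝ => (C x.1 + Real.cos x.2) * (10 : ℝ)⁻¹ := by
      funext x; exact div_eq_mul_inv _ _
    rw [this]
    exact (h3.fun_add h4).mul_const _
  have h6 : DifferentiableAt ℝ (fun x : ℝ × ℝ => Y (rho C x)) (ξ, η) := (h2 _).comp (ξ, η) h5
  have h7 : rho C (ξ, η) ≠ 0 := div_ne_zero hρ (by norm_num)
  have h8 : fac C Y = fun x : ℝ × ℝ => (C x.1 - Real.cos x.2) * (10 : ℝ)⁻¹ *
      ((1 - Y (rho C x) ^ 2) * (rho C x)⁻¹) := by
    funext x
    rw [fac, div_eq_mul_inv, div_eq_mul_inv]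
  rw [h8]
  exact ((h3.fun_sub h4).mul_const _).fun_mul (((h6.fun_pow 2).const_sub 1).fun_mul (h5.fun_inv h7))

lemma fderiv_fac (hC : CData C) (hY : ContDiff ℝ ∞ Y) {ξ η : ℝ} (hρ : C ξ + Real.cos η ≠ 0)
    (a b : ℝ) :
    fderiv ℝ (fac C Y) (ξ, η) (a, b) =
      ((deriv C ξ * a + Real.sin η * b) / (C ξ + Real.cos η) * (1 - Y (rho C (ξ, η)) ^ 2) +
        (C ξ - Real.cos η) / (C ξ + Real.cos η) *
          (-(2 * Y (rho C (ξ, η)) * (deriv Y (rho C (ξ, η)) *
              ((deriv C ξ * a - Real.sin η * b) / 10))) -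
            (1 - Y (rho C (ξ, η)) ^ 2) * ((deriv C ξ * a - Real.sin η * b) /
              (C ξ + Real.cos η)))) := by
  have h1 := fac_line hC hY hρ a b
  have h2 : HasDerivAt (fun t : ℝ => ((ξ + t * a, η + t * b) : ℝ × ℝ)) (a, b) 0 := by
    have e1 : HasDerivAt (fun t : ℝ => ξ + t * a) a 0 := by
      simpa using ((hasDerivAt_id (0 : ℝ)).mul_const a).const_add ξ
    have e2 : HasDerivAt (fun t : ℝ => η + t * b) b 0 := by
      simpa using ((hasDerivAt_id (0 : ℝ)).mul_const b).const_add η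
    exact e1.prodMk e2
  have h3 : HasFDerivAt (fac C Y) (fderiv ℝ (fac C Y) (ξ, η)) (ξ + 0 * a, η + 0 * b) := by
    rw [zero_mul, zero_mul, add_zero, add_zero]
    exact (fac_diff hC hY hρ).hasFDerivAt
  have h4 : HasDerivAt (fac C Y ∘ fun t : ℝ => ((ξ + t * a, η + t * b) : ℝ × ℝ))
      (fderiv ℝ (fac C Y) (ξ, η) (a, b)) 0 := h3.comp_hasDerivAt (0 : ℝ) h2
  exact h4.unique h1

end InnerH

open InnerH

theorem inner_H (hC : CData C) (hY : YData Y kap) (hD : DData kap D)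
    {z : (ℝ × ℝ) × (ℝ × ℝ)} (hz : |rho C z.1 - 1| < 3 / 50) (hp : z.2 ≠ 0) :
    HasDerivAt (fun t : ℝ => Fin' C Y D (z + t • vH C Y z)) 0 0 := by
  obtain ⟨⟨ξ, η⟩, ⟨p, q⟩⟩ := z
  simp only at hz hp
  -- notation
  set c := C ξ with hc
  set c1 := deriv C ξ with hc1
  set k := Real.cos η with hk
  set s := Real.sin η with hs
  have hk1 : |k| ≤ 1 := Real.abs_cos_le_one η
  have hks : s ^ 2 = 1 - k ^ 2 := by rw [hs, hk]; linarith [Real.sin_sq_add_cos_sq η]
  have hrho : rho C (ξ, η) = (c + k) / 10 := rfl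
  have hz' : |(c + k) / 10 - 1| < 3 / 50 := hz
  have hband : |c / 10 - 1| < 4 / 25 := by
    rw [abs_lt] at hz' ⊢
    rw [abs_le] at hk1
    constructor <;> linarith [hz'.1, hz'.2, hk1.1, hk1.2]
  have hcc : c1 ^ 2 = c ^ 2 - 1 := hC.band1 ξ hband
  have hc2 : deriv (deriv C) ξ = c := hC.band2 ξ hband
  have hb := abs_lt.mp hband
  have hkk := abs_le.mp hk1
  have hcmk : 0 < c - k := by linarith [hb.1, hkk.2]
  have hcpk : 0 < c + k := by linarith [hb.1, hkk.1]
  set r := rho C (ξ, η) with hr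
  set U := Y r with hU
  have hUb : |U| ≤ 3 / 50 := by
    by_cases h : |r - 1| ≤ 1 / 20
    · exact (hY.small r h).trans (by norm_num)
    · push Not at h
      rw [hU, hY.out r h.le]
      exact hz.le
  have hUl := abs_le.mp hUb
  have hU1 : 0 < 1 + U := by linarith [hUl.1]
  have hU2 : 0 < 1 - U ^ 2 := by nlinarith [hUl.1, hUl.2]
  have hr0 : 0 < r := by rw [hrho]; linarith
  set g := 1 / (1 + U) + U * kap (U ^ 2) with hg
  have hode : deriv Y r * g = 1 / r := hY.ode r hr0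
  have hg0 : g ≠ 0 := by
    intro h
    rw [h, mul_zero] at hode
    exact (one_div_pos.mpr hr0).ne hode
  have hY' : deriv Y r = 10 / ((c + k) * g) := by
    rw [hrho] at hode ⊢
    rw [eq_div_iff (mul_ne_zero hcpk.ne' hg0)]
    field_simp at hode ⊢
    linarith
  set μ := (c - k) / (c + k) with hμ
  have hμ0 : 0 < μ := div_pos hcmk hcpk
  have hfac : fac C Y (ξ, η) = μ * (1 - U ^ 2) := by
    have h1 : fac C Y (ξ, η) = (c - k) / 10 * ((1 - U ^ 2) / ((c + k) / 10)) := rfl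
    rw [h1, hμ]
    field_simp
  have hf0 : 0 < fac C Y (ξ, η) := by rw [hfac]; exact mul_pos hμ0 hU2
  have hN : 0 < p ^ 2 + q ^ 2 := by
    rcases eq_or_ne p 0 with h | h
    · rcases eq_or_ne q 0 with h' | h'
      · exact absurd (by rw [h, h']; rfl) hp
      · positivity
    · positivity
  set E := En C Y ((ξ, η), (p, q)) with hE
  have hEN : E * fac C Y (ξ, η) = p ^ 2 + q ^ 2 := by
    rw [hE, En, nsq]
    exact div_mul_cancel₀ _ hf0.ne'
  have hE0 : 0 < E := by
    rw [hE, En, nsq]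
    exact div_pos hN hf0
  -- the gradient of the conformal factor
  set fx := fderiv ℝ (fac C Y) (ξ, η) (1, 0) with hfx
  set fy := fderiv ℝ (fac C Y) (ξ, η) (0, 1) with hfy
  have hfx' : fx = 2 * c1 * k * (1 - U ^ 2) / (c + k) ^ 2 -
      (c - k) / (c + k) * (2 * U * c1 / ((c + k) * g)) := by
    rw [hfx, fderiv_fac hC hY.smoothY hcpk.ne' 1 0, ← hr, ← hc, ← hc1, ← hk, ← hs, ← hU, hY']
    field_simp
    ring
  have hfy' : fy = 2 * c * s * (1 - U ^ 2) / (c + k) ^ 2 +
      (c - k) / (c + k) * (2 * U * s / ((c + k) * g)) := by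
    rw [hfy, fderiv_fac hC hY.smoothY hcpk.ne' 0 1, ← hr, ← hc, ← hc1, ← hk, ← hs, ← hU, hY']
    field_simp
    ring
  set p' := E / 2 * fx with hp'
  set q' := E / 2 * fy with hq'
  have hline : ∀ t : ℝ, (((ξ, η), (p, q)) : (ℝ × ℝ) × (ℝ × ℝ)) + t • vH C Y ((ξ, η), (p, q)) =
      ((ξ + t * p, η + t * q), (p + t * p', q + t * q')) := by
    intro t
    rfl
  simp only [hline]
  -- derivatives
  have dc : HasDerivAt (fun t : ℝ => C (ξ + t * p)) (c1 * p) 0 :=
    ld ((hC.smooth.differentiable (by simp)) _).hasDerivAt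
  have dc1 : HasDerivAt (fun t : ℝ => deriv C (ξ + t * p)) (c * p) 0 := by
    have h1 : ContDiff ℝ ∞ (deriv C) := by
      have := hC.smooth
      rw [show (∞ : WithTop ℕ∞) = ∞ + 1 from rfl, contDiff_succ_iff_deriv] at this
      exact this.2.2
    have h2 := ld (b := p) ((h1.differentiable (by simp)) ξ).hasDerivAt
    rwa [hc2] at h2
  have dk : HasDerivAt (fun t : ℝ => Real.cos (η + t * q)) (-s * q) 0 :=
    ld (Real.hasDerivAt_cos η)
  have ds : HasDerivAt (fun t : ℝ => Real.sin (η + t * q)) (k * q) 0 :=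
    ld (Real.hasDerivAt_sin η)
  have dp : HasDerivAt (fun t : ℝ => p + t * p') p' 0 := by
    simpa using ((hasDerivAt_id (0 : ℝ)).mul_const p').const_add p
  have dq : HasDerivAt (fun t : ℝ => q + t * q') q' 0 := by
    simpa using ((hasDerivAt_id (0 : ℝ)).mul_const q').const_add q
  have z1 : C (ξ + 0 * p) = c := by rw [zero_mul, add_zero]
  have z2 : deriv C (ξ + 0 * p) = c1 := by rw [zero_mul, add_zero]
  have z3 : Real.cos (η + 0 * q) = k := by rw [zero_mul, add_zero]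
  have z4 : Real.sin (η + 0 * q) = s := by rw [zero_mul, add_zero]
  have hmk : C (ξ + 0 * p) - Real.cos (η + 0 * q) ≠ 0 := by rw [z1, z3]; exact hcmk.ne'
  have hpk : C (ξ + 0 * p) + Real.cos (η + 0 * q) ≠ 0 := by rw [z1, z3]; exact hcpk.ne'
  have drho : HasDerivAt (fun t : ℝ => rho C (ξ + t * p, η + t * q)) ((c1 * p + -s * q) / 10) 0 :=
    (dc.add dk).div_const 10
  have dU : HasDerivAt (fun t : ℝ => Y (rho C (ξ + t * p, η + t * q)))
      (deriv Y r * ((c1 * p + -s * q) / 10)) 0 := by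
    have h1 : HasDerivAt Y (deriv Y r) (rho C (ξ + 0 * p, η + 0 * q)) := by
      rw [zero_mul, zero_mul, add_zero, add_zero]
      exact ((hY.smoothY.differentiable (by simp)) _).hasDerivAt
    exact h1.comp (0 : ℝ) drho
  have hEN' : E = (p ^ 2 + q ^ 2) / (μ * (1 - U ^ 2)) := by
    rw [eq_div_iff (mul_ne_zero hμ0.ne' hU2.ne'), ← hfac]
    exact hEN
  have dfac : HasDerivAt (fun t : ℝ => fac C Y (ξ + t * p, η + t * q)) (fx * p + fy * q) 0 := by
    refine (fac_line hC hY.smoothY hcpk.ne' p q).congr_deriv ?_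
    rw [← fderiv_fac hC hY.smoothY hcpk.ne' p q]
    have h1 : ((p, q) : ℝ × ℝ) = p • ((1 : ℝ), (0 : ℝ)) + q • ((0 : ℝ), (1 : ℝ)) := by
      ext <;> simp
    rw [h1, map_add, map_smul, map_smul, smul_eq_mul, smul_eq_mul]
    ring
  have v0 : (((ξ + 0 * p, η + 0 * q), (p + 0 * p', q + 0 * q')) : (ℝ × ℝ) × (ℝ × ℝ)) =
      ((ξ, η), (p, q)) := by simp
  have hA : c1 * q' + s * p' = (p ^ 2 + q ^ 2) * c1 * s / (c - k) := by
    rw [hp', hq', hEN', hfx', hfy', hμ]
    field_simp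
    ring
  have hB : c1 * p' - s * q' = (p ^ 2 + q ^ 2) * (c * k - 1) / (c - k) -
      (p ^ 2 + q ^ 2) * U * (c - k) / ((1 - U ^ 2) * g) := by
    have h1 : c1 * p' - s * q' = (p ^ 2 + q ^ 2) * (c1 ^ 2 * k - c * s ^ 2) / ((c - k) * (c + k)) -
        (p ^ 2 + q ^ 2) * U * (c1 ^ 2 + s ^ 2) / ((c + k) * (1 - U ^ 2) * g) := by
      rw [hp', hq', hEN', hfx', hfy', hμ]
      field_simp
      ring
    rw [h1, hcc, hks]
    field_simp
    ring
  have dE : HasDerivAt (fun t : ℝ => En C Y ((ξ + t * p, η + t * q), (p + t * p', q + t * q')))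
      0 0 := by
    have h0 : fac C Y (ξ + 0 * p, η + 0 * q) ≠ 0 := by
      rw [zero_mul, zero_mul, add_zero, add_zero]
      exact hf0.ne'
    have h1 := ((dp.pow 2).add (dq.pow 2)).div dfac h0
    refine h1.congr_deriv ?_
    simp only [Pi.add_apply, Pi.pow_apply, zero_mul, add_zero]
    rw [div_eq_zero_iff]
    left
    rw [hp', hq', ← hEN]
    push_cast
    ring
  have dL : HasDerivAt (fun t : ℝ => Lz C ((ξ + t * p, η + t * q), (p + t * p', q + t * q')))
      0 0 := by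
    have h1 := ((dc1.mul dq).add (ds.mul dp)).div (dc.sub dk) hmk
    refine h1.congr_deriv ?_
    simp only [Pi.add_apply, Pi.mul_apply, Pi.sub_apply, zero_mul, add_zero]
    rw [← hc, ← hk, ← hc1, ← hs, div_eq_zero_iff]
    left
    have h2 : (c * p * q + c1 * q' + (k * q * p + s * p')) * (c - k) -
        (c1 * q + s * p) * (c1 * p - -s * q) = (c1 * q' + s * p') * (c - k) +
        (c + k) * p * q * (c - k) - (c1 * q + s * p) * (c1 * p + s * q) := by ring
    rw [h2, hA, div_mul_cancel₀ _ hcmk.ne']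
    linear_combination (-(p * q)) * hcc + (-(p * q)) * hks
  have dW : HasDerivAt (fun t : ℝ => Wz C ((ξ + t * p, η + t * q), (p + t * p', q + t * q')))
      (-(μ * E * U / g)) 0 := by
    have h1 := ((dc1.mul dp).sub (ds.mul dq)).div (dc.sub dk) hmk
    refine h1.congr_deriv ?_
    simp only [Pi.mul_apply, Pi.sub_apply, zero_mul, add_zero]
    rw [← hc, ← hk, ← hc1, ← hs]
    have h2 : (c * p * p + c1 * p' - (k * q * q + s * q')) * (c - k) -
        (c1 * p - s * q) * (c1 * p - -s * q) = (c1 * p' - s * q') * (c - k) +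
        (c * p ^ 2 - k * q ^ 2) * (c - k) - (c1 ^ 2 * p ^ 2 - s ^ 2 * q ^ 2) := by ring
    rw [h2, hB, hcc, hks, hEN', hμ]
    field_simp
    ring
  have dca : HasDerivAt (fun t : ℝ => ca C (ξ + t * p, η + t * q))
      (-(μ * ((c1 * q + s * p) / (c - k)) * (c1 * s / (c + k)))) 0 := by
    have h1 := ((dc.mul dk).const_add 1).div (dc.add dk) hpk
    refine h1.congr_deriv ?_
    simp only [Pi.mul_apply, Pi.add_apply, z1, z3]
    rw [hμ]
    field_simp
    linear_combination (c1 * p) * hks + (s * q) * hcc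
  have dsa : HasDerivAt (fun t : ℝ => sa C (ξ + t * p, η + t * q))
      (μ * ((c1 * q + s * p) / (c - k)) * ((1 + c * k) / (c + k))) 0 := by
    have h1 := (dc1.mul ds).div (dc.add dk) hpk
    refine h1.congr_deriv ?_
    simp only [Pi.mul_apply, Pi.add_apply, z1, z2, z3, z4]
    rw [hμ]
    field_simp
    linear_combination (q * c1) * hks - (p * s) * hcc
  have hW0 : Wz C ((ξ, η), (p, q)) = (c1 * p - s * q) / (c - k) := rfl
  have hL0 : Lz C ((ξ, η), (p, q)) = (c1 * q + s * p) / (c - k) := rfl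
  refine core (L := fun t => Lz C ((ξ + t * p, η + t * q), (p + t * p', q + t * q')))
    (W := fun t => Wz C ((ξ + t * p, η + t * q), (p + t * p', q + t * q')))
    (E := fun t => En C Y ((ξ + t * p, η + t * q), (p + t * p', q + t * q')))
    (U := fun t => Y (rho C (ξ + t * p, η + t * q)))
    (ca := fun t => ca C (ξ + t * p, η + t * q)) (sa := fun t => sa C (ξ + t * p, η + t * q))
    (μ := μ) (g := g) (κ := kap (U ^ 2)) hD.smooth dL dE ?_ ?_ ?_ ?_ ?_ hg0 ?_ ?_ ?_ ?_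
  · refine dU.congr_deriv ?_
    simp only [v0, hW0]
    rw [hY', hμ]
    field_simp
    ring
  · refine dW.congr_deriv ?_
    simp only [zero_mul, add_zero]
    rfl
  · refine dca.congr_deriv ?_
    simp only [zero_mul, add_zero]
    rfl
  · refine dsa.congr_deriv ?_
    simp only [zero_mul, add_zero]
    rfl
  · simp only [zero_mul, add_zero]
    rfl
  · simp only [zero_mul, add_zero]
    exact hU1.ne'
  · simp only [v0]
    exact hE0
  · simp only [zero_mul, add_zero]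
    exact hD.pde _ _
  · simp only [zero_mul, add_zero]
    rw [hW0, hL0]
    show _ = E * (1 - U ^ 2)
    rw [hEN', hμ]
    field_simp
    linear_combination ((p ^ 2 + q ^ 2)) * hcc + (p ^ 2 + q ^ 2) * hks

end Pool.Agent.TorusInt
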