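import Pool.Agent.TorusInt.Defs

/-! Module Sep (doc section 6, second part): separability in rotated coordinates. -/

set_option autoImplicit false

open scoped ContDiff

namespace Pool.Agent.TorusInt

namespace Sep

/-- the first derivative of `(1 - cos y / 10) ^ 2` -/
noncomputable def psi1 (y : ℝ) : ℝ := 2 * (1 - Real.cos y / 10) * (Real.sin y / 10)

/-- the second derivative of `(1 - cos y / 10) ^ 2` -/
noncomputable def psi2 (y : ℝ) : ℝ :=
  2 * (Real.sin y / 10) * (Real.sin y / 10) + 2 * (1 - Real.cos y / 10) * (Real.cos y / 10)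

lemma hasDerivAt_psi (c y : ℝ) :
    HasDerivAt (fun y => c + (1 - Real.cos y / 10) ^ 2) (psi1 y) y := by
  have h := (((Real.hasDerivAt_cos y).div_const 10).const_sub 1).pow 2
  refine (h.const_add c).congr_deriv ?_
  unfold psi1
  simp
  ring

lemma hasDerivAt_psi1 (y : ℝ) : HasDerivAt psi1 (psi2 y) y := by
  have h1 := (((Real.hasDerivAt_cos y).div_const 10).const_sub 1).const_mul 2
  have h2 := (Real.hasDerivAt_sin y).div_const 10
  refine (h1.mul h2).congr_deriv ?_
  unfold psi2
  ring

lemma psi2_ne : psi2 0 ≠ psi2 Real.pi := by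
  unfold psi2
  rw [Real.sin_zero, Real.cos_zero, Real.sin_pi, Real.cos_pi]
  norm_num

lemma hasDerivAt_y {g : ℝ → ℝ} {g' : ℝ → ℝ} (hg : ∀ u, HasDerivAt g (g' u) u) (c d y : ℝ) :
    HasDerivAt (fun y => g (c + d * y)) (d * g' (c + d * y)) y := by
  have h1 : HasDerivAt (fun y : ℝ => c + d * y) d y := by
    simpa using ((hasDerivAt_id y).const_mul d).const_add c
  have h2 := (hg (c + d * y)).comp y h1
  refine h2.congr_deriv ?_
  ring

end Sep

open Pool.Agent.TorusInt.Sep

theorem sep_of_form {f : ℝ × ℝ → ℝ} {a b : ℝ} {g₁ g₂ : ℝ → ℝ} (hab : a ≠ 0 ∨ b ≠ 0)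
    (hg₁ : ContDiff ℝ ∞ g₁) (hg₂ : ContDiff ℝ ∞ g₂)
    (hf : ∀ x y, f (x, y) = g₁ (a * x + b * y) + g₂ (-b * x + a * y))
    {φ : ℝ → ℝ} {x₁ r : ℝ} (hr : 0 < r)
    (hstrip : ∀ x y, |x - x₁| < r → f (x, y) = φ x + (1 - Real.cos y / 10) ^ 2) :
    ∀ x x' y y', f (x, y) - f (x, y') = f (x', y) - f (x', y') := by
  by_cases ha : a = 0
  · intro x x' y y'
    rw [hf, hf, hf, hf, ha]
    simp only [zero_mul, zero_add, add_zero]
    ring
  by_cases hb : b = 0
  · intro x x' y y'
    rw [hf, hf, hf, hf, hb]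
    simp only [zero_mul, neg_zero, zero_add, add_zero]
    ring
  exfalso
  have d1 : ∀ u, HasDerivAt g₁ (deriv g₁ u) u := fun u =>
    (hg₁.differentiable (by simp) u).hasDerivAt
  have d2 : ∀ u, HasDerivAt g₂ (deriv g₂ u) u := fun u =>
    (hg₂.differentiable (by simp) u).hasDerivAt
  have hg₁' : ContDiff ℝ ∞ (deriv g₁) := (contDiff_infty_iff_deriv.1 hg₁).2
  have hg₂' : ContDiff ℝ ∞ (deriv g₂) := (contDiff_infty_iff_deriv.1 hg₂).2
  have e1 : ∀ u, HasDerivAt (deriv g₁) (deriv (deriv g₁) u) u := fun u =>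
    (hg₁'.differentiable (by simp) u).hasDerivAt
  have e2 : ∀ u, HasDerivAt (deriv g₂) (deriv (deriv g₂) u) u := fun u =>
    (hg₂'.differentiable (by simp) u).hasDerivAt
  -- first derivative in y
  have hA : ∀ x y, |x - x₁| < r →
      b * deriv g₁ (a * x + b * y) + a * deriv g₂ (-b * x + a * y) = psi1 y := by
    intro x y hx
    have h1 := (hasDerivAt_y d1 (a * x) b y).add (hasDerivAt_y d2 (-b * x) a y)
    have h2 := hasDerivAt_psi (φ x) y
    have h3 : (fun y => φ x + (1 - Real.cos y / 10) ^ 2) =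
        ((fun y => g₁ (a * x + b * y)) + fun y => g₂ (-b * x + a * y)) := by
      funext y
      rw [← hstrip x y hx, hf]
      rfl
    rw [h3] at h2
    exact h1.unique h2
  -- second derivative in y
  have hB : ∀ x y, |x - x₁| < r →
      b * (b * deriv (deriv g₁) (a * x + b * y)) + a * (a * deriv (deriv g₂) (-b * x + a * y)) =
        psi2 y := by
    intro x y hx
    have h1 := ((hasDerivAt_y e1 (a * x) b y).const_mul b).add
      ((hasDerivAt_y e2 (-b * x) a y).const_mul a)
    have h2 := hasDerivAt_psi1 y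
    have h3 : psi1 =
        ((fun y => b * deriv g₁ (a * x + b * y)) + fun y => a * deriv g₂ (-b * x + a * y)) := by
      funext y
      rw [← hA x y hx]
      rfl
    rw [h3] at h2
    exact h1.unique h2
  -- mixed derivative
  have hC : ∀ x y, |x - x₁| < r →
      deriv (deriv g₁) (a * x + b * y) = deriv (deriv g₂) (-b * x + a * y) := by
    intro x y hx
    have h1 := ((hasDerivAt_y e1 (b * y) a x).const_mul b).add
      ((hasDerivAt_y e2 (a * y) (-b) x).const_mul a)
    have h2 : HasDerivAt ((fun x => b * deriv g₁ (b * y + a * x)) +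
        fun x => a * deriv g₂ (a * y + -b * x)) 0 x := by
      have hopen : {x' : ℝ | |x' - x₁| < r} ∈ nhds x :=
        (isOpen_lt (by fun_prop) continuous_const).mem_nhds hx
      refine (hasDerivAt_const x (psi1 y)).congr_of_eventuallyEq ?_
      filter_upwards [hopen] with x' hx'
      have h3 := hA x' y hx'
      rw [add_comm (a * x'), add_comm (-b * x')] at h3
      exact h3
    have h3 := h1.unique h2
    have h4 : a * b * (deriv (deriv g₁) (b * y + a * x) -
        deriv (deriv g₂) (a * y + -b * x)) = 0 := by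
      linear_combination h3
    rcases mul_eq_zero.1 h4 with h5 | h5
    · exact absurd h5 (mul_ne_zero ha hb)
    · rw [add_comm (a * x), add_comm (-b * x)]
      linarith
  have hD : ∀ x y, |x - x₁| < r →
      (a ^ 2 + b ^ 2) * deriv (deriv g₁) (a * x + b * y) = psi2 y := by
    intro x y hx
    rw [← hB x y hx, ← hC x y hx]
    ring
  -- local constancy
  have hE : ∀ y δ, |δ| < r → psi2 (y - a * δ / b) = psi2 y := by
    intro y δ hδ
    have h1 := hD (x₁ + δ) (y - a * δ / b) (by simpa using hδ)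
    have h2 := hD x₁ y (by simpa using hr)
    have h3 : a * (x₁ + δ) + b * (y - a * δ / b) = a * x₁ + b * y := by
      field_simp
      ring
    rw [h3] at h1
    rw [← h1, ← h2]
  obtain ⟨N, hN⟩ := exists_nat_gt (|b * Real.pi / a| / r)
  have hN0 : 0 < (N : ℝ) := lt_of_le_of_lt (div_nonneg (abs_nonneg _) hr.le) hN
  have hstep : ∀ k : ℕ, psi2 (k * (Real.pi / N)) = psi2 0 := by
    intro k
    induction k with
    | zero => simp
    | succ k ih =>
      rw [← ih]
      have hδ : |-(b * Real.pi / a) / N| < r := by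
        rw [abs_div, abs_neg, abs_of_pos hN0, div_lt_iff₀ hN0]
        rw [div_lt_iff₀ hr] at hN
        rwa [mul_comm r]
      have h1 := hE (k * (Real.pi / N)) (-(b * Real.pi / a) / N) hδ
      rw [← h1]
      congr 1
      push_cast
      field_simp
      ring
  have hend := hstep N
  have : (N : ℝ) * (Real.pi / N) = Real.pi := by field_simp
  rw [this] at hend
  exact psi2_ne hend.symm

end Pool.Agent.TorusInt
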