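import Pool.Agent.TorusInt.Defs

/-! Module Yfun (doc section 1 (Y)): the auxiliary functions `Y`, `kap`. -/

set_option autoImplicit false

open scoped ContDiff

namespace Pool.Agent.TorusInt

/-- a smooth function `s` supported in `|t| < 1/400` with small derivative and `s 0 > 0` -/
theorem Yfun_exists_s {η : ℝ} (hη : 0 < η) : ∃ s : ℝ → ℝ, ContDiff ℝ ∞ s ∧ 0 < s 0 ∧
    (∀ t, 1 / 400 ≤ t → s t = 0) ∧
    (∀ t, 1 / 400 ≤ t → deriv s t = 0) ∧ (∀ t, |deriv s t| ≤ 1) ∧
    (∀ t, |2 * deriv s t| ≤ η) ∧ (∀ t, |deriv (fun t => 2 * deriv s t) t| ≤ η) := by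
  let b : ContDiffBump (0 : ℝ) := ⟨1 / 1600, 1 / 800, by norm_num, by norm_num⟩
  have hb : ContDiff ℝ ∞ (b : ℝ → ℝ) := b.contDiff
  have hb0 : (b : ℝ → ℝ) 0 = 1 := by
    apply b.one_of_mem_closedBall
    simp only [Metric.mem_closedBall, dist_self]
    exact b.rIn_pos.le
  have hbz : ∀ t : ℝ, 1 / 800 ≤ t → (b : ℝ → ℝ) t = 0 := by
    intro t ht
    apply b.zero_of_le_dist
    rw [Real.dist_eq, sub_zero]
    exact ht.trans (le_abs_self t)
  have hd : ContDiff ℝ ∞ (deriv (b : ℝ → ℝ)) := (contDiff_infty_iff_deriv.1 hb).2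
  obtain ⟨B, hB⟩ := (b.hasCompactSupport.deriv).exists_bound_of_continuous hd.continuous
  have hB0 : 0 ≤ B := (norm_nonneg _).trans (hB 0)
  have hd2 : ContDiff ℝ ∞ (deriv (deriv (b : ℝ → ℝ))) := (contDiff_infty_iff_deriv.1 hd).2
  obtain ⟨B', hB'⟩ := (b.hasCompactSupport.deriv.deriv).exists_bound_of_continuous hd2.continuous
  have hB'0 : 0 ≤ B' := (norm_nonneg _).trans (hB' 0)
  obtain ⟨δ, hδ0, hδ1, hδ2, hδ3⟩ : ∃ δ : ℝ, 0 < δ ∧ δ * B ≤ 1 ∧ 2 * (δ * B) ≤ η ∧
      2 * (δ * B') ≤ η := by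
    refine ⟨min 1 η / (2 * (B + B' + 1)), by positivity, ?_, ?_, ?_⟩
    · rw [div_mul_eq_mul_div, div_le_one (by positivity)]
      have := min_le_left 1 η
      nlinarith
    · rw [div_mul_eq_mul_div, mul_div_assoc', div_le_iff₀ (by positivity)]
      have := min_le_right 1 η
      nlinarith
    · rw [div_mul_eq_mul_div, mul_div_assoc', div_le_iff₀ (by positivity)]
      have := min_le_right 1 η
      nlinarith
  have h2 : ∀ t, deriv (fun t => δ * (b : ℝ → ℝ) t) t = δ * deriv (b : ℝ → ℝ) t := by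
    intro t
    apply deriv_const_mul
    exact (contDiff_infty_iff_deriv.1 hb).1 t
  have h2' : deriv (fun t => δ * (b : ℝ → ℝ) t) = fun t => δ * deriv (b : ℝ → ℝ) t := funext h2
  refine ⟨fun t => δ * (b : ℝ → ℝ) t, contDiff_const.mul hb, ?_, ?_, ?_, ?_, ?_, ?_⟩
  · simp only [hb0]
    positivity
  · intro t ht
    simp only [hbz t (by linarith), mul_zero]
  · intro t ht
    have h1 : (fun t => δ * (b : ℝ → ℝ) t) =ᶠ[nhds t] fun _ => 0 := by
      have : Set.Ioi (1 / 800 : ℝ) ∈ nhds t := Ioi_mem_nhds (by linarith)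
      filter_upwards [this] with y hy
      simp only [hbz y (le_of_lt hy), mul_zero]
    rw [h1.deriv_eq]
    simp
  · intro t
    rw [h2, abs_mul, abs_of_pos hδ0]
    have h3 : |deriv (b : ℝ → ℝ) t| ≤ B := hB t
    nlinarith
  · intro t
    rw [h2, abs_mul, abs_mul, abs_of_pos hδ0, abs_two]
    have h3 : |deriv (b : ℝ → ℝ) t| ≤ B := hB t
    nlinarith
  · intro t
    rw [h2']
    have h4 : deriv (fun t => 2 * (δ * deriv (b : ℝ → ℝ) t)) t =
        2 * (δ * deriv (deriv (b : ℝ → ℝ)) t) := by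
      have h5 : DifferentiableAt ℝ (deriv (b : ℝ → ℝ)) t := (contDiff_infty_iff_deriv.1 hd).1 t
      rw [deriv_const_mul _ (h5.const_mul δ), deriv_const_mul _ h5]
    rw [h4, abs_mul, abs_mul, abs_of_pos hδ0, abs_two]
    have h3 : |deriv (deriv (b : ℝ → ℝ)) t| ≤ B' := hB' t
    nlinarith

/-- the function `r` -/
noncomputable def Yfun_r (s : ℝ → ℝ) (y : ℝ) : ℝ := (1 + y) * Real.exp (s (y ^ 2))

theorem Yfun_hasDerivAt {s : ℝ → ℝ} (hs : ContDiff ℝ ∞ s) (y : ℝ) :
    HasDerivAt (Yfun_r s)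
      (Real.exp (s (y ^ 2)) * (1 + 2 * y * (1 + y) * deriv s (y ^ 2))) y := by
  have h1 : HasDerivAt s (deriv s (y ^ 2)) (y ^ 2) :=
    ((contDiff_infty_iff_deriv.1 hs).1 (y ^ 2)).hasDerivAt
  have h2 : HasDerivAt (fun y : ℝ => y ^ 2) (2 * y) y := by
    simpa using hasDerivAt_pow 2 y
  have h3 : HasDerivAt (fun y : ℝ => s (y ^ 2)) (deriv s (y ^ 2) * (2 * y)) y :=
    HasDerivAt.comp (h := fun y : ℝ => y ^ 2) (h₂ := s) y h1 h2
  have h4 := h3.exp
  have h5 : HasDerivAt (fun y : ℝ => 1 + y) 1 y := (hasDerivAt_id y).const_add 1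
  refine (h5.mul h4).congr_deriv ?_
  ring

theorem Yfun_pos {s : ℝ → ℝ} (h1 : ∀ t, 1 / 400 ≤ t → deriv s t = 0)
    (h2 : ∀ t, |deriv s t| ≤ 1) (y : ℝ) : 0 < 1 + 2 * y * (1 + y) * deriv s (y ^ 2) := by
  by_cases hy : 1 / 400 ≤ y ^ 2
  · rw [h1 _ hy]
    norm_num
  · push Not at hy
    have h3 : |y| < 1 / 20 := by
      apply abs_lt_of_sq_lt_sq _ (by norm_num)
      norm_num
      linarith
    obtain ⟨h4, h5⟩ := abs_lt.1 h3
    have h6 : |2 * y * (1 + y) * deriv s (y ^ 2)| < 1 := by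
      rw [abs_mul, abs_mul, abs_mul]
      have h7 : |(1 : ℝ) + y| ≤ 2 := abs_le.2 ⟨by linarith, by linarith⟩
      have h8 : |(2 : ℝ)| = 2 := abs_of_pos (by norm_num)
      rw [h8]
      calc 2 * |y| * |1 + y| * |deriv s (y ^ 2)| ≤ 2 * |y| * 2 * 1 := by
            have := h2 (y ^ 2)
            have h9 := abs_nonneg y
            gcongr
        _ < 1 := by linarith
    have := (abs_lt.1 h6).1
    linarith

theorem exists_Y {η : ℝ} (hη : 0 < η) : ∃ Y kap : ℝ → ℝ, YData Y kap ∧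
    (∀ t, |kap t| ≤ η) ∧ ∀ t, |deriv kap t| ≤ η := by
  obtain ⟨s, hs, hs0, hsz, hsd, hsb, hη1, hη2⟩ := Yfun_exists_s hη
  have hd := Yfun_hasDerivAt hs
  have hpos : ∀ y, 0 < Real.exp (s (y ^ 2)) * (1 + 2 * y * (1 + y) * deriv s (y ^ 2)) :=
    fun y => mul_pos (Real.exp_pos _) (Yfun_pos hsd hsb y)
  have hmono : StrictMono (Yfun_r s) := strictMono_of_deriv_pos fun y => by
    rw [(hd y).deriv]
    exact hpos y
  have hsm : ContDiff ℝ ∞ (Yfun_r s) := by
    unfold Yfun_r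
    exact (contDiff_const.add contDiff_id).mul (Real.contDiff_exp.comp (hs.comp (contDiff_id.pow 2)))
  have hout : ∀ y : ℝ, 1 / 20 ≤ |y| → Yfun_r s y = 1 + y := by
    intro y hy
    have : (1 / 400 : ℝ) ≤ y ^ 2 := by
      rw [← sq_abs]
      nlinarith
    unfold Yfun_r
    rw [hsz _ this, Real.exp_zero, mul_one]
  have hcont := hsm.continuous
  have htop : Filter.Tendsto (Yfun_r s) Filter.atTop Filter.atTop := by
    have h1 : Filter.Tendsto (fun y : ℝ => 1 + y) Filter.atTop Filter.atTop :=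
      Filter.tendsto_atTop_add_const_left _ _ Filter.tendsto_id
    refine h1.congr' ?_
    filter_upwards [Filter.eventually_ge_atTop (1 : ℝ)] with y hy
    rw [hout y (by rw [abs_of_nonneg (by linarith)]; linarith)]
  have hbot : Filter.Tendsto (Yfun_r s) Filter.atBot Filter.atBot := by
    have h1 : Filter.Tendsto (fun y : ℝ => 1 + y) Filter.atBot Filter.atBot :=
      Filter.tendsto_atBot_add_const_left _ _ Filter.tendsto_id
    refine h1.congr' ?_
    filter_upwards [Filter.eventually_le_atBot (-1 : ℝ)] with y hy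
    rw [hout y (by rw [abs_of_nonpos (by linarith)]; linarith)]
  have hsurj := hcont.surjective htop hbot
  let e : ℝ ≃ₜ ℝ := (hmono.orderIsoOfSurjective (Yfun_r s) hsurj).toHomeomorph
  have he : ∀ y, e y = Yfun_r s y := fun y => rfl
  have heq : (e : ℝ → ℝ) = Yfun_r s := funext he
  have hYr : ∀ r, Yfun_r s (e.symm r) = r := fun r => by
    rw [← he]
    exact e.apply_symm_apply r
  have hrY : ∀ y, e.symm (Yfun_r s y) = y := fun y => by
    rw [← he]
    exact e.symm_apply_apply y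
  have hYsm : ContDiff ℝ ∞ (e.symm : ℝ → ℝ) := by
    refine e.contDiff_symm_deriv (f' := fun y =>
      Real.exp (s (y ^ 2)) * (1 + 2 * y * (1 + y) * deriv s (y ^ 2))) ?_ ?_ ?_
    · exact fun y => (hpos y).ne'
    · intro y
      rw [heq]
      exact hd y
    · rw [heq]
      exact hsm
  refine ⟨e.symm, fun t => 2 * deriv s t, ?_, hη1, hη2⟩
  refine ⟨hYsm, contDiff_const.mul (contDiff_infty_iff_deriv.1 hs).2, ?_, ?_, ?_, ?_, ?_⟩
  · intro t ht
    simp only [hsd t ht, mul_zero]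
  · intro r hr
    obtain ⟨h1, h2⟩ := abs_le.1 hr
    rw [abs_le]
    constructor
    · rw [← hmono.le_iff_le, hYr, hout _ (by rw [abs_neg, abs_of_pos] <;> norm_num)]
      linarith
    · rw [← hmono.le_iff_le, hYr, hout _ (by rw [abs_of_pos] ; norm_num)]
      linarith
  · intro r hr
    have := hrY (r - 1)
    rw [hout _ hr] at this
    rw [← this]
    congr 1
    ring
  · intro h
    have h1 := hYr 1
    rw [h] at h1
    unfold Yfun_r at h1
    norm_num at h1
    exact hs0.ne' h1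
  · intro r hr
    set y := e.symm r with hy
    have hry : Yfun_r s y = r := hYr r
    have h1 : HasDerivAt (e.symm : ℝ → ℝ)
        (Real.exp (s (y ^ 2)) * (1 + 2 * y * (1 + y) * deriv s (y ^ 2)))⁻¹ r := by
      refine HasDerivAt.of_local_left_inverse (f := Yfun_r s) ?_ (hd y) (hpos y).ne' ?_
      · exact hYsm.continuous.continuousAt
      · exact Filter.Eventually.of_forall hYr
    rw [h1.deriv]
    have hy1 : 0 < 1 + y := by
      have h2 : 0 < Yfun_r s y := by rw [hry]; exact hr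
      unfold Yfun_r at h2
      exact (mul_pos_iff_of_pos_right (Real.exp_pos _)).1 h2
    have h3 : r = (1 + y) * Real.exp (s (y ^ 2)) := hry.symm
    have h4 := (hpos y).ne'
    have h5 := (Real.exp_pos (s (y ^ 2))).ne'
    have h6 := (Yfun_pos hsd hsb y).ne'
    have h7 : (1 + y * 2 * (1 + y) * deriv s (y ^ 2)) ≠ 0 := by
      rw [mul_comm y 2]
      exact h6
    rw [h3]
    field_simp

end Pool.Agent.TorusInt
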