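import Pool.Agent.TorusInt.Cfun
import Pool.Agent.TorusInt.Yfun
import Pool.Agent.TorusInt.Dfun
import Pool.Agent.TorusInt.Conf
import Pool.Agent.TorusInt.Sep
import Pool.Agent.TorusInt.InnerH
import Pool.Agent.TorusInt.InnerR
import Pool.Agent.TorusInt.Smooth
import Pool.Agent.TorusInt.Outer
import Pool.Agent.TorusInt.GraphAbs
import Pool.Agent.TorusInt.GraphIneq

/-! Assembly: the example is integrable and not of Liouville type. -/

set_option autoImplicit false

open scoped ContDiff Topology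

namespace Pool.Agent.TorusInt

/-- The geodesic flow of the metric `f (dx² + dy²)` on `ℝ²/Λ` is integrable: there is a function
`F`, smooth on the cotangent bundle of the torus minus the zero section and positively homogeneous
of degree two in the momenta, which Poisson commutes with the Hamiltonian and whose differential is
linearly independent of that of the Hamiltonian on an open dense subset of the cotangent bundle. -/
def FlowIntegrable (Λ : AddSubgroup (ℝ × ℝ)) (f : ℝ × ℝ → ℝ) : Prop :=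
  ∃ (F : (ℝ × ℝ) × (ℝ × ℝ) → ℝ) (U : Set ((ℝ × ℝ) × (ℝ × ℝ))),
    ContDiffOn ℝ ∞ F {z | z.2 ≠ 0} ∧
    (∀ l ∈ Λ, ∀ x p, F (x + l, p) = F (x, p)) ∧
    (∀ x p (t : ℝ), 0 < t → F (x, t • p) = t ^ 2 * F (x, p)) ∧
    (∀ z, z.2 ≠ 0 → pb F (Ham f) z = 0) ∧
    IsOpen U ∧ Dense U ∧
    ∀ z ∈ U, z.2 ≠ 0 ∧ LinearIndependent ℝ ![fderiv ℝ F z, fderiv ℝ (Ham f) z]

variable {C Y kap : ℝ → ℝ} {D : ℝ × ℝ → ℝ}

theorem continuous_rho (hC : CData C) :
    Continuous (fun z : (ℝ × ℝ) × (ℝ × ℝ) => |rho C z.1 - 1|) :=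
  (((Smooth_contDiff_rho hC).continuous.comp continuous_fst).sub continuous_const).abs

theorem isOpen_inner (hC : CData C) :
    IsOpen {z : (ℝ × ℝ) × (ℝ × ℝ) | |rho C z.1 - 1| < 3 / 50} :=
  isOpen_lt (continuous_rho hC) continuous_const

theorem isOpen_outer (hC : CData C) :
    IsOpen {z : (ℝ × ℝ) × (ℝ × ℝ) | 1 / 20 < |rho C z.1 - 1|} :=
  isOpen_lt continuous_const (continuous_rho hC)

theorem isOpen_ne : IsOpen {z : (ℝ × ℝ) × (ℝ × ℝ) | z.2 ≠ 0} :=
  isOpen_ne_fun continuous_snd continuous_const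

theorem Fint_eq_inner (hC : CData C) {z : (ℝ × ℝ) × (ℝ × ℝ)} (hz : |rho C z.1 - 1| < 3 / 50) :
    Fint C Y D =ᶠ[𝓝 z] Fin' C Y D := by
  filter_upwards [(isOpen_inner hC).mem_nhds hz] with w hw
  exact if_pos hw

theorem Fint_eq_outer (hC : CData C) (hY : YData Y kap) (hD : DData kap D)
    {z : (ℝ × ℝ) × (ℝ × ℝ)} (hz : 1 / 20 < |rho C z.1 - 1|) (hp : z.2 ≠ 0) :
    Fint C Y D =ᶠ[𝓝 z] Fout C Y := by
  filter_upwards [(isOpen_outer hC).mem_nhds hz, isOpen_ne.mem_nhds hp] with w hw hpw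
  unfold Fint
  split_ifs with h
  · exact Fin_eq_Fout hC hY hD h hw.le hpw
  · rfl

theorem contDiffAt_Fint (hC : CData C) (hY : YData Y kap) (hD : DData kap D)
    {z : (ℝ × ℝ) × (ℝ × ℝ)} (hp : z.2 ≠ 0) : ContDiffAt ℝ ∞ (Fint C Y D) z := by
  by_cases h : |rho C z.1 - 1| < 3 / 50
  · exact (contDiffAt_Fin hC hY hD h hp).congr_of_eventuallyEq (Fint_eq_inner hC h)
  · push Not at h
    exact (contDiffAt_Fout hC hY z).congr_of_eventuallyEq
      (Fint_eq_outer hC hY hD (by linarith) hp)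

/-- derivative along a line from the Fréchet derivative -/
theorem fderiv_of_line {G : (ℝ × ℝ) × (ℝ × ℝ) → ℝ} {z v : (ℝ × ℝ) × (ℝ × ℝ)} {c : ℝ}
    (hG : DifferentiableAt ℝ G z) (h : HasDerivAt (fun t : ℝ => G (z + t • v)) c 0) :
    fderiv ℝ G z v = c := by
  have h1 : HasDerivAt (fun t : ℝ => z + t • v) v 0 := by
    simpa using ((hasDerivAt_id (0 : ℝ)).smul_const v).const_add z
  have h2 : HasFDerivAt G (fderiv ℝ G z) (z + (0 : ℝ) • v) := by
    simpa using hG.hasFDerivAt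
  exact (h2.comp_hasDerivAt (0 : ℝ) h1).unique h

theorem Fint_vH (hC : CData C) (hY : YData Y kap) (hD : DData kap D)
    {z : (ℝ × ℝ) × (ℝ × ℝ)} (hp : z.2 ≠ 0) : fderiv ℝ (Fint C Y D) z (vH C Y z) = 0 := by
  by_cases h : |rho C z.1 - 1| < 3 / 50
  · rw [(Fint_eq_inner hC h).fderiv_eq]
    exact fderiv_of_line ((contDiffAt_Fin hC hY hD h hp).differentiableAt (by simp))
      (inner_H hC hY hD h hp)
  · push Not at h
    have h' : 1 / 20 < |rho C z.1 - 1| := by linarith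
    rw [(Fint_eq_outer hC hY hD h' hp).fderiv_eq]
    exact fderiv_of_line ((contDiffAt_Fout hC hY z).differentiableAt (by simp))
      (outer_H hC hY h')

/-- the derivative of the Hamiltonian -/
theorem hasFDerivAt_Ham {f : ℝ × ℝ → ℝ} {z : (ℝ × ℝ) × (ℝ × ℝ)} (hf : DifferentiableAt ℝ f z.1)
    (h0 : f z.1 ≠ 0) (v : (ℝ × ℝ) × (ℝ × ℝ)) :
    DifferentiableAt ℝ (Ham f) z ∧ fderiv ℝ (Ham f) z v =
      (z.2.1 * v.2.1 + z.2.2 * v.2.2) / f z.1 -
        nsq z.2 / (2 * f z.1 ^ 2) * fderiv ℝ f z.1 v.1 := by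
  have h1 : HasFDerivAt (fun z : (ℝ × ℝ) × (ℝ × ℝ) => f z.1)
      ((fderiv ℝ f z.1).comp (ContinuousLinearMap.fst ℝ (ℝ × ℝ) (ℝ × ℝ))) z :=
    HasFDerivAt.comp z hf.hasFDerivAt hasFDerivAt_fst
  have hd : DifferentiableAt ℝ (Ham f) z := by
    unfold Ham nsq
    have h1' : DifferentiableAt ℝ (fun z : (ℝ × ℝ) × (ℝ × ℝ) => f z.1) z := h1.differentiableAt
    have h2 : DifferentiableAt ℝ (fun z : (ℝ × ℝ) × (ℝ × ℝ) => z.2.1 ^ 2 + z.2.2 ^ 2) z := by
      fun_prop
    have h3 : DifferentiableAt ℝ (fun z : (ℝ × ℝ) × (ℝ × ℝ) => 2 * f z.1) z := h1'.const_mul 2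
    have h4 : (fun z : (ℝ × ℝ) × (ℝ × ℝ) => 2 * f z.1) z ≠ 0 := mul_ne_zero two_ne_zero h0
    simp only [div_eq_mul_inv]
    exact h2.fun_mul (h3.fun_inv h4)
  refine ⟨hd, ?_⟩
  apply fderiv_of_line hd
  have hl : HasDerivAt (fun t : ℝ => f (z.1 + t • v.1)) (fderiv ℝ f z.1 v.1) 0 := by
    have e1 : HasDerivAt (fun t : ℝ => z.1 + t • v.1) v.1 0 := by
      simpa using ((hasDerivAt_id (0 : ℝ)).smul_const v.1).const_add z.1
    have e2 : HasFDerivAt f (fderiv ℝ f z.1) (z.1 + (0 : ℝ) • v.1) := by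
      simpa using hf.hasFDerivAt
    exact e2.comp_hasDerivAt (0 : ℝ) e1
  have hn : HasDerivAt (fun t : ℝ => nsq (z.2 + t • v.2)) (2 * (z.2.1 * v.2.1 + z.2.2 * v.2.2))
      0 := by
    have e1 : HasDerivAt (fun t : ℝ => z.2.1 + t * v.2.1) v.2.1 0 := by
      simpa using ((hasDerivAt_id (0 : ℝ)).mul_const v.2.1).const_add z.2.1
    have e2 : HasDerivAt (fun t : ℝ => z.2.2 + t * v.2.2) v.2.2 0 := by
      simpa using ((hasDerivAt_id (0 : ℝ)).mul_const v.2.2).const_add z.2.2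
    have e3 := (e1.pow 2).add (e2.pow 2)
    refine (e3.congr_deriv ?_).congr_of_eventuallyEq (Filter.Eventually.of_forall fun t => ?_)
    · simp; ring
    · simp [nsq]
  have hd2 := hn.fun_div (hl.const_mul 2) (by simpa using h0)
  refine (hd2.congr_deriv ?_)
  simp only [zero_smul, add_zero]
  field_simp

theorem pb_eq (hC : CData C) (hY : YData Y kap) (F : (ℝ × ℝ) × (ℝ × ℝ) → ℝ)
    (z : (ℝ × ℝ) × (ℝ × ℝ)) :
    pb F (Ham (fac C Y)) z = (fac C Y z.1)⁻¹ * fderiv ℝ F z (vH C Y z) := by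
  have hf : DifferentiableAt ℝ (fac C Y) z.1 :=
    (Smooth_contDiff_fac hC hY).contDiffAt.differentiableAt (by simp)
  have h0 := Smooth_fac_pos hC hY z.1
  have hH := fun v => (hasFDerivAt_Ham hf h0.ne' v).2
  have hv : vH C Y z = z.2.1 • ((1, 0), (0, 0)) + z.2.2 • ((0, 1), (0, 0)) +
      (En C Y z / 2 * fderiv ℝ (fac C Y) z.1 (1, 0)) • ((0, 0), (1, 0)) +
      (En C Y z / 2 * fderiv ℝ (fac C Y) z.1 (0, 1)) • ((0, 0), (0, 1)) := by
    ext <;> simp [vH]
  rw [hv, pb]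
  simp only [hH, map_add, map_smul, smul_eq_mul]
  simp only [Prod.mk_zero_zero, map_zero, Prod.fst_zero, Prod.snd_zero, En]
  field_simp
  ring

theorem pb_Fint (hC : CData C) (hY : YData Y kap) (hD : DData kap D)
    {z : (ℝ × ℝ) × (ℝ × ℝ)} (hp : z.2 ≠ 0) : pb (Fint C Y D) (Ham (fac C Y)) z = 0 := by
  rw [pb_eq hC hY, Fint_vH hC hY hD hp, mul_zero]

theorem contDiffAt_Ham (hC : CData C) (hY : YData Y kap) (z : (ℝ × ℝ) × (ℝ × ℝ)) :
    ContDiffAt ℝ ∞ (Ham (fac C Y)) z := by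
  have h : Ham (fac C Y) = fun z => En C Y z / 2 := by
    funext z
    have := (Smooth_fac_pos hC hY z.1).ne'
    unfold Ham En
    field_simp
  rw [h]
  exact (contDiffAt_En hC hY z).div_const 2

theorem Ham_eq (hC : CData C) (hY : YData Y kap) : Ham (fac C Y) = fun z => En C Y z / 2 := by
  funext z
  have := (Smooth_fac_pos hC hY z.1).ne'
  unfold Ham En
  field_simp

/-- the differential of the Hamiltonian does not vanish off the zero section -/
theorem fderiv_Ham_ne (hC : CData C) (hY : YData Y kap) {z : (ℝ × ℝ) × (ℝ × ℝ)} (hp : z.2 ≠ 0) :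
    fderiv ℝ (Ham (fac C Y)) z ≠ 0 := by
  have hf : DifferentiableAt ℝ (fac C Y) z.1 :=
    (Smooth_contDiff_fac hC hY).contDiffAt.differentiableAt (by simp)
  have h0 := Smooth_fac_pos hC hY z.1
  have hH := (hasFDerivAt_Ham hf h0.ne' ((0, 0), z.2)).2
  intro h
  rw [h] at hH
  have hE := Smooth_En_pos hC hY hp
  have h1 : (z.2.1 * z.2.1 + z.2.2 * z.2.2) / fac C Y z.1 = En C Y z := by
    simp only [En, nsq]; ring_nf
  simp only [Prod.mk_zero_zero, map_zero, mul_zero, sub_zero] at hH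
  rw [h1] at hH
  simp at hH
  linarith

/-- if the differentials are dependent at a point of the annulus, then `Zi = 0` there -/
theorem Zi_eq_zero (hC : CData C) (hY : YData Y kap) (hD : DData kap D)
    {z : (ℝ × ℝ) × (ℝ × ℝ)} (hz : |rho C z.1 - 1| < 3 / 50) (hp : z.2 ≠ 0)
    (hdep : ¬ LinearIndependent ℝ ![fderiv ℝ (Fint C Y D) z, fderiv ℝ (Ham (fac C Y)) z]) :
    Zi C Y D z = 0 := by
  rw [LinearIndependent.pair_iff] at hdep
  push Not at hdep
  obtain ⟨s, t, hst, hne⟩ := hdep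
  have hs : s ≠ 0 := by
    rintro rfl
    rw [zero_smul, zero_add] at hst
    have ht : t = 0 := by
      by_contra ht
      exact fderiv_Ham_ne hC hY hp ((smul_eq_zero.mp hst).resolve_left ht)
    exact hne rfl ht
  have hH0 : fderiv ℝ (Ham (fac C Y)) z (vR C z) = 0 := by
    have h1 : HasDerivAt (fun r : ℝ => Ham (fac C Y) (z + r • vR C z)) 0 0 := by
      rw [Ham_eq hC hY]
      have := (inner_R_En hC hY hz).div_const 2
      simpa using this
    exact fderiv_of_line ((contDiffAt_Ham hC hY z).differentiableAt (by simp)) h1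
  have hF0 : fderiv ℝ (Fint C Y D) z (vR C z) = 1 / 5 * -Zi C Y D z := by
    rw [(Fint_eq_inner hC hz).fderiv_eq]
    refine fderiv_of_line ((contDiffAt_Fin hC hY hD hz hp).differentiableAt (by simp)) ?_
    have h1 := (inner_R_L hC hz).pow 2
    have h2 := (inner_R_Zr hC hY hD hz hp).const_mul (1 / 5)
    have h3 := h1.add h2
    simp only [mul_zero, zero_add] at h3
    exact h3
  have h := congrArg (fun l => l (vR C z)) hst
  simp only [add_apply, smul_apply, smul_eq_mul, hF0, hH0,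
    mul_zero, add_zero, zero_apply] at h
  rcases mul_eq_zero.mp h with h | h
  · exact absurd h hs
  · linarith

theorem inner_dense (hC : CData C) (hY : YData Y kap) (hD : DData kap D)
    {V : Set ((ℝ × ℝ) × (ℝ × ℝ))} (hV : IsOpen V) (hne : V.Nonempty)
    (hin : ∀ z ∈ V, |rho C z.1 - 1| < 3 / 50) (hp : ∀ z ∈ V, z.2 ≠ 0) :
    ∃ z ∈ V, LinearIndependent ℝ ![fderiv ℝ (Fint C Y D) z, fderiv ℝ (Ham (fac C Y)) z] := by
  by_contra hcon
  push Not at hcon
  have hZi : ∀ z ∈ V, Zi C Y D z = 0 := fun z hz =>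
    Zi_eq_zero hC hY hD (hin z hz) (hp z hz) (hcon z hz)
  have hW : ∀ z ∈ V, Wz C z = 0 := by
    intro z hz
    have h1 : Zi C Y D =ᶠ[𝓝 z] fun _ => 0 := by
      filter_upwards [hV.mem_nhds hz] with w hw
      exact hZi w hw
    have h2 := fderiv_of_line
      ((contDiffAt_Zi hC hY hD (hin z hz) (hp z hz)).differentiableAt (by simp))
      (inner_R_Zi hC hY hD (hin z hz) (hp z hz))
    rw [h1.fderiv_eq] at h2
    simp at h2
    have h3 := Z_identity (D := D) hC hY (hin z hz)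
    rw [← h2, hZi z hz] at h3
    have hE := Smooth_En_pos hC hY (hp z hz)
    have h4 : En C Y z - Lz C z ^ 2 = 0 := by
      have h5 : En C Y z * (En C Y z - Lz C z ^ 2) = 0 := by rw [← h3]; ring
      exact (mul_eq_zero.mp h5).resolve_left hE.ne'
    have h5 := LW_identity hC hY (hin z hz)
    have h6 : Wz C z ^ 2 ≤ 0 := by
      have h7 : Wz C z ^ 2 = -(En C Y z * Y (rho C z.1) ^ 2) := by linarith
      rw [h7]
      have := mul_nonneg hE.le (sq_nonneg (Y (rho C z.1)))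
      linarith
    exact pow_eq_zero_iff (two_ne_zero) |>.mp (le_antisymm h6 (sq_nonneg _))
  obtain ⟨z, hz⟩ := hne
  -- move the momentum
  have h1 : ∀ᶠ t : ℝ in 𝓝 0, z + t • (((0, 0), (1, 0)) : (ℝ × ℝ) × (ℝ × ℝ)) ∈ V := by
    have hc : Continuous (fun t : ℝ => z + t • (((0, 0), (1, 0)) : (ℝ × ℝ) × (ℝ × ℝ))) := by
      fun_prop
    have := hc.continuousAt (x := (0 : ℝ))
    apply this.eventually_mem
    simpa using hV.mem_nhds hz
  obtain ⟨t, ht, ht0⟩ : ∃ t : ℝ, z + t • (((0, 0), (1, 0)) : (ℝ × ℝ) × (ℝ × ℝ)) ∈ V ∧ t ≠ 0 := by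
    have h2 : ∀ᶠ t : ℝ in 𝓝[≠] 0, z + t • (((0, 0), (1, 0)) : (ℝ × ℝ) × (ℝ × ℝ)) ∈ V :=
      h1.filter_mono nhdsWithin_le_nhds
    obtain ⟨t, h3, h4⟩ := (h2.and self_mem_nhdsWithin).exists
    exact ⟨t, h3, h4⟩
  have h2 := hW z hz
  have h3 := hW _ ht
  have h4 := (Smooth_sub_pos hC z.1).ne'
  have h5 : deriv C z.1.1 ≠ 0 := by
    intro h5
    have h6 := hC.band1 z.1.1 (by
      have h7 := hin z hz
      have h8 := Real.cos_le_one z.1.2
      have h9 := Real.neg_one_le_cos z.1.2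
      unfold rho at h7
      rw [abs_lt] at h7 ⊢
      constructor <;> linarith [h7.1, h7.2])
    rw [h5] at h6
    have h7 := Smooth_C_ge hC z.1.1
    nlinarith
  unfold Wz at h2 h3
  simp at h3
  rw [div_eq_zero_iff] at h2
  have h2' := h2.resolve_right h4
  have h3' := h3.resolve_right h4
  have h6 : deriv C z.1.1 * t = 0 := by linarith
  rcases mul_eq_zero.mp h6 with h7 | h7
  · exact h5 h7
  · exact ht0 h7

/-- nonempty open sets contain points with nonzero momentum components -/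
theorem exists_momentum {V : Set ((ℝ × ℝ) × (ℝ × ℝ))} (hV : IsOpen V) (hne : V.Nonempty) :
    ∃ z ∈ V, z.2.1 ≠ 0 ∧ z.2.2 ≠ 0 := by
  obtain ⟨z, hz⟩ := hne
  have hc : Continuous (fun t : ℝ => z + t • (((0, 0), (1, 1)) : (ℝ × ℝ) × (ℝ × ℝ))) := by
    fun_prop
  have h1 : ∀ᶠ t : ℝ in 𝓝 0, z + t • (((0, 0), (1, 1)) : (ℝ × ℝ) × (ℝ × ℝ)) ∈ V := by
    have := hc.continuousAt (x := (0 : ℝ))
    apply this.eventually_mem
    simpa using hV.mem_nhds hz
  have h2 : ∀ᶠ t : ℝ in 𝓝[≠] 0, z + t • (((0, 0), (1, 1)) : (ℝ × ℝ) × (ℝ × ℝ)) ∈ V :=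
    h1.filter_mono nhdsWithin_le_nhds
  have h3 : ∀ c : ℝ, ∀ᶠ t : ℝ in 𝓝[≠] 0, c + t ≠ 0 := by
    intro c
    by_cases hc : c = 0
    · subst hc
      filter_upwards [self_mem_nhdsWithin] with t ht
      simpa using ht
    · have h4 : ∀ᶠ t : ℝ in 𝓝 0, c + t ≠ 0 := by
        have : ContinuousAt (fun t : ℝ => c + t) 0 := by fun_prop
        exact this.eventually_ne (by simpa using hc)
      exact h4.filter_mono nhdsWithin_le_nhds
  obtain ⟨t, ⟨h4, h5⟩, h6⟩ := ((h2.and (h3 z.2.1)).and (h3 z.2.2)).exists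
  refine ⟨_, h4, ?_, ?_⟩
  · simpa using h5
  · simpa using h6

/-- homogeneity of the first integral -/
theorem Fint_homog (x p : ℝ × ℝ) (t : ℝ) (ht : 0 < t) :
    Fint C Y D (x, t • p) = t ^ 2 * Fint C Y D (x, p) := by
  have hE : En C Y (x, t • p) = t ^ 2 * En C Y (x, p) := by
    simp only [En, nsq, Prod.smul_fst, Prod.smul_snd, smul_eq_mul]; ring
  have hL : Lz C (x, t • p) = t * Lz C (x, p) := by
    simp only [Lz, Prod.smul_fst, Prod.smul_snd, smul_eq_mul]; ring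
  have hW : Wz C (x, t • p) = t * Wz C (x, p) := by
    simp only [Wz, Prod.smul_fst, Prod.smul_snd, smul_eq_mul]; ring
  have hs : Real.sqrt (En C Y (x, t • p)) = t * Real.sqrt (En C Y (x, p)) := by
    rw [hE, Real.sqrt_mul (sq_nonneg t), Real.sqrt_sq ht.le]
  have hT : Th C Y D (x, t • p) = Th C Y D (x, p) := by
    simp only [Th, hs, hL, hW]
    rw [mul_div_mul_left _ _ ht.ne', mul_div_mul_left _ _ ht.ne']
  have hBr : Br C Y (x, t • p) = t ^ 2 * Br C Y (x, p) := by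
    simp only [Br, hE, hL]; ring
  have hBi : Bi C Y (x, t • p) = t ^ 2 * Bi C Y (x, p) := by
    simp only [Bi, hL, hW]; ring
  have hZ : Zr C Y D (x, t • p) = t ^ 2 * Zr C Y D (x, p) := by
    simp only [Zr, hT, hBr, hBi]; ring
  unfold Fint
  split_ifs
  · simp only [Fin', hL, hZ]; ring
  · simp only [Fout, hE, Prod.smul_fst, smul_eq_mul]; ring

/-- The geodesic flow of the example is integrable. -/
theorem flowIntegrable (hC : CData C) (hY : YData Y kap) (hD : DData kap D) :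
    FlowIntegrable Λ₀ (fac C Y) := by
  refine ⟨Fint C Y D, {z | z.2 ≠ 0 ∧
    LinearIndependent ℝ ![fderiv ℝ (Fint C Y D) z, fderiv ℝ (Ham (fac C Y)) z]},
    ?_, ?_, Fint_homog, ?_, ?_, ?_, ?_⟩
  · intro z hz
    exact (contDiffAt_Fint hC hY hD hz).contDiffWithinAt
  · intro l hl x p
    exact Fint_periodic hC l hl x p
  · intro z hz
    exact pb_Fint hC hY hD hz
  · have h1 : ContinuousOn (fun z => ![fderiv ℝ (Fint C Y D) z, fderiv ℝ (Ham (fac C Y)) z])
        {z : (ℝ × ℝ) × (ℝ × ℝ) | z.2 ≠ 0} := by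
      intro z hz
      have h2 : ContinuousAt (fderiv ℝ (Fint C Y D)) z :=
        (contDiffAt_Fint hC hY hD hz).continuousAt_fderiv (by simp)
      have h3 : ContinuousAt (fderiv ℝ (Ham (fac C Y))) z :=
        (contDiffAt_Ham hC hY z).continuousAt_fderiv (by simp)
      apply ContinuousAt.continuousWithinAt
      rw [continuousAt_pi]
      intro i
      fin_cases i
      · exact h2
      · exact h3
    exact h1.isOpen_inter_preimage isOpen_ne isOpen_setOfPred_linearIndependent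
  · rw [dense_iff_inter_open]
    intro V hV hne
    obtain ⟨z₀, hz₀, h01, h02⟩ := exists_momentum hV hne
    have hV1 : IsOpen (V ∩ {z | z.2 ≠ 0}) := hV.inter isOpen_ne
    by_cases hout : ∃ z ∈ V ∩ {z : (ℝ × ℝ) × (ℝ × ℝ) | z.2 ≠ 0}, 1 / 20 < |rho C z.1 - 1|
    · obtain ⟨z₁, hz₁, hz₁'⟩ := hout
      obtain ⟨z, hz, h1, h2⟩ := exists_momentum (hV1.inter (isOpen_outer hC)) ⟨z₁, hz₁, hz₁'⟩
      refine ⟨z, hz.1.1, hz.1.2, ?_⟩
      rw [(Fint_eq_outer hC hY hD hz.2 hz.1.2).fderiv_eq]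
      exact outer_indep hC hY hz.2 h1 h2
    · push Not at hout
      obtain ⟨z, hz, hli⟩ := inner_dense hC hY hD hV1 ⟨z₀, hz₀, fun h => h01 (by rw [h]; rfl)⟩
        (fun z hz => (hout z hz).trans_lt (by norm_num)) (fun z hz => hz.2)
      exact ⟨z, hz.1, hz.2, hli⟩
  · intro z hz
    exact hz

/-- The example is not of Liouville type. -/
theorem not_liouvilleType (hC : CData C) (hY : YData Y kap) : ¬ LiouvilleType Λ₀ (fac C Y) := by
  intro h
  obtain ⟨a, b, g₁, g₂, hab, hg₁, hg₂, hf⟩ := liouville_form isLattice_Λ₀ (fac_isMetric hC hY) h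
  obtain ⟨x₁, hx₁⟩ := hC.ex1
  obtain ⟨x₀, hx₀⟩ := hC.ex0
  have hcont : Continuous fun x : ℝ => |C x / 10 - 1| :=
    ((hC.smooth.continuous.div_const 10).sub continuous_const).abs
  have hop : IsOpen {x : ℝ | 4 / 25 < |C x / 10 - 1|} := isOpen_lt continuous_const hcont
  obtain ⟨r, hr, hball⟩ := Metric.isOpen_iff.mp hop x₁ hx₁
  have hrho : ∀ x y, 4 / 25 < |C x / 10 - 1| → 1 / 20 ≤ |rho C (x, y) - 1| := by
    intro x y hx
    have h8 := Real.cos_le_one y
    have h9 := Real.neg_one_le_cos y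
    unfold rho
    rw [lt_abs] at hx
    rw [le_abs]
    rcases hx with hx | hx
    · left; simp only; linarith
    · right; simp only; linarith
  have hstrip : ∀ x y, |x - x₁| < r → fac C Y (x, y) =
      (fun x => -(1 - C x / 10) ^ 2) x + (1 - Real.cos y / 10) ^ 2 := by
    intro x y hx
    have h1 : 4 / 25 < |C x / 10 - 1| := hball (by rwa [Metric.mem_ball, Real.dist_eq])
    rw [fac_outer hC hY (hrho x y h1)]
    ring
  have h4 := sep_of_form hab hg₁ hg₂ hf hr hstrip x₀ x₁ (Real.pi / 2) 0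
  have e1 : fac C Y (x₀, Real.pi / 2) = 1 - Y 1 ^ 2 := by
    have : rho C (x₀, Real.pi / 2) = 1 := by
      simp [rho, hx₀]
    unfold fac
    rw [this]
    simp [hx₀]
  have e2 : fac C Y (x₀, 0) = 81 / 100 := by
    have : rho C (x₀, 0) = 11 / 10 := by
      simp only [rho, hx₀, Real.cos_zero]; norm_num
    rw [fac_outer hC hY (by rw [this]; norm_num)]
    simp only [hx₀, Real.cos_zero]
    norm_num
  have e3 := hstrip x₁ (Real.pi / 2) (by simpa using hr)
  have e4 := hstrip x₁ 0 (by simpa using hr)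
  rw [e1, e2, e3, e4, Real.cos_pi_div_two, Real.cos_zero] at h4
  have h5 : Y 1 ^ 2 = 0 := by
    linarith
  exact hY.ne0 (pow_eq_zero_iff two_ne_zero |>.mp h5)

/-- A nonempty open subset of the cotangent bundle is foliated by invariant Lagrangian graphs. -/
theorem graphFoliated (hC : CData C) (hY : YData Y kap) (hD : DData kap D)
    (hb : ∀ u p : ℝ, |p| ≤ 1 → |D (u, p)| ≤ 1 / 100 ∧ |fderiv ℝ D (u, p) (0, 1)| ≤ 3 / 100) :
    GraphFoliated Λ₀ (fac C Y) := by
  refine graphFoliated_of (F := Fint C Y D) (a := 9 / 20) (b := 11 / 20) (fac_isMetric hC hY)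
    ?_ ?_ ?_ Fint_homog (by norm_num) (graph_zero hC hY hD) (graph_one hC hY hD) ?_
  · intro z hz
    exact (contDiffAt_Fint hC hY hD hz).contDiffWithinAt
  · intro l hl x p
    exact Fint_periodic hC l hl x p
  · intro z hz
    exact pb_Fint hC hY hD hz
  · intro x θ h0 h1 ha hb'
    exact graph_mono hC hY hD hb x θ h0 h1 ha hb'

end Pool.Agent.TorusInt
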