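import Pool.Agent.TorusInt.Main
import Pool.Agent.TorusInt.InnerZi

/-! Values of the first integral at the points of the annulus where `dF` and `dH` are dependent. -/

set_option autoImplicit false

open scoped ContDiff Topology

namespace Pool.Agent.TorusInt

variable {C Y kap : ℝ → ℝ} {D : ℝ × ℝ → ℝ}

namespace RegInner

/-- the Poisson bracket of two linear forms -/
noncomputable def br (φ ψ : ((ℝ × ℝ) × (ℝ × ℝ)) →L[ℝ] ℝ) : ℝ :=
  (φ ((1, 0), 0) * ψ (0, (1, 0)) - φ (0, (1, 0)) * ψ ((1, 0), 0)) +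
    (φ ((0, 1), 0) * ψ (0, (0, 1)) - φ (0, (0, 1)) * ψ ((0, 1), 0))

theorem pb_def (F G : (ℝ × ℝ) × (ℝ × ℝ) → ℝ) (z : (ℝ × ℝ) × (ℝ × ℝ)) :
    pb F G z = br (fderiv ℝ F z) (fderiv ℝ G z) := rfl

theorem br_antisymm (φ ψ : ((ℝ × ℝ) × (ℝ × ℝ)) →L[ℝ] ℝ) : br φ ψ = -br ψ φ := by
  unfold br; ring

theorem br_self (φ : ((ℝ × ℝ) × (ℝ × ℝ)) →L[ℝ] ℝ) : br φ φ = 0 := by
  unfold br; ring

theorem br_add (φ φ' ψ : ((ℝ × ℝ) × (ℝ × ℝ)) →L[ℝ] ℝ) : br (φ + φ') ψ = br φ ψ + br φ' ψ := by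
  unfold br; simp only [add_apply]; ring

theorem br_smul (c : ℝ) (φ ψ : ((ℝ × ℝ) × (ℝ × ℝ)) →L[ℝ] ℝ) : br (c • φ) ψ = c * br φ ψ := by
  unfold br; simp only [smul_apply, smul_eq_mul]; ring

theorem apply_eq (φ : ((ℝ × ℝ) × (ℝ × ℝ)) →L[ℝ] ℝ) (v : (ℝ × ℝ) × (ℝ × ℝ)) :
    φ v = v.1.1 * φ ((1, 0), 0) + v.1.2 * φ ((0, 1), 0) + v.2.1 * φ (0, (1, 0)) +
      v.2.2 * φ (0, (0, 1)) := by
  have hv : v = v.1.1 • ((1, 0), 0) + v.1.2 • ((0, 1), 0) + v.2.1 • (0, (1, 0)) +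
      v.2.2 • (0, (0, 1)) := by
    ext <;> simp
  conv_lhs => rw [hv]
  simp only [map_add, map_smul, smul_eq_mul]

/-- derivative of the angular momentum along a line -/
theorem line_Lz (hC : CData C) {z : (ℝ × ℝ) × (ℝ × ℝ)} (hz : |rho C z.1 - 1| < 3 / 50)
    (v : (ℝ × ℝ) × (ℝ × ℝ)) :
    HasDerivAt (fun t : ℝ => Lz C (z + t • v))
      (((C z.1.1 * v.1.1 * z.2.2 + deriv C z.1.1 * v.2.2) +
          (Real.cos z.1.2 * v.1.2 * z.2.1 + Real.sin z.1.2 * v.2.1)) /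
            (C z.1.1 - Real.cos z.1.2) -
        (deriv C z.1.1 * z.2.2 + Real.sin z.1.2 * z.2.1) *
          (deriv C z.1.1 * v.1.1 + Real.sin z.1.2 * v.1.2) /
            (C z.1.1 - Real.cos z.1.2) ^ 2) 0 := by
  have hb := InnerR.band hC hz
  have h1 : HasDerivAt (fun t : ℝ => C (z.1.1 + t * v.1.1)) (deriv C z.1.1 * v.1.1) 0 :=
    InnerR.comp_line (InnerR.hC1 hC _) _
  have h2 : HasDerivAt (fun t : ℝ => deriv C (z.1.1 + t * v.1.1)) (C z.1.1 * v.1.1) 0 := by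
    have h := InnerR.comp_line (InnerR.hC2 hC z.1.1) v.1.1
    rw [hb.2.1] at h
    exact h
  have h3 : HasDerivAt (fun t : ℝ => Real.cos (z.1.2 + t * v.1.2))
      (-Real.sin z.1.2 * v.1.2) 0 := InnerR.comp_line (Real.hasDerivAt_cos _) _
  have h4 : HasDerivAt (fun t : ℝ => Real.sin (z.1.2 + t * v.1.2))
      (Real.cos z.1.2 * v.1.2) 0 := InnerR.comp_line (Real.hasDerivAt_sin _) _
  have h5 := InnerR.line z.2.1 v.2.1
  have h6 := InnerR.line z.2.2 v.2.2
  have hmk := (Smooth_sub_pos hC z.1).ne'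
  have h7 := ((h2.mul h6).add (h4.mul h5)).div (h1.sub h3) (by simpa using hmk)
  refine (h7.congr_deriv ?_)
  simp only [zero_mul, add_zero, Pi.add_apply, Pi.mul_apply, Pi.sub_apply]
  field_simp
  ring

theorem br_Lz (hC : CData C) {z : (ℝ × ℝ) × (ℝ × ℝ)} (hz : |rho C z.1 - 1| < 3 / 50)
    (φ : ((ℝ × ℝ) × (ℝ × ℝ)) →L[ℝ] ℝ) : br φ (fderiv ℝ (Lz C) z) = φ (vR C z) := by
  have hd : DifferentiableAt ℝ (Lz C) z := (Smooth_Lz hC).contDiffAt.differentiableAt (by simp)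
  have hL := fun v => fderiv_of_line hd (line_Lz hC hz v)
  have hmk := (Smooth_sub_pos hC z.1).ne'
  have hb := InnerR.band hC hz
  have hsc := Real.sin_sq_add_cos_sq z.1.2
  have hc1 := hb.1
  unfold br
  simp only [hL]
  rw [apply_eq φ (vR C z)]
  simp only [vR, Prod.fst_zero, Prod.snd_zero, mul_one, mul_zero, add_zero, zero_add,
    zero_div, sub_zero]
  set c := C z.1.1
  set c1 := deriv C z.1.1
  set k := Real.cos z.1.2
  set s := Real.sin z.1.2
  set p := z.2.1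
  set q := z.2.2
  have e1 : (p * c1 * s + q * (c * k - 1)) / (c - k) ^ 2 =
      -(c * q / (c - k) - (c1 * q + s * p) * c1 / (c - k) ^ 2) := by
    field_simp
    linear_combination (-q) * hc1
  have e2 : (q * c1 * s - p * (c * k - 1)) / (c - k) ^ 2 =
      -(k * p / (c - k) - (c1 * q + s * p) * s / (c - k) ^ 2) := by
    field_simp
    linear_combination (-p) * hsc
  rw [e1, e2]
  ring

theorem br_Ham (hC : CData C) (hY : YData Y kap) (F : (ℝ × ℝ) × (ℝ × ℝ) → ℝ)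
    (z : (ℝ × ℝ) × (ℝ × ℝ)) :
    br (fderiv ℝ F z) (fderiv ℝ (Ham (fac C Y)) z) = (fac C Y z.1)⁻¹ * fderiv ℝ F z (vH C Y z) :=
  pb_eq hC hY F z

/-- The relations at a point of the annulus where `dF = c dH`. -/
theorem relations (hC : CData C) (hY : YData Y kap) (hD : DData kap D)
    {z : (ℝ × ℝ) × (ℝ × ℝ)} (hz : |rho C z.1 - 1| < 3 / 50) (hp : z.2 ≠ 0) {c : ℝ}
    (hc : fderiv ℝ (Fint C Y D) z = c • fderiv ℝ (Ham (fac C Y)) z) :
    ∃ T : ℝ, Zr C Y D z * T = En C Y z * Lz C z * Zr C Y D z ∧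
      -(2 * Lz C z * Zr C Y D z) + T / 5 = 0 := by
  have dL : DifferentiableAt ℝ (Lz C) z := (Smooth_Lz hC).contDiffAt.differentiableAt (by simp)
  have dZr : DifferentiableAt ℝ (Zr C Y D) z :=
    (contDiffAt_Zr hC hY hD hz hp).differentiableAt (by simp)
  have dZi : DifferentiableAt ℝ (Zi C Y D) z :=
    (contDiffAt_Zi hC hY hD hz hp).differentiableAt (by simp)
  have dH : DifferentiableAt ℝ (Ham (fac C Y)) z :=
    (contDiffAt_Ham hC hY z).differentiableAt (by simp)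
  -- brackets with `Zi`
  have hZiH : br (fderiv ℝ (Zi C Y D) z) (fderiv ℝ (Ham (fac C Y)) z) = 0 := by
    rw [br_Ham hC hY, fderiv_of_line dZi (inner_H_Zi hC hY hD hz hp), mul_zero]
  have hHZi : br (fderiv ℝ (Ham (fac C Y)) z) (fderiv ℝ (Zi C Y D) z) = 0 := by
    rw [br_antisymm, hZiH, neg_zero]
  have hLZi : br (fderiv ℝ (Lz C) z) (fderiv ℝ (Zi C Y D) z) = -Zr C Y D z := by
    rw [br_antisymm, br_Lz hC hz, fderiv_of_line dZi (inner_R_Zi hC hY hD hz hp)]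
  -- the differential of `F`
  have hF : fderiv ℝ (Fint C Y D) z =
      (2 * Lz C z) • fderiv ℝ (Lz C) z + (1 / 5 : ℝ) • fderiv ℝ (Zr C Y D) z := by
    rw [(Fint_eq_inner hC hz).fderiv_eq]
    have h1 := (dL.hasFDerivAt.pow 2).add (dZr.hasFDerivAt.const_mul (1 / 5))
    have h2 : Fin' C Y D = fun w => Lz C w ^ 2 + 1 / 5 * Zr C Y D w := rfl
    rw [h2]
    refine h1.fderiv.trans ?_
    congr 1
    norm_num
  set T := br (fderiv ℝ (Zr C Y D) z) (fderiv ℝ (Zi C Y D) z) with hT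
  refine ⟨T, ?_, ?_⟩
  · -- differentiate `Zr² + Zi² = E (E - L²)`
    have hE : En C Y = fun w => 2 * Ham (fac C Y) w := by
      rw [Ham_eq hC hY]; funext w; ring
    have h1 : (fun w => Zr C Y D w ^ 2 + Zi C Y D w ^ 2) =ᶠ[𝓝 z]
        fun w => 4 * Ham (fac C Y) w ^ 2 - 2 * Ham (fac C Y) w * Lz C w ^ 2 := by
      filter_upwards [(isOpen_inner hC).mem_nhds hz] with w hw
      rw [Z_identity hC hY hw, hE]
      ring
    have h2 := h1.fderiv_eq (𝕜 := ℝ)
    have h3 := ((dZr.hasFDerivAt.pow 2).add (dZi.hasFDerivAt.pow 2)).fderiv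
    have h4 := (((dH.hasFDerivAt.pow 2).const_mul 4).sub
      ((dH.hasFDerivAt.const_mul 2).mul (dL.hasFDerivAt.pow 2))).fderiv
    have h5 : (2 * Zr C Y D z) • fderiv ℝ (Zr C Y D) z + (2 * Zi C Y D z) • fderiv ℝ (Zi C Y D) z =
        (8 * Ham (fac C Y) z - 2 * Lz C z ^ 2) • fderiv ℝ (Ham (fac C Y)) z +
          (-(2 * Ham (fac C Y) z * (2 * Lz C z))) • fderiv ℝ (Lz C) z := by
      have e3 : fderiv ℝ (fun w => Zr C Y D w ^ 2 + Zi C Y D w ^ 2) z =
          (2 * Zr C Y D z) • fderiv ℝ (Zr C Y D) z +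
            (2 * Zi C Y D z) • fderiv ℝ (Zi C Y D) z := by
        refine Eq.trans h3 ?_
        norm_num
      have e4 : fderiv ℝ (fun w => 4 * Ham (fac C Y) w ^ 2 - 2 * Ham (fac C Y) w * Lz C w ^ 2) z =
          (8 * Ham (fac C Y) z - 2 * Lz C z ^ 2) • fderiv ℝ (Ham (fac C Y)) z +
          (-(2 * Ham (fac C Y) z * (2 * Lz C z))) • fderiv ℝ (Lz C) z := by
        refine Eq.trans h4 ?_
        ext <;> simp <;> ring
      rw [← e3, ← e4, h2]
    have h6 := congrArg (fun φ : ((ℝ × ℝ) × (ℝ × ℝ)) →L[ℝ] ℝ => br φ (fderiv ℝ (Zi C Y D) z)) h5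
    simp only [br_add, br_smul, br_self, hHZi, hLZi, ← hT] at h6
    rw [hE]
    linarith
  · have h7 : br (fderiv ℝ (Fint C Y D) z) (fderiv ℝ (Zi C Y D) z) = 0 := by
      rw [hc, br_smul, hHZi, mul_zero]
    rw [hF, br_add, br_smul, br_smul, hLZi, ← hT] at h7
    linarith

/-- The values of `F/E` at the points of the annulus where `dF` and `dH` are dependent. -/
theorem values (hC : CData C) (hY : YData Y kap) (hD : DData kap D)
    {z : (ℝ × ℝ) × (ℝ × ℝ)} (hz : |rho C z.1 - 1| < 3 / 50) (hp : z.2 ≠ 0) {c : ℝ}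
    (hc : fderiv ℝ (Fint C Y D) z = c • fderiv ℝ (Ham (fac C Y)) z) :
    Fint C Y D z / En C Y z ∈ ({1, 1 / 5, -(1 / 5), 101 / 100} : Set ℝ) := by
  have hE := Smooth_En_pos hC hY hp
  have hdep : ¬ LinearIndependent ℝ ![fderiv ℝ (Fint C Y D) z, fderiv ℝ (Ham (fac C Y)) z] := by
    rw [LinearIndependent.pair_iff]
    intro h
    have := (h 1 (-c) (by rw [hc, one_smul, neg_smul, add_neg_cancel])).1
    exact one_ne_zero this
  have hZi := Zi_eq_zero hC hY hD hz hp hdep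
  obtain ⟨T, h1, h2⟩ := relations hC hY hD hz hp hc
  have h3 := Z_identity (D := D) hC hY hz
  have hF : Fint C Y D z = Lz C z ^ 2 + 1 / 5 * Zr C Y D z := by
    rw [(Fint_eq_inner hC hz).eq_of_nhds]
    rfl
  rw [hZi] at h3
  simp only [Set.mem_insert_iff, Set.mem_singleton_iff]
  generalize Fint C Y D z = F at *
  generalize En C Y z = E at *
  generalize Lz C z = L at *
  generalize Zr C Y D z = Z at *
  rw [div_eq_iff hE.ne', div_eq_iff hE.ne', div_eq_iff hE.ne', div_eq_iff hE.ne', hF]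
  by_cases hZ : Z = 0
  · left
    rw [hZ] at h3 ⊢
    have h4 : E * (E - L ^ 2) = 0 := by linarith
    have h5 := (mul_eq_zero.mp h4).resolve_left hE.ne'
    linarith
  · have hT : T = E * L := by
      apply mul_left_cancel₀ hZ
      linarith
    have h4 : L * (E / 5 - 2 * Z) = 0 := by
      rw [hT] at h2
      linarith
    rcases mul_eq_zero.mp h4 with h5 | h5
    · rw [h5] at h3 ⊢
      have h6 : (Z - E) * (Z + E) = 0 := by linarith
      rcases mul_eq_zero.mp h6 with h7 | h7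
      · right; left; linarith
      · right; right; left; linarith
    · right; right; right
      have h6 : Z = E / 10 := by linarith
      rw [h6] at h3 ⊢
      have h7 : E * (E / 100 - (E - L ^ 2)) = 0 := by linarith
      have h8 := (mul_eq_zero.mp h7).resolve_left hE.ne'
      linarith

end RegInner

end Pool.Agent.TorusInt
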