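import Pool.Agent.TorusInt.RegInner

/-! An open dense subset of the cotangent bundle is the union of compact regular common levels of
the first integral and the Hamiltonian. -/

set_option autoImplicit false

open scoped ContDiff Topology
open MeasureTheory

namespace Pool.Agent.TorusInt

variable {C Y kap : ℝ → ℝ} {D : ℝ × ℝ → ℝ}

namespace RegLevels

/-- the points off the zero section where `dF` and `dH` are dependent -/
def crit (C Y : ℝ → ℝ) (D : ℝ × ℝ → ℝ) : Set ((ℝ × ℝ) × (ℝ × ℝ)) :=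
  {z | z.2 ≠ 0 ∧ ¬ LinearIndependent ℝ ![fderiv ℝ (Fint C Y D) z, fderiv ℝ (Ham (fac C Y)) z]}

/-- the quotient `F/E` -/
noncomputable def quo (C Y : ℝ → ℝ) (D : ℝ × ℝ → ℝ) (z : (ℝ × ℝ) × (ℝ × ℝ)) : ℝ :=
  Fint C Y D z / En C Y z

theorem contDiffAt_quo (hC : CData C) (hY : YData Y kap) (hD : DData kap D)
    {z : (ℝ × ℝ) × (ℝ × ℝ)} (hp : z.2 ≠ 0) : ContDiffAt ℝ ∞ (quo C Y D) z :=
  (contDiffAt_Fint hC hY hD hp).div (contDiffAt_En hC hY z) (Smooth_En_pos hC hY hp).ne'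

theorem continuousAt_quo (hC : CData C) (hY : YData Y kap) (hD : DData kap D)
    {z : (ℝ × ℝ) × (ℝ × ℝ)} (hp : z.2 ≠ 0) : ContinuousAt (quo C Y D) z :=
  (contDiffAt_quo hC hY hD hp).continuousAt

/-- Euler's relation -/
theorem euler_F (hC : CData C) (hY : YData Y kap) (hD : DData kap D)
    {z : (ℝ × ℝ) × (ℝ × ℝ)} (hp : z.2 ≠ 0) :
    fderiv ℝ (Fint C Y D) z (0, z.2) = 2 * Fint C Y D z := by
  apply fderiv_of_line ((contDiffAt_Fint hC hY hD hp).differentiableAt (by simp))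
  have h1 : HasDerivAt (fun t : ℝ => (1 + t) ^ 2 * Fint C Y D z) (2 * Fint C Y D z) 0 := by
    have e1 : HasDerivAt (fun t : ℝ => (1 + t) ^ 2) 2 0 := by
      have := ((hasDerivAt_id (0 : ℝ)).const_add 1).pow 2
      exact this.congr_deriv (by simp)
    exact e1.mul_const _
  refine h1.congr_of_eventuallyEq ?_
  have h2 : ∀ᶠ t : ℝ in 𝓝 0, 0 < 1 + t := by
    have : ContinuousAt (fun t : ℝ => 1 + t) 0 := by fun_prop
    exact this.eventually (lt_mem_nhds (by norm_num))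
  filter_upwards [h2] with t ht
  have h3 : z + t • ((0, z.2) : (ℝ × ℝ) × (ℝ × ℝ)) = (z.1, (1 + t) • z.2) := by
    ext <;> simp <;> ring
  rw [h3, Fint_homog z.1 z.2 (1 + t) ht]

theorem euler_H (hC : CData C) (hY : YData Y kap) (z : (ℝ × ℝ) × (ℝ × ℝ)) :
    fderiv ℝ (Ham (fac C Y)) z (0, z.2) = En C Y z := by
  have hf : DifferentiableAt ℝ (fac C Y) z.1 :=
    (Smooth_contDiff_fac hC hY).contDiffAt.differentiableAt (by simp)
  have h0 := Smooth_fac_pos hC hY z.1
  rw [(hasFDerivAt_Ham hf h0.ne' ((0, z.2) : (ℝ × ℝ) × (ℝ × ℝ))).2]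
  simp only [En, nsq, map_zero, mul_zero, sub_zero]
  ring

/-- `dF = (2F/E) dH` at the points of `crit` -/
theorem crit_eq (hC : CData C) (hY : YData Y kap) (hD : DData kap D)
    {z : (ℝ × ℝ) × (ℝ × ℝ)} (hz : z ∈ crit C Y D) :
    fderiv ℝ (Fint C Y D) z = (2 * quo C Y D z) • fderiv ℝ (Ham (fac C Y)) z := by
  obtain ⟨hp, hdep⟩ := hz
  rw [LinearIndependent.pair_iff] at hdep
  push Not at hdep
  obtain ⟨s, t, hst, hne⟩ := hdep
  have hs : s ≠ 0 := by
    rintro rfl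
    rw [zero_smul, zero_add] at hst
    have ht : t = 0 := by
      by_contra ht
      exact fderiv_Ham_ne hC hY hp ((smul_eq_zero.mp hst).resolve_left ht)
    exact hne rfl ht
  have h1 : fderiv ℝ (Fint C Y D) z = (-(t / s)) • fderiv ℝ (Ham (fac C Y)) z := by
    have h2 : s • fderiv ℝ (Fint C Y D) z = s • ((-(t / s)) • fderiv ℝ (Ham (fac C Y)) z) := by
      rw [smul_smul, eq_neg_of_add_eq_zero_left hst, ← neg_smul]
      congr 1
      field_simp
    exact smul_right_injective _ hs h2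
  have hE := Smooth_En_pos hC hY hp
  have h3 : 2 * Fint C Y D z = -(t / s) * En C Y z := by
    rw [← euler_F hC hY hD hp, h1, smul_apply, euler_H hC hY, smul_eq_mul]
  rw [h1]
  congr 1
  unfold quo
  rw [← mul_div_assoc, eq_div_iff hE.ne', h3]

theorem mem_crit_of_eq {z : (ℝ × ℝ) × (ℝ × ℝ)} (hp : z.2 ≠ 0) {c : ℝ}
    (h : fderiv ℝ (Fint C Y D) z = c • fderiv ℝ (Ham (fac C Y)) z) : z ∈ crit C Y D := by
  refine ⟨hp, ?_⟩
  rw [LinearIndependent.pair_iff]
  intro h'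
  have := (h' 1 (-c) (by rw [h, one_smul, neg_smul, add_neg_cancel])).1
  exact one_ne_zero this

/-- `dF` in terms of the differential of the quotient -/
theorem fderiv_Fint_quo (hC : CData C) (hY : YData Y kap) (hD : DData kap D)
    {z : (ℝ × ℝ) × (ℝ × ℝ)} (hp : z.2 ≠ 0) :
    fderiv ℝ (Fint C Y D) z = (2 * quo C Y D z) • fderiv ℝ (Ham (fac C Y)) z +
      (En C Y z) • fderiv ℝ (quo C Y D) z := by
  have hE : En C Y = fun w => 2 * Ham (fac C Y) w := by
    rw [Ham_eq hC hY]; funext w; ring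
  have dq : DifferentiableAt ℝ (quo C Y D) z :=
    (contDiffAt_quo hC hY hD hp).differentiableAt (by simp)
  have dH : DifferentiableAt ℝ (Ham (fac C Y)) z :=
    (contDiffAt_Ham hC hY z).differentiableAt (by simp)
  have h1 : Fint C Y D =ᶠ[𝓝 z] fun w => quo C Y D w * (2 * Ham (fac C Y) w) := by
    filter_upwards [isOpen_ne.mem_nhds hp] with w hw
    have := (Smooth_En_pos hC hY hw).ne'
    unfold quo
    rw [show 2 * Ham (fac C Y) w = En C Y w by rw [hE]]
    field_simp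
  rw [h1.fderiv_eq]
  refine ((dq.hasFDerivAt.mul (dH.hasFDerivAt.const_mul 2)).fderiv).trans ?_
  rw [hE]
  ext <;> simp <;> ring

theorem crit_iff (hC : CData C) (hY : YData Y kap) (hD : DData kap D)
    {z : (ℝ × ℝ) × (ℝ × ℝ)} (hp : z.2 ≠ 0) :
    z ∈ crit C Y D ↔ fderiv ℝ (quo C Y D) z = 0 := by
  constructor
  · intro h
    have h1 := crit_eq hC hY hD h
    rw [fderiv_Fint_quo hC hY hD hp] at h1
    have h2 : En C Y z • fderiv ℝ (quo C Y D) z = 0 := by simpa using h1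
    exact (smul_eq_zero.mp h2).resolve_left (Smooth_En_pos hC hY hp).ne'
  · intro h
    apply mem_crit_of_eq hp (c := 2 * quo C Y D z)
    rw [fderiv_Fint_quo hC hY hD hp, h, smul_zero, add_zero]

/-! ### the critical values form a null set -/

/-- Sard's theorem in dimension one -/
theorem sard {h : ℝ → ℝ} (hh : Differentiable ℝ h) : volume (h '' {x | deriv h x = 0}) = 0 := by
  apply addHaar_image_eq_zero_of_det_fderivWithin_eq_zero volume (f' := fun x => fderiv ℝ h x)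
  · intro x _
    exact (hh x).hasFDerivAt.hasFDerivWithinAt
  · intro x hx
    have hx' : deriv h x = 0 := hx
    have h1 : fderiv ℝ h x = 0 := by
      ext
      simpa using hx'
    rw [h1]
    simp

/-- the auxiliary functions of one variable -/
noncomputable def h₁ (C : ℝ → ℝ) (x : ℝ) : ℝ := 101 / 100 - (1 - C x / 10) ^ 2

/-- the auxiliary functions of one variable -/
noncomputable def h₂ (y : ℝ) : ℝ := 101 / 100 - (1 - Real.cos y / 10) ^ 2

theorem deriv_eq_zero_of_line (hC : CData C) (hY : YData Y kap) (hD : DData kap D)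
    {z : (ℝ × ℝ) × (ℝ × ℝ)} (hz : z ∈ crit C Y D) (v : (ℝ × ℝ) × (ℝ × ℝ)) :
    HasDerivAt (fun t : ℝ => quo C Y D (z + t • v)) 0 0 := by
  have h0 := (crit_iff hC hY hD hz.1).mp hz
  have dq : DifferentiableAt ℝ (quo C Y D) z :=
    (contDiffAt_quo hC hY hD hz.1).differentiableAt (by simp)
  have h1 : HasDerivAt (fun t : ℝ => z + t • v) v 0 := by
    simpa using ((hasDerivAt_id (0 : ℝ)).smul_const v).const_add z
  have h2 : HasFDerivAt (quo C Y D) (fderiv ℝ (quo C Y D) z) (z + (0 : ℝ) • v) := by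
    simpa using dq.hasFDerivAt
  have h3 := h2.comp_hasDerivAt (0 : ℝ) h1
  rw [h0] at h3
  exact h3.congr_deriv (by simp)

theorem crit_values (hC : CData C) (hY : YData Y kap) (hD : DData kap D) :
    quo C Y D '' crit C Y D ⊆ ({1, 1 / 5, -(1 / 5), 101 / 100} : Set ℝ) ∪
      (h₁ C '' {x | deriv (h₁ C) x = 0} ∪ h₂ '' {y | deriv h₂ y = 0}) := by
  rintro _ ⟨z, hz, rfl⟩
  by_cases hin : |rho C z.1 - 1| < 3 / 50
  · left
    exact RegInner.values hC hY hD hin hz.1 (crit_eq hC hY hD hz)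
  · right
    push Not at hin
    have hout : 1 / 20 < |rho C z.1 - 1| := by linarith
    have hpq : z.2.1 = 0 ∨ z.2.2 = 0 := by
      by_contra hcon
      push Not at hcon
      have h1 := outer_indep hC hY hout hcon.1 hcon.2
      rw [← (Fint_eq_outer hC hY hD hout hz.1).fderiv_eq] at h1
      exact hz.2 h1
    have hFo : ∀ {w : (ℝ × ℝ) × (ℝ × ℝ)}, 1 / 20 < |rho C w.1 - 1| → w.2 ≠ 0 →
        quo C Y D w = Fout C Y w / En C Y w := by
      intro w hw hpw
      unfold quo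
      rw [(Fint_eq_outer hC hY hD hw hpw).eq_of_nhds]
    rcases hpq with hp0 | hq0
    · left
      have hval : ∀ {w : (ℝ × ℝ) × (ℝ × ℝ)}, 1 / 20 < |rho C w.1 - 1| → w.2 ≠ 0 → w.2.1 = 0 →
          quo C Y D w = h₁ C w.1.1 := by
        intro w hw hpw hw0
        have hE := (Smooth_En_pos hC hY hpw).ne'
        rw [hFo hw hpw]
        unfold Fout h₁
        rw [hw0]
        field_simp
        ring
      refine ⟨z.1.1, ?_, (hval hout hz.1 hp0).symm⟩
      have h1 := deriv_eq_zero_of_line hC hY hD hz ((1, 0), 0)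
      have hev : (fun t : ℝ => h₁ C (z.1.1 + t)) =ᶠ[𝓝 0]
          fun t : ℝ => quo C Y D (z + t • (((1, 0), 0) : (ℝ × ℝ) × (ℝ × ℝ))) := by
        have hcont : ContinuousAt
            (fun t : ℝ => z + t • (((1, 0), 0) : (ℝ × ℝ) × (ℝ × ℝ))) 0 := by fun_prop
        have h2 : ∀ᶠ t : ℝ in 𝓝 0, z + t • (((1, 0), 0) : (ℝ × ℝ) × (ℝ × ℝ)) ∈
            {z : (ℝ × ℝ) × (ℝ × ℝ) | 1 / 20 < |rho C z.1 - 1|} := by
          apply hcont.eventually_mem
          simpa using (isOpen_outer hC).mem_nhds hout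
        filter_upwards [h2] with t ht
        rw [hval ht]
        · simp
        · simpa using hz.1
        · simpa using hp0
      have h3 := h1.congr_of_eventuallyEq hev
      have h4 : HasDerivAt (h₁ C) 0 z.1.1 := by
        have h5 : HasDerivAt (fun x : ℝ => (fun t : ℝ => h₁ C (z.1.1 + t)) (x - z.1.1)) 0 z.1.1 := by
          have h6 : HasDerivAt (fun x : ℝ => x - z.1.1) 1 z.1.1 :=
            (hasDerivAt_id z.1.1).sub_const z.1.1
          have h7 : HasDerivAt (fun t : ℝ => h₁ C (z.1.1 + t)) 0 (z.1.1 - z.1.1) := by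
            rw [sub_self]; exact h3
          exact (HasDerivAt.comp (h₂ := fun t : ℝ => h₁ C (z.1.1 + t))
            (h := fun x : ℝ => x - z.1.1) z.1.1 h7 h6).congr_deriv (by simp)
        simpa using h5
      exact h4.deriv
    · right
      have hval : ∀ {w : (ℝ × ℝ) × (ℝ × ℝ)}, 1 / 20 < |rho C w.1 - 1| → w.2 ≠ 0 → w.2.2 = 0 →
          quo C Y D w = h₂ w.1.2 := by
        intro w hw hpw hw0
        have hE := (Smooth_En_pos hC hY hpw).ne'
        have hf := (Smooth_fac_pos hC hY w.1).ne'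
        rw [hFo hw hpw]
        have h1 : w.2.1 ^ 2 = En C Y w * fac C Y w.1 := by
          unfold En nsq
          rw [hw0]
          field_simp
          ring
        unfold Fout h₂
        rw [h1, fac_outer hC hY hw.le]
        field_simp
        ring
      refine ⟨z.1.2, ?_, (hval hout hz.1 hq0).symm⟩
      have h1 := deriv_eq_zero_of_line hC hY hD hz ((0, 1), 0)
      have hev : (fun t : ℝ => h₂ (z.1.2 + t)) =ᶠ[𝓝 0]
          fun t : ℝ => quo C Y D (z + t • (((0, 1), 0) : (ℝ × ℝ) × (ℝ × ℝ))) := by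
        have hcont : ContinuousAt
            (fun t : ℝ => z + t • (((0, 1), 0) : (ℝ × ℝ) × (ℝ × ℝ))) 0 := by fun_prop
        have h2 : ∀ᶠ t : ℝ in 𝓝 0, z + t • (((0, 1), 0) : (ℝ × ℝ) × (ℝ × ℝ)) ∈
            {z : (ℝ × ℝ) × (ℝ × ℝ) | 1 / 20 < |rho C z.1 - 1|} := by
          apply hcont.eventually_mem
          simpa using (isOpen_outer hC).mem_nhds hout
        filter_upwards [h2] with t ht
        rw [hval ht]
        · simp
        · simpa using hz.1
        · simpa using hq0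
      have h3 := h1.congr_of_eventuallyEq hev
      have h4 : HasDerivAt h₂ 0 z.1.2 := by
        have h5 : HasDerivAt (fun x : ℝ => (fun t : ℝ => h₂ (z.1.2 + t)) (x - z.1.2)) 0 z.1.2 := by
          have h6 : HasDerivAt (fun x : ℝ => x - z.1.2) 1 z.1.2 :=
            (hasDerivAt_id z.1.2).sub_const z.1.2
          have h7 : HasDerivAt (fun t : ℝ => h₂ (z.1.2 + t)) 0 (z.1.2 - z.1.2) := by
            rw [sub_self]; exact h3
          exact (HasDerivAt.comp (h₂ := fun t : ℝ => h₂ (z.1.2 + t))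
            (h := fun x : ℝ => x - z.1.2) z.1.2 h7 h6).congr_deriv (by simp)
        simpa using h5
      exact h4.deriv

theorem crit_values_null (hC : CData C) (hY : YData Y kap) (hD : DData kap D) :
    volume (quo C Y D '' crit C Y D) = 0 := by
  refine measure_mono_null (crit_values hC hY hD) ?_
  rw [measure_union_null_iff, measure_union_null_iff]
  refine ⟨Set.Finite.measure_zero (by simp) _, sard ?_, sard ?_⟩
  · have := hC.smooth.differentiable (by simp)
    unfold h₁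
    fun_prop
  · unfold h₂
    fun_prop

/-! ### invariance and compactness -/

theorem En_homog (x p : ℝ × ℝ) (t : ℝ) :
    En C Y (x, t • p) = t ^ 2 * En C Y (x, p) := by
  simp only [En, nsq, Prod.smul_fst, Prod.smul_snd, smul_eq_mul]; ring

theorem En_periodic (hC : CData C) (hY : YData Y kap) (l : ℝ × ℝ) (hl : l ∈ Λ₀) (x p : ℝ × ℝ) :
    En C Y (x + l, p) = En C Y (x, p) := by
  simp only [En, (fac_isMetric hC hY).2.2 l hl x]

theorem quo_inv (hC : CData C) (hY : YData Y kap) (l : ℝ × ℝ) (hl : l ∈ Λ₀) {s : ℝ} (hs : 0 < s)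
    (z : (ℝ × ℝ) × (ℝ × ℝ)) : quo C Y D (z.1 + l, s • z.2) = quo C Y D z := by
  unfold quo
  rw [Fint_periodic hC l hl, En_periodic hC hY l hl, Fint_homog _ _ _ hs, En_homog]
  have : s ^ 2 ≠ 0 := by positivity
  rw [mul_div_mul_left _ _ this]

theorem crit_inv (hC : CData C) (hY : YData Y kap) (hD : DData kap D) (l : ℝ × ℝ) (hl : l ∈ Λ₀)
    {s : ℝ} (hs : 0 < s) {z : (ℝ × ℝ) × (ℝ × ℝ)} (hz : z ∈ crit C Y D) :
    ((z.1 + l, s • z.2) : (ℝ × ℝ) × (ℝ × ℝ)) ∈ crit C Y D := by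
  have hp : ((z.1 + l, s • z.2) : (ℝ × ℝ) × (ℝ × ℝ)).2 ≠ 0 := smul_ne_zero hs.ne' hz.1
  rw [crit_iff hC hY hD hp]
  have h0 := (crit_iff hC hY hD hz.1).mp hz
  have dq : DifferentiableAt ℝ (quo C Y D) z :=
    (contDiffAt_quo hC hY hD hz.1).differentiableAt (by simp)
  set S : (ℝ × ℝ) × (ℝ × ℝ) → (ℝ × ℝ) × (ℝ × ℝ) := fun w => (w.1 + -l, s⁻¹ • w.2) with hS
  have hSz : S (z.1 + l, s • z.2) = z := by
    ext <;> simp [hS, hs.ne']
  have hSd : DifferentiableAt ℝ S (z.1 + l, s • z.2) := by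
    rw [hS]
    fun_prop
  have hq : quo C Y D = quo C Y D ∘ S := by
    funext w
    exact (quo_inv hC hY (-l) (neg_mem hl) (inv_pos.mpr hs) w).symm
  have h1 : HasFDerivAt (quo C Y D) (0 : ((ℝ × ℝ) × (ℝ × ℝ)) →L[ℝ] ℝ) (S (z.1 + l, s • z.2)) := by
    rw [hSz, ← h0]
    exact dq.hasFDerivAt
  have h2 := h1.comp _ hSd.hasFDerivAt
  rw [← hq] at h2
  rw [h2.fderiv]
  simp

theorem exists_translate (x : ℝ × ℝ) :
    ∃ l ∈ Λ₀, x + l ∈ Set.Icc ((0, 0) : ℝ × ℝ) (3 / 2, 2 * Real.pi) := by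
  have hpi : 0 < 2 * Real.pi := by positivity
  refine ⟨-(⌊x.1 / (3 / 2)⌋ • ((3 / 2 : ℝ), (0 : ℝ)) +
    ⌊x.2 / (2 * Real.pi)⌋ • ((0 : ℝ), 2 * Real.pi)), ?_, ?_⟩
  · apply neg_mem
    apply add_mem
    · exact zsmul_mem (AddSubgroup.subset_closure (by simp)) _
    · exact zsmul_mem (AddSubgroup.subset_closure (by simp)) _
  · have h1 := Int.floor_le (x.1 / (3 / 2))
    have h2 := Int.lt_floor_add_one (x.1 / (3 / 2))
    have h3 := Int.floor_le (x.2 / (2 * Real.pi))
    have h4 := Int.lt_floor_add_one (x.2 / (2 * Real.pi))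
    rw [le_div_iff₀ (by norm_num)] at h1
    rw [div_lt_iff₀ (by norm_num)] at h2
    rw [le_div_iff₀ hpi] at h3
    rw [div_lt_iff₀ hpi] at h4
    have key : ∀ (n : ℤ) (a b : ℝ), n • ((a, b) : ℝ × ℝ) = ((n : ℝ) * a, (n : ℝ) * b) := by
      intro n a b
      ext <;> simp
    rw [Set.mem_Icc, Prod.le_def, Prod.le_def, key, key]
    simp only [Prod.fst_add, Prod.snd_add, Prod.fst_neg, Prod.snd_neg, mul_zero, add_zero,
      zero_add]
    refine ⟨⟨by linarith, by linarith⟩, by linarith, by linarith⟩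

theorem isOpen_indep (hC : CData C) (hY : YData Y kap) (hD : DData kap D) :
    IsOpen {z : (ℝ × ℝ) × (ℝ × ℝ) | z.2 ≠ 0 ∧
      LinearIndependent ℝ ![fderiv ℝ (Fint C Y D) z, fderiv ℝ (Ham (fac C Y)) z]} := by
  have h1 : ContinuousOn (fun z => ![fderiv ℝ (Fint C Y D) z, fderiv ℝ (Ham (fac C Y)) z])
      {z : (ℝ × ℝ) × (ℝ × ℝ) | z.2 ≠ 0} := by
    intro z hz
    have h2 : ContinuousAt (fderiv ℝ (Fint C Y D)) z :=
      (contDiffAt_Fint hC hY hD hz).continuousAt_fderiv (by simp)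
    have h3 : ContinuousAt (fderiv ℝ (Ham (fac C Y))) z :=
      (contDiffAt_Ham hC hY z).continuousAt_fderiv (by simp)
    apply ContinuousAt.continuousWithinAt
    rw [continuousAt_pi]
    intro i
    fin_cases i
    · exact h2
    · exact h3
  exact h1.isOpen_inter_preimage isOpen_ne isOpen_setOfPred_linearIndependent

theorem dense_indep (hC : CData C) (hY : YData Y kap) (hD : DData kap D) :
    Dense {z : (ℝ × ℝ) × (ℝ × ℝ) | z.2 ≠ 0 ∧
      LinearIndependent ℝ ![fderiv ℝ (Fint C Y D) z, fderiv ℝ (Ham (fac C Y)) z]} := by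
  rw [dense_iff_inter_open]
  intro V hV hne
  obtain ⟨z₀, hz₀, h01, h02⟩ := exists_momentum hV hne
  have hV1 : IsOpen (V ∩ {z | z.2 ≠ 0}) := hV.inter isOpen_ne
  by_cases hout : ∃ z ∈ V ∩ {z : (ℝ × ℝ) × (ℝ × ℝ) | z.2 ≠ 0}, 1 / 20 < |rho C z.1 - 1|
  · obtain ⟨z₁, hz₁, hz₁'⟩ := hout
    obtain ⟨z, hz, h1, h2⟩ := exists_momentum (hV1.inter (isOpen_outer hC)) ⟨z₁, hz₁, hz₁'⟩
    refine ⟨z, hz.1.1, hz.1.2, ?_⟩
    rw [(Fint_eq_outer hC hY hD hz.2 hz.1.2).fderiv_eq]
    exact outer_indep hC hY hz.2 h1 h2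
  · push Not at hout
    obtain ⟨z, hz, hli⟩ := inner_dense hC hY hD hV1 ⟨z₀, hz₀, fun h => h01 (by rw [h]; rfl)⟩
      (fun z hz => (hout z hz).trans_lt (by norm_num)) (fun z hz => hz.2)
    exact ⟨z, hz.1, hz.2, hli⟩

theorem isCompact_sphere : IsCompact {z : (ℝ × ℝ) × (ℝ × ℝ) |
    z.1 ∈ Set.Icc ((0, 0) : ℝ × ℝ) (3 / 2, 2 * Real.pi) ∧ nsq z.2 = 1} := by
  refine ((isCompact_Icc (a := ((0, 0) : ℝ × ℝ)) (b := (3 / 2, 2 * Real.pi))).prod
    (isCompact_Icc (a := ((-1, -1) : ℝ × ℝ)) (b := (1, 1)))).of_isClosed_subset ?_ ?_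
  · apply IsClosed.inter
    · exact isClosed_Icc.preimage continuous_fst
    · refine isClosed_eq ?_ continuous_const
      unfold nsq
      fun_prop
  · rintro z ⟨h1, h2⟩
    refine ⟨h1, ?_⟩
    unfold nsq at h2
    rw [Set.mem_Icc, Prod.le_def, Prod.le_def]
    simp only
    refine ⟨⟨?_, ?_⟩, ?_, ?_⟩ <;> nlinarith

theorem crit_image (hC : CData C) (hY : YData Y kap) (hD : DData kap D) :
    quo C Y D '' crit C Y D = quo C Y D '' ({z : (ℝ × ℝ) × (ℝ × ℝ) |
      z.1 ∈ Set.Icc ((0, 0) : ℝ × ℝ) (3 / 2, 2 * Real.pi) ∧ nsq z.2 = 1} \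
        {z : (ℝ × ℝ) × (ℝ × ℝ) | z.2 ≠ 0 ∧
          LinearIndependent ℝ ![fderiv ℝ (Fint C Y D) z, fderiv ℝ (Ham (fac C Y)) z]}) := by
  apply Set.Subset.antisymm
  · rintro _ ⟨z, hz, rfl⟩
    obtain ⟨l, hl, hx⟩ := exists_translate z.1
    have hn : 0 < nsq z.2 := by
      unfold nsq
      rcases eq_or_ne z.2.1 0 with h | h
      · rcases eq_or_ne z.2.2 0 with h' | h'
        · exact absurd (Prod.ext h h') hz.1
        · positivity
      · positivity
    have hs : 0 < (Real.sqrt (nsq z.2))⁻¹ := inv_pos.mpr (Real.sqrt_pos.mpr hn)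
    refine ⟨(z.1 + l, (Real.sqrt (nsq z.2))⁻¹ • z.2), ⟨⟨hx, ?_⟩, ?_⟩, quo_inv hC hY l hl hs z⟩
    · have h1 : nsq ((Real.sqrt (nsq z.2))⁻¹ • z.2) = (Real.sqrt (nsq z.2))⁻¹ ^ 2 * nsq z.2 := by
        simp only [nsq, Prod.smul_fst, Prod.smul_snd, smul_eq_mul]; ring
      simp only
      rw [h1, inv_pow, Real.sq_sqrt hn.le]
      exact inv_mul_cancel₀ hn.ne'
    · intro h
      exact (crit_inv hC hY hD l hl hs hz).2 h.2
  · rintro _ ⟨z, ⟨hz1, hz2⟩, rfl⟩
    have hp : z.2 ≠ 0 := by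
      intro h
      have := hz1.2
      rw [h] at this
      simp [nsq] at this
    exact ⟨z, ⟨hp, fun h => hz2 ⟨hp, h⟩⟩, rfl⟩

theorem isCompact_critValues (hC : CData C) (hY : YData Y kap) (hD : DData kap D) :
    IsCompact (quo C Y D '' crit C Y D) := by
  rw [crit_image hC hY hD]
  apply (isCompact_sphere.diff (isOpen_indep hC hY hD)).image_of_continuousOn
  rintro z ⟨hz, -⟩
  have hp : z.2 ≠ 0 := by
    intro h
    have := hz.2
    rw [h] at this
    simp [nsq] at this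
  exact (continuousAt_quo hC hY hD hp).continuousWithinAt

/-- the set of the statement -/
def good (C Y : ℝ → ℝ) (D : ℝ × ℝ → ℝ) : Set ((ℝ × ℝ) × (ℝ × ℝ)) :=
  {z | z.2 ≠ 0} ∩ quo C Y D ⁻¹' (quo C Y D '' crit C Y D)ᶜ

theorem isOpen_good (hC : CData C) (hY : YData Y kap) (hD : DData kap D) :
    IsOpen (good C Y D) := by
  apply ContinuousOn.isOpen_inter_preimage _ isOpen_ne
    (isCompact_critValues hC hY hD).isClosed.isOpen_compl
  intro z hz
  exact (continuousAt_quo hC hY hD hz).continuousWithinAt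

theorem dense_good (hC : CData C) (hY : YData Y kap) (hD : DData kap D) :
    Dense (good C Y D) := by
  rw [dense_iff_inter_open]
  intro W hW hne
  obtain ⟨z, hzW, hz⟩ := (dense_indep hC hY hD).inter_open_nonempty W hW hne
  have hnc : fderiv ℝ (quo C Y D) z ≠ 0 := by
    intro h
    exact ((crit_iff hC hY hD hz.1).mpr h).2 hz.2
  obtain ⟨v, hv⟩ : ∃ v, fderiv ℝ (quo C Y D) z v ≠ 0 := by
    by_contra hcon
    push Not at hcon
    exact hnc (ContinuousLinearMap.ext hcon)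
  by_contra hcon
  have hsub : ∀ w ∈ W, w.2 ≠ 0 → quo C Y D w ∈ quo C Y D '' crit C Y D := by
    intro w hw hpw
    by_contra h
    exact hcon ⟨w, hw, hpw, h⟩
  have hc : Continuous (fun t : ℝ => z + t • v) := by fun_prop
  have hev : ∀ᶠ t : ℝ in 𝓝 0, z + t • v ∈ W ∩ {z | z.2 ≠ 0} := by
    apply hc.continuousAt.eventually_mem
    simpa using (hW.inter isOpen_ne).mem_nhds ⟨hzW, hz.1⟩
  obtain ⟨ε, hε, hball⟩ := Metric.eventually_nhds_iff.mp hev
  have hder : HasDerivAt (fun t : ℝ => quo C Y D (z + t • v)) (fderiv ℝ (quo C Y D) z v) 0 := by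
    have h1 : HasDerivAt (fun t : ℝ => z + t • v) v 0 := by
      simpa using ((hasDerivAt_id (0 : ℝ)).smul_const v).const_add z
    have h2 : HasFDerivAt (quo C Y D) (fderiv ℝ (quo C Y D) z) (z + (0 : ℝ) • v) := by
      simpa using ((contDiffAt_quo hC hY hD hz.1).differentiableAt (by simp)).hasFDerivAt
    exact h2.comp_hasDerivAt (0 : ℝ) h1
  have hne' : ∀ᶠ t : ℝ in 𝓝[≠] 0, quo C Y D (z + t • v) ≠ quo C Y D (z + (0 : ℝ) • v) :=
    hder.eventually_ne hv
  have hev2 : ∀ᶠ t : ℝ in 𝓝[≠] 0, t ∈ Metric.ball (0 : ℝ) ε :=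
    mem_nhdsWithin_of_mem_nhds (Metric.ball_mem_nhds 0 hε)
  obtain ⟨t, ht1, ht2⟩ := (hne'.and hev2).exists
  set g : ℝ → ℝ := fun t => quo C Y D (z + t • v) with hg
  have hseg : ∀ r ∈ Set.uIcc 0 t, dist r 0 < ε := by
    intro r hr
    rw [Metric.mem_ball, Real.dist_eq, sub_zero] at ht2
    rw [Real.dist_eq, sub_zero]
    rcases Set.mem_uIcc.mp hr with h | h
    · rw [abs_of_nonneg h.1]
      exact (h.2.trans (le_abs_self t)).trans_lt ht2
    · rw [abs_of_nonpos h.2]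
      exact (neg_le_neg h.1 |>.trans (neg_le_abs t)).trans_lt ht2
  have hgc : ContinuousOn g (Set.uIcc 0 t) := by
    intro r hr
    have h1 := hball (hseg r hr)
    have h2 : ContinuousAt (quo C Y D) ((fun t : ℝ => z + t • v) r) :=
      continuousAt_quo hC hY hD h1.2
    exact (ContinuousAt.comp (f := fun t : ℝ => z + t • v) h2
      hc.continuousAt).continuousWithinAt
  have himg : Set.uIcc (g 0) (g t) ⊆ quo C Y D '' crit C Y D := by
    intro y hy
    obtain ⟨r, hr, rfl⟩ := intermediate_value_uIcc hgc hy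
    have h1 := hball (hseg r hr)
    exact hsub _ h1.1 h1.2
  have hnull := measure_mono_null himg (crit_values_null hC hY hD)
  rw [Real.volume_interval, ENNReal.ofReal_eq_zero] at hnull
  have h3 : |g t - g 0| = 0 := le_antisymm hnull (abs_nonneg _)
  rw [abs_eq_zero, sub_eq_zero] at h3
  exact ht1 h3

theorem isCompact_level (hC : CData C) (hY : YData Y kap) (hD : DData kap D) {c e : ℝ}
    (hc : 0 < c) : IsCompact {w : (ℝ × ℝ) × (ℝ × ℝ) |
      w.1 ∈ Set.Icc ((0, 0) : ℝ × ℝ) (3 / 2, 2 * Real.pi) ∧ w.2 ≠ 0 ∧ Fint C Y D w = e ∧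
        Ham (fac C Y) w = c} := by
  have hfc : Continuous (fac C Y) := (Smooth_contDiff_fac hC hY).continuous
  obtain ⟨M, hM⟩ := (isCompact_Icc (a := ((0, 0) : ℝ × ℝ))
    (b := (3 / 2, 2 * Real.pi))).exists_bound_of_continuousOn hfc.continuousOn
  have hH : ∀ w : (ℝ × ℝ) × (ℝ × ℝ), Ham (fac C Y) w = c ↔ nsq w.2 = 2 * c * fac C Y w.1 := by
    intro w
    have := Smooth_fac_pos hC hY w.1
    unfold Ham
    rw [div_eq_iff (by positivity)]
    constructor <;> intro h <;> linarith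
  have hK1 : IsCompact {w : (ℝ × ℝ) × (ℝ × ℝ) |
      w.1 ∈ Set.Icc ((0, 0) : ℝ × ℝ) (3 / 2, 2 * Real.pi) ∧ Ham (fac C Y) w = c} := by
    set R := 1 + 2 * c * M with hR
    refine ((isCompact_Icc (a := ((0, 0) : ℝ × ℝ)) (b := (3 / 2, 2 * Real.pi))).prod
      (isCompact_Icc (a := ((-R, -R) : ℝ × ℝ)) (b := (R, R)))).of_isClosed_subset ?_ ?_
    · simp only [hH]
      apply IsClosed.inter
      · exact isClosed_Icc.preimage continuous_fst
      · refine isClosed_eq ?_ ?_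
        · unfold nsq
          fun_prop
        · exact continuous_const.mul (hfc.comp continuous_fst)
    · rintro z ⟨h1, h2⟩
      refine ⟨h1, ?_⟩
      rw [hH] at h2
      have h3 := (le_abs_self _).trans (hM z.1 h1)
      have h4 : nsq z.2 ≤ 2 * c * M := by
        rw [h2]
        exact mul_le_mul_of_nonneg_left h3 (by positivity)
      unfold nsq at h4
      rw [Set.mem_Icc, Prod.le_def, Prod.le_def]
      simp only
      refine ⟨⟨?_, ?_⟩, ?_, ?_⟩ <;> nlinarith [sq_nonneg (z.2.1 - 1), sq_nonneg (z.2.1 + 1),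
        sq_nonneg (z.2.2 - 1), sq_nonneg (z.2.2 + 1)]
  have hK2 : ∀ w ∈ {w : (ℝ × ℝ) × (ℝ × ℝ) |
      w.1 ∈ Set.Icc ((0, 0) : ℝ × ℝ) (3 / 2, 2 * Real.pi) ∧ Ham (fac C Y) w = c}, w.2 ≠ 0 := by
    rintro w ⟨-, h⟩ h0
    have h1 : Ham (fac C Y) w = 0 := by
      unfold Ham
      rw [h0]
      simp [nsq]
    rw [h1] at h
    exact hc.ne h
  have hcont : ContinuousOn (Fint C Y D) {w : (ℝ × ℝ) × (ℝ × ℝ) |
      w.1 ∈ Set.Icc ((0, 0) : ℝ × ℝ) (3 / 2, 2 * Real.pi) ∧ Ham (fac C Y) w = c} := by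
    intro w hw
    exact (contDiffAt_Fint hC hY hD (hK2 w hw)).continuousAt.continuousWithinAt
  have hcl := hcont.preimage_isClosed_of_isClosed hK1.isClosed (isClosed_singleton (x := e))
  have hset : {w : (ℝ × ℝ) × (ℝ × ℝ) |
      w.1 ∈ Set.Icc ((0, 0) : ℝ × ℝ) (3 / 2, 2 * Real.pi) ∧ w.2 ≠ 0 ∧ Fint C Y D w = e ∧
        Ham (fac C Y) w = c} = {w : (ℝ × ℝ) × (ℝ × ℝ) |
      w.1 ∈ Set.Icc ((0, 0) : ℝ × ℝ) (3 / 2, 2 * Real.pi) ∧ Ham (fac C Y) w = c} ∩
        Fint C Y D ⁻¹' {e} := by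
    ext w
    constructor
    · rintro ⟨h1, -, h3, h4⟩
      exact ⟨⟨h1, h4⟩, h3⟩
    · rintro ⟨h1, h2⟩
      exact ⟨h1.1, hK2 w h1, h2, h1.2⟩
  rw [hset]
  exact hK1.of_isClosed_subset hcl Set.inter_subset_left

end RegLevels

open RegLevels

/-- the example is globally integrable -/
theorem globallyIntegrable (hC : CData C) (hY : YData Y kap) (hD : DData kap D) :
    GloballyIntegrable Λ₀ (fac C Y) := by
  refine ⟨Fint C Y D, good C Y D, ?_, ?_, Fint_homog, ?_, isOpen_good hC hY hD,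
    dense_good hC hY hD, ?_⟩
  · intro z hz
    exact (contDiffAt_Fint hC hY hD hz).contDiffWithinAt
  · intro l hl x p
    exact Fint_periodic hC l hl x p
  · intro z hz
    exact pb_Fint hC hY hD hz
  · intro z hz
    have hE : ∀ w, En C Y w = 2 * Ham (fac C Y) w := by
      intro w; rw [Ham_eq hC hY]; ring
    refine ⟨hz.1, ?_, ?_⟩
    · intro w hw hF hH
      have hq : quo C Y D w = quo C Y D z := by
        unfold quo
        rw [hF, hE, hE, hH]
      have hw' : quo C Y D w ∉ quo C Y D '' crit C Y D := by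
        rw [hq]; exact hz.2
      refine ⟨⟨hw, hw'⟩, ?_⟩
      by_contra hdep
      exact hw' ⟨w, ⟨hw, hdep⟩, rfl⟩
    · have hpos : 0 < Ham (fac C Y) z := by
        have := Smooth_En_pos hC hY hz.1
        rw [hE] at this
        linarith
      refine ⟨_, isCompact_level hC hY hD (c := Ham (fac C Y) z) (e := Fint C Y D z) hpos, ?_, ?_⟩
      · rintro w ⟨-, h1, h2, h3⟩
        exact ⟨h1, h2, h3⟩
      · intro w hw hF hH
        obtain ⟨l, hl, hx⟩ := exists_translate w.1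
        refine ⟨l, hl, hx, hw, ?_, ?_⟩
        · rw [← hF]
          exact Fint_periodic hC l hl w.1 w.2
        · rw [← hH]
          have h1 := hE (w.1 + l, w.2)
          have h2 := hE w
          have h3 := En_periodic hC hY l hl w.1 w.2
          have h4 : En C Y (w.1, w.2) = En C Y w := rfl
          linarith

end Pool.Agent.TorusInt
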