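import Mathlib

/-!
# Integrable geodesic flows on the two-torus (MP_238ae6_gt): definitions used in the statement

The plane is `ℝ × ℝ`, its cotangent bundle `(ℝ × ℝ) × (ℝ × ℝ)` (position, momentum). A metric on the
torus `ℝ²/Λ` is given by its conformal factor `f`: the metric `f (dx² + dy²)`. Objects on the torus
are represented by their `Λ`-periodic lifts to the plane.
-/

set_option autoImplicit false

open scoped ContDiff

namespace Pool.Agent.TorusInt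

/-- the square of the Euclidean norm of a vector of the plane -/
def nsq (v : ℝ × ℝ) : ℝ := v.1 ^ 2 + v.2 ^ 2

/-- a lattice of the plane: the integer span of two linearly independent vectors -/
def IsLattice (Λ : AddSubgroup (ℝ × ℝ)) : Prop :=
  ∃ a b : ℝ × ℝ, a.1 * b.2 - a.2 * b.1 ≠ 0 ∧ Λ = AddSubgroup.closure {a, b}

/-- `f (dx² + dy²)` is a smooth Riemannian metric on the torus `ℝ²/Λ` -/
def IsMetric (Λ : AddSubgroup (ℝ × ℝ)) (f : ℝ × ℝ → ℝ) : Prop :=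
  ContDiff ℝ ∞ f ∧ (∀ x, 0 < f x) ∧ ∀ l ∈ Λ, ∀ x, f (x + l) = f x

/-- The tori `ℝ²/Λ` with the metric `f (dx² + dy²)` and `ℝ²/Λ'` with the metric `g (dx² + dy²)` are
isometric: there is a diffeomorphism of the tori, given by its lift `Φ` (with inverse `Ψ`) to the
universal covers, which pulls the second metric back to the first. -/
def Isometric (Λ : AddSubgroup (ℝ × ℝ)) (f : ℝ × ℝ → ℝ)
    (Λ' : AddSubgroup (ℝ × ℝ)) (g : ℝ × ℝ → ℝ) : Prop :=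
  ∃ Φ Ψ : ℝ × ℝ → ℝ × ℝ, ContDiff ℝ ∞ Φ ∧ ContDiff ℝ ∞ Ψ ∧
    (∀ x, Ψ (Φ x) = x) ∧ (∀ x, Φ (Ψ x) = x) ∧
    (∀ x y, x - y ∈ Λ ↔ Φ x - Φ y ∈ Λ') ∧
    ∀ x v, g (Φ x) * nsq (fderiv ℝ Φ x v) = f x * nsq v

/-- The metric `f (dx² + dy²)` on `ℝ²/Λ` is of Liouville type: it is isometric to a metric
`(g₁ (x₁) + g₂ (x₂)) (dx₁² + dx₂²)` on some torus `ℝ²/Λ'`. -/
def LiouvilleType (Λ : AddSubgroup (ℝ × ℝ)) (f : ℝ × ℝ → ℝ) : Prop :=
  ∃ (Λ' : AddSubgroup (ℝ × ℝ)) (g₁ g₂ : ℝ → ℝ), IsLattice Λ' ∧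
    ContDiff ℝ ∞ g₁ ∧ ContDiff ℝ ∞ g₂ ∧ IsMetric Λ' (fun x => g₁ x.1 + g₂ x.2) ∧
    Isometric Λ f Λ' (fun x => g₁ x.1 + g₂ x.2)

/-- the Hamiltonian of the geodesic flow of `f (dx² + dy²)`: half of the squared norm of the
covector `z.2` at the point `z.1` -/
noncomputable def Ham (f : ℝ × ℝ → ℝ) (z : (ℝ × ℝ) × (ℝ × ℝ)) : ℝ := nsq z.2 / (2 * f z.1)

/-- the canonical Poisson bracket of two functions on the cotangent bundle of the plane -/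
noncomputable def pb (F G : (ℝ × ℝ) × (ℝ × ℝ) → ℝ) (z : (ℝ × ℝ) × (ℝ × ℝ)) : ℝ :=
  (fderiv ℝ F z ((1, 0), 0) * fderiv ℝ G z (0, (1, 0)) -
      fderiv ℝ F z (0, (1, 0)) * fderiv ℝ G z ((1, 0), 0)) +
    (fderiv ℝ F z ((0, 1), 0) * fderiv ℝ G z (0, (0, 1)) -
      fderiv ℝ F z (0, (0, 1)) * fderiv ℝ G z ((0, 1), 0))

/-- An open dense subset `V` of the cotangent bundle of the torus `ℝ²/Λ` is foliated by compact
regular common level surfaces of the Hamiltonian `H` and of a first integral `F`. The function `F`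
is smooth off the zero section, positively homogeneous of degree two in the momenta, and Poisson
commutes with `H`. If `z ∈ V`, then the whole common level `{F = F z, H = H z}` (off the zero section)
lies in `V`, the differentials of `F` and `H` are linearly independent at each of its points, and it
is compact modulo `Λ`. (Hence, by the Liouville-Arnold theorem, it is a finite union of invariant
Lagrangian tori.) -/
def GloballyIntegrable (Λ : AddSubgroup (ℝ × ℝ)) (f : ℝ × ℝ → ℝ) : Prop :=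
  ∃ (F : (ℝ × ℝ) × (ℝ × ℝ) → ℝ) (V : Set ((ℝ × ℝ) × (ℝ × ℝ))),
    ContDiffOn ℝ ∞ F {z | z.2 ≠ 0} ∧
    (∀ l ∈ Λ, ∀ x p, F (x + l, p) = F (x, p)) ∧
    (∀ x p (t : ℝ), 0 < t → F (x, t • p) = t ^ 2 * F (x, p)) ∧
    (∀ z, z.2 ≠ 0 → pb F (Ham f) z = 0) ∧
    IsOpen V ∧ Dense V ∧
    ∀ z ∈ V, z.2 ≠ 0 ∧
      (∀ w, w.2 ≠ 0 → F w = F z → Ham f w = Ham f z →
        w ∈ V ∧ LinearIndependent ℝ ![fderiv ℝ F w, fderiv ℝ (Ham f) w]) ∧
      ∃ K : Set ((ℝ × ℝ) × (ℝ × ℝ)), IsCompact K ∧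
        (∀ w ∈ K, w.2 ≠ 0 ∧ F w = F z ∧ Ham f w = Ham f z) ∧
        ∀ w, w.2 ≠ 0 → F w = F z → Ham f w = Ham f z → ∃ l ∈ Λ, (w.1 + l, w.2) ∈ K

/-- On the set `I` of times, `γ` is a trajectory of the geodesic flow of `f (dx² + dy²)`, in
canonical coordinates: it solves Hamilton's equations `x' = ∂H/∂p`, `p' = -∂H/∂x`. -/
def IsTrajectory (f : ℝ × ℝ → ℝ) (I : Set ℝ) (γ : ℝ → (ℝ × ℝ) × (ℝ × ℝ)) : Prop :=
  ∀ t ∈ I, HasDerivAt γ
    ((fderiv ℝ (Ham f) (γ t) (0, (1, 0)), fderiv ℝ (Ham f) (γ t) (0, (0, 1))),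
      (-fderiv ℝ (Ham f) (γ t) ((1, 0), 0), -fderiv ℝ (Ham f) (γ t) ((0, 1), 0))) t

/-- The graph of the `1`-form `α` on the torus `ℝ²/Λ` is a smooth Lagrangian graph (i.e. `α` is a
smooth closed `1`-form on the torus) which is invariant under the geodesic flow of
`f (dx² + dy²)`: trajectories, defined on open intervals of time, which meet the graph stay on
it. -/
def InvariantLagrangianGraph (Λ : AddSubgroup (ℝ × ℝ)) (f : ℝ × ℝ → ℝ) (α : ℝ × ℝ → ℝ × ℝ) : Prop :=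
  ContDiff ℝ ∞ α ∧ (∀ l ∈ Λ, ∀ x, α (x + l) = α x) ∧
    (∀ x, (fderiv ℝ α x (0, 1)).1 = (fderiv ℝ α x (1, 0)).2) ∧
    ∀ (I : Set ℝ) (γ : ℝ → (ℝ × ℝ) × (ℝ × ℝ)), IsOpen I → IsPreconnected I → IsTrajectory f I γ →
      ∀ t₀ ∈ I, (γ t₀).2 = α (γ t₀).1 → ∀ t ∈ I, (γ t).2 = α (γ t).1

/-- A nonempty open subset of the cotangent bundle of the torus `ℝ²/Λ` is foliated by invariant
Lagrangian graphs: there are a nonempty open set `U` and a smooth function `F` on it such that the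
map `(F, H)` is a submersion on `U` and each of its fibres in `U` is an invariant Lagrangian
graph. -/
def GraphFoliated (Λ : AddSubgroup (ℝ × ℝ)) (f : ℝ × ℝ → ℝ) : Prop :=
  ∃ (F : (ℝ × ℝ) × (ℝ × ℝ) → ℝ) (U : Set ((ℝ × ℝ) × (ℝ × ℝ))),
    IsOpen U ∧ U.Nonempty ∧ (∀ l ∈ Λ, ∀ x p, (x + l, p) ∈ U ↔ (x, p) ∈ U) ∧
    ContDiffOn ℝ ∞ F U ∧ (∀ l ∈ Λ, ∀ x p, F (x + l, p) = F (x, p)) ∧
    (∀ z ∈ U, LinearIndependent ℝ ![fderiv ℝ F z, fderiv ℝ (Ham f) z]) ∧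
    ∀ z ∈ U, ∃ α : ℝ × ℝ → ℝ × ℝ, InvariantLagrangianGraph Λ f α ∧
      ∀ w, w ∈ U ∧ F w = F z ∧ Ham f w = Ham f z ↔ w.2 = α w.1

end Pool.Agent.TorusInt
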